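import Pool.Agent.Work.MP_f2148a_nt.BM.Defs
import Pool.Agent.Work.MP_f2148a_nt.As.HallT

/-!
# BM/BigP (size M): the pairs with large `y`

`S = {t ∈ As.pr K | T |t.2² - t.1³| ^ (1 / 2) < |t.2|}`, finite since `As.pr K` is (`Asy θ`). The map `t ↦ t.2² - t.1³` maps
`As.pr K` onto `As.sol K` and `S` into `As.bigT T K`. Every fibre over `k ∈ sol K` contains at least 2 elements unless it
contains an element with `t.2 = 0` (at most `3 K ^ (1 / 3) + 1` such `k`: `-t.1 ^ 3 = k`, see `As.card_zero` in `As/Two.lean`); so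
`∑_k (r(k) - 2) = #pr K - 2 #sol K ≤ A K ^ θ` (`Asy θ` and `As.cnt`), with negative terms only `-1` for the exceptional
`k`, hence `∑_{k ∈ bigT} r(k) ≤ 2 #bigT + A K ^ θ + (number of exceptional k)`, and `As.bigT_le` for `#bigT`
(`T ≥ 1`). For `T₀ ≤ T < 1` (`T₀ > 0` fixed): `#S ≤ #pr K ≤ (c0 + A) K ^ (5 / 6) ≤ (c0 + A) T ^ (-1 / 3) K ^ (5 / 6)`
since `T ^ (-1 / 3) ≥ 1`.
-/

set_option autoImplicit false

namespace Pool.Agent.Work.MP_f2148a_nt.BM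

theorem bigP {θ : ℝ} (hA : As.Asy θ) (h1 : 4 / 5 < θ) (h2 : θ < 5 / 6) : ∃ A : ℝ, 0 ≤ A ∧
    ∀ K : ℝ, 1 ≤ K → ∀ T : ℝ, 0 < T →
    {t : ℤ × ℤ | t ∈ As.pr K ∧
      T * |(t.2 : ℝ) ^ 2 - (t.1 : ℝ) ^ 3| ^ (1 / 2 : ℝ) < |(t.2 : ℝ)|}.Finite ∧
    ({t : ℤ × ℤ | t ∈ As.pr K ∧
      T * |(t.2 : ℝ) ^ 2 - (t.1 : ℝ) ^ 3| ^ (1 / 2 : ℝ) < |(t.2 : ℝ)|}.ncard : ℝ) ≤
      A * (T ^ (-(1 / 3) : ℝ) * K ^ (5 / 6 : ℝ) + K ^ θ) := by
  classical
  obtain ⟨A1, hA1⟩ := As.cnt hA h1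
  obtain ⟨A2, hA2, hbig⟩ := As.bigT_le hA h1 h2
  obtain ⟨A0, hA0⟩ := hA
  refine ⟨|As.c0| + |A0| + 3 + 2 * |A1| + 2 * A2, by positivity, fun K hK T hT => ?_⟩
  obtain ⟨hfin, hasy⟩ := hA0 K hK
  obtain ⟨hsfin, hsasy⟩ := hA1 K hK
  set S : Set (ℤ × ℤ) := {t : ℤ × ℤ | t ∈ As.pr K ∧
      T * |(t.2 : ℝ) ^ 2 - (t.1 : ℝ) ^ 3| ^ (1 / 2 : ℝ) < |(t.2 : ℝ)|} with hS
  have hSsub : S ⊆ As.pr K := fun t ht => ht.1
  have hSfin : S.Finite := hfin.subset hSsub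
  refine ⟨hSfin, ?_⟩
  have hK0 : (0 : ℝ) < K := by linarith
  have hpow : 0 ≤ K ^ θ := Real.rpow_nonneg hK0.le _
  have hpow56 : 0 ≤ K ^ (5 / 6 : ℝ) := Real.rpow_nonneg hK0.le _
  have hTpow : 0 ≤ T ^ (-(1 / 3) : ℝ) := Real.rpow_nonneg hT.le _
  have b0 : A0 * K ^ θ ≤ |A0| * K ^ θ := mul_le_mul_of_nonneg_right (le_abs_self _) hpow
  have b1 : A1 * K ^ θ ≤ |A1| * K ^ θ := mul_le_mul_of_nonneg_right (le_abs_self _) hpow
  have bc : As.c0 * K ^ (5 / 6 : ℝ) ≤ |As.c0| * K ^ (5 / 6 : ℝ) :=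
    mul_le_mul_of_nonneg_right (le_abs_self _) hpow56
  have c1 := (abs_le.1 hasy).2
  have c2 := (abs_le.1 hsasy).1
  have hexp : (|As.c0| + |A0| + 3 + 2 * |A1| + 2 * A2) *
      (T ^ (-(1 / 3) : ℝ) * K ^ (5 / 6 : ℝ) + K ^ θ) =
      |As.c0| * (T ^ (-(1 / 3) : ℝ) * K ^ (5 / 6 : ℝ)) + |As.c0| * K ^ θ +
      (|A0| + 3 + 2 * |A1|) * (T ^ (-(1 / 3) : ℝ) * K ^ (5 / 6 : ℝ)) +
      (|A0| * K ^ θ + 3 * K ^ θ + 2 * (|A1| * K ^ θ)) +
      2 * (A2 * (T ^ (-(1 / 3) : ℝ) * K ^ (5 / 6 : ℝ) + K ^ θ)) := by ring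
  have n1 : 0 ≤ |As.c0| * (T ^ (-(1 / 3) : ℝ) * K ^ (5 / 6 : ℝ)) := by positivity
  have n2 : 0 ≤ |As.c0| * K ^ θ := by positivity
  have n3 : 0 ≤ (|A0| + 3 + 2 * |A1|) * (T ^ (-(1 / 3) : ℝ) * K ^ (5 / 6 : ℝ)) := by positivity
  have n4 : 0 ≤ |A1| * K ^ θ := by positivity
  have n5 : 0 ≤ A2 * (T ^ (-(1 / 3) : ℝ) * K ^ (5 / 6 : ℝ) + K ^ θ) := by positivity
  rcases lt_or_ge T 1 with hT1 | hT1
  · have h3 : (S.ncard : ℝ) ≤ ((As.pr K).ncard : ℝ) := by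
      exact_mod_cast Set.ncard_le_ncard hSsub hfin
    have h4 : 1 ≤ T ^ (-(1 / 3) : ℝ) :=
      Real.one_le_rpow_of_pos_of_le_one_of_nonpos hT hT1.le (by norm_num)
    have h5 : |As.c0| * K ^ (5 / 6 : ℝ) ≤ |As.c0| * (T ^ (-(1 / 3) : ℝ) * K ^ (5 / 6 : ℝ)) := by
      refine mul_le_mul_of_nonneg_left ?_ (abs_nonneg _)
      nlinarith
    rw [hexp]
    linarith
  -- the case `T ≥ 1`
  have hB := hbig K hK T hT1
  have hBfin : (As.bigT T K).Finite := hsfin.subset (As.bigT_sub_sol T K)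
  set F : Finset (ℤ × ℤ) := hfin.toFinset with hFdef
  have hFm : ∀ t, t ∈ F ↔ t ∈ As.pr K := fun t => Set.Finite.mem_toFinset _
  have hFc : (As.pr K).ncard = F.card := Set.ncard_eq_toFinset_card _ hfin
  rw [hFc] at hasy c1
  set L : Finset ℤ := hsfin.toFinset with hLdef
  have hLm : ∀ t, t ∈ L ↔ t ∈ As.sol K := fun t => Set.Finite.mem_toFinset _
  have hLc : (As.sol K).ncard = L.card := Set.ncard_eq_toFinset_card _ hsfin
  rw [hLc] at hsasy c2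
  set B : Finset ℤ := hBfin.toFinset with hBdef
  have hBm : ∀ t, t ∈ B ↔ t ∈ As.bigT T K := fun t => Set.Finite.mem_toFinset _
  have hBc : (As.bigT T K).ncard = B.card := Set.ncard_eq_toFinset_card _ hBfin
  rw [hBc] at hB
  set G : Finset (ℤ × ℤ) := hSfin.toFinset with hGdef
  have hGm : ∀ t, t ∈ G ↔ t ∈ S := fun t => Set.Finite.mem_toFinset _
  have hGc : S.ncard = G.card := Set.ncard_eq_toFinset_card _ hSfin
  rw [hGc]
  set φ : ℤ × ℤ → ℤ := fun t => t.2 ^ 2 - t.1 ^ 3 with hφ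
  set P := F.filter fun t => 0 ≤ t.2 with hP
  have hsym : ∀ t ∈ F, (t.1, -t.2) ∈ F := by
    intro t ht
    rw [hFm] at ht ⊢
    obtain ⟨h1, h2⟩ := ht
    refine ⟨by simpa using h1, ?_⟩
    simpa using h2
  have hhalf := As.card_half F hsym
  have hsymG : ∀ t ∈ G, (t.1, -t.2) ∈ G := by
    intro t ht
    rw [hGm] at ht ⊢
    obtain ⟨h1, h2⟩ := ht
    refine ⟨?_, ?_⟩
    · have := hsym t ((hFm t).2 h1)
      exact (hFm _).1 this
    · show T * |((-t.2 : ℤ) : ℝ) ^ 2 - (t.1 : ℝ) ^ 3| ^ (1 / 2 : ℝ) < |((-t.2 : ℤ) : ℝ)|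
      push_cast
      rw [abs_neg, neg_sq]
      exact h2
  have hhalfG := As.card_half G hsymG
  have hZ := As.card_zero hK (F.filter fun t => t.2 = 0) (fun t ht => by
    rw [Finset.mem_filter, hFm] at ht
    exact ht)
  -- the elements of `G` with `t.2 ≥ 0` lie over `B`
  have hGP : (G.filter fun t => 0 ≤ t.2) ⊆ P.filter fun t => φ t ∈ B := by
    intro t ht
    rw [Finset.mem_filter, hGm] at ht
    obtain ⟨⟨hp, hlt⟩, h0⟩ := ht
    rw [Finset.mem_filter, hP, Finset.mem_filter, hFm, hBm]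
    refine ⟨⟨hp, h0⟩, sub_ne_zero.mpr hp.1, ?_, t.1, t.2, by simp only [hφ]; ring, ?_⟩
    · have := hp.2
      simp only [hφ]
      push_cast
      exact this
    · simp only [hφ]
      push_cast
      exact lt_of_lt_of_le hlt (le_max_right _ _)
  have hsurj : (L \ B).card ≤ (P.filter fun t => ¬ φ t ∈ B).card := by
    have : L \ B ⊆ (P.filter fun t => ¬ φ t ∈ B).image φ := by
      intro k hk
      rw [Finset.mem_sdiff, hLm] at hk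
      obtain ⟨⟨h0, hkK, x, y, hxy⟩, hkB⟩ := hk
      obtain ⟨m1, m2⟩ := As.mem_pr_abs h0 hkK hxy
      rw [Finset.mem_image]
      refine ⟨(x, |y|), ?_, m2⟩
      rw [Finset.mem_filter, hP, Finset.mem_filter, hFm]
      refine ⟨⟨m1, abs_nonneg _⟩, ?_⟩
      rw [show φ (x, |y|) = k from m2]
      exact hkB
    exact (Finset.card_le_card this).trans Finset.card_image_le
  have hsplit : (P.filter fun t => φ t ∈ B).card + (P.filter fun t => ¬ φ t ∈ B).card = P.card :=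
    Finset.card_filter_add_card_filter_not _
  have hsd : L.card ≤ (L \ B).card + B.card := by
    exact Finset.card_le_card_sdiff_add_card (s := L) (t := B)
  have hG1 := Finset.card_le_card hGP
  have hnat : G.card + 2 * L.card ≤ 2 * P.card + 2 * B.card := by omega
  have hnat' : (G.card : ℝ) + 2 * (L.card : ℝ) ≤ 2 * (P.card : ℝ) + 2 * (B.card : ℝ) := by
    exact_mod_cast hnat
  have hhalf' : (F.card : ℝ) + ((F.filter fun t => t.2 = 0).card : ℝ) = 2 * (P.card : ℝ) := by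
    exact_mod_cast hhalf
  have h13 : K ^ (1 / 3 : ℝ) ≤ K ^ θ := Real.rpow_le_rpow_of_exponent_le hK (by linarith)
  rw [hexp]
  linarith

end Pool.Agent.Work.MP_f2148a_nt.BM
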