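import Pool.Agent.Work.MP_f2148a_nt.BM.Cla
import Pool.Agent.Work.MP_f2148a_nt.BM.BigP

/-!
# BM/BigE (size S): the elliptic curves with large `c₆`

`ebig_card`, and `bigP` with `K = 1728 X`, `T / 1728 ^ (1 / 2)` instead of `T`
(`(|v| / 1728) ^ (1 / 2) = |v| ^ (1 / 2) / 1728 ^ (1 / 2)`).
-/

set_option autoImplicit false

namespace Pool.Agent.Work.MP_f2148a_nt.BM

theorem bigE {θ : ℝ} (hA : As.Asy θ) (h1 : 4 / 5 < θ) (h2 : θ < 5 / 6) : ∃ A : ℝ, 0 ≤ A ∧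
    ∀ X : ℝ, 1 ≤ X → ∀ T : ℝ, 1 ≤ T → (Ebig T X).Finite ∧
    ((Ebig T X).ncard : ℝ) ≤ A * (T ^ (-(1 / 3) : ℝ) * X ^ (5 / 6 : ℝ) + X ^ θ) := by
  obtain ⟨A, hA0, h⟩ := bigP hA h1 h2
  have c1 : (0 : ℝ) < 1728 ^ (1 / 2 : ℝ) := Real.rpow_pos_of_pos (by norm_num) _
  have c2 : (0 : ℝ) < (1728 ^ (1 / 2 : ℝ)) ^ (1 / 3 : ℝ) := Real.rpow_pos_of_pos c1 _
  have c3 : (0 : ℝ) < 1728 ^ (5 / 6 : ℝ) := Real.rpow_pos_of_pos (by norm_num) _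
  have c4 : (0 : ℝ) < 1728 ^ θ := Real.rpow_pos_of_pos (by norm_num) _
  refine ⟨A * ((1728 ^ (1 / 2 : ℝ)) ^ (1 / 3 : ℝ) * 1728 ^ (5 / 6 : ℝ) + 1728 ^ θ), by positivity, ?_⟩
  intro X hX T hT
  have hX0 : (0 : ℝ) ≤ X := by linarith
  have hT0 : (0 : ℝ) ≤ T := by linarith
  obtain ⟨hf, hb⟩ := h (1728 * X) (by linarith) (T / 1728 ^ (1 / 2 : ℝ)) (by positivity)
  have hset : {t : ℤ × ℤ | t ∈ As.pr (1728 * X) ∧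
      T * (|(t.2 : ℝ) ^ 2 - (t.1 : ℝ) ^ 3| / 1728) ^ (1 / 2 : ℝ) < |(t.2 : ℝ)|} =
      {t : ℤ × ℤ | t ∈ As.pr (1728 * X) ∧
      T / 1728 ^ (1 / 2 : ℝ) * |(t.2 : ℝ) ^ 2 - (t.1 : ℝ) ^ 3| ^ (1 / 2 : ℝ) < |(t.2 : ℝ)|} := by
    ext t
    have e : T * (|(t.2 : ℝ) ^ 2 - (t.1 : ℝ) ^ 3| / 1728) ^ (1 / 2 : ℝ) =
        T / 1728 ^ (1 / 2 : ℝ) * |(t.2 : ℝ) ^ 2 - (t.1 : ℝ) ^ 3| ^ (1 / 2 : ℝ) := by
      rw [Real.div_rpow (abs_nonneg _) (by norm_num)]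
      ring
    simp only [Set.mem_setOf_eq, e]
  obtain ⟨g1, g2⟩ := ebig_card (T := T) (X := X) (by rw [hset]; exact hf)
  refine ⟨g1, ?_⟩
  rw [hset] at g2
  have g3 : ((Ebig T X).ncard : ℝ) ≤ A * ((T / 1728 ^ (1 / 2 : ℝ)) ^ (-(1 / 3) : ℝ) *
      (1728 * X) ^ (5 / 6 : ℝ) + (1728 * X) ^ θ) := by
    refine le_trans ?_ hb
    exact_mod_cast g2
  refine g3.trans ?_
  have e1 : (T / 1728 ^ (1 / 2 : ℝ)) ^ (-(1 / 3) : ℝ) =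
      T ^ (-(1 / 3) : ℝ) * (1728 ^ (1 / 2 : ℝ)) ^ (1 / 3 : ℝ) := by
    rw [Real.div_rpow hT0 c1.le, Real.rpow_neg c1.le, div_inv_eq_mul]
  rw [e1, Real.mul_rpow (by norm_num) hX0, Real.mul_rpow (by norm_num) hX0]
  have t1 : (0 : ℝ) ≤ T ^ (-(1 / 3) : ℝ) * X ^ (5 / 6 : ℝ) := by positivity
  have t2 : (0 : ℝ) ≤ X ^ θ := by positivity
  rw [mul_assoc A]
  refine mul_le_mul_of_nonneg_left ?_ hA0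
  have p1 : (0 : ℝ) ≤ (1728 ^ (1 / 2 : ℝ)) ^ (1 / 3 : ℝ) * 1728 ^ (5 / 6 : ℝ) := by positivity
  nlinarith [mul_nonneg p1 t2, mul_nonneg c4.le t1]

end Pool.Agent.Work.MP_f2148a_nt.BM
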