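import Pool.Agent.Work.MP_f2148a_nt.BM.NF

/-!
# BM/CntP (size S-M): the number of pairs of invariants

`Pm ∩ rg σ K` is the disjoint union over `i ∈ I12` of `cl σ K 48 864 (x0 i) (gf i)` (`mem_Pm`, `disj`), and
`12 / (48 * 864) = 1 / 3456` (`card_I12`).
-/

set_option autoImplicit false

namespace Pool.Agent.Work.MP_f2148a_nt.BM

private theorem cntP_union (σ K : ℝ) :
    Pm ∩ rg σ K = ⋃ i ∈ (I12 : Set (ℤ × ℤ × ℤ)), cl σ K 48 864 (x0 i) (gf i) := by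
  ext t
  simp only [Set.mem_inter_iff, Set.mem_iUnion, exists_prop, cl, Set.mem_ofPred_eq, mem_Pm,
    Finset.mem_coe]
  constructor
  · rintro ⟨⟨i, hi, h1, h2⟩, hr⟩
    exact ⟨i, hi, hr, by exact_mod_cast h1, by exact_mod_cast h2⟩
  · rintro ⟨i, hi, hr, h1, h2⟩
    exact ⟨⟨i, hi, by exact_mod_cast h1, by exact_mod_cast h2⟩, hr⟩

theorem cntP {θ : ℝ} (h : AsyQ θ) {σ : ℝ} (hσ : σ = 1 ∨ σ = -1) : ∃ A : ℝ, ∀ K : ℝ, 1 ≤ K →
    (Pm ∩ rg σ K).Finite ∧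
    |((Pm ∩ rg σ K).ncard : ℝ) - ar σ / 3456 * K ^ (5 / 6 : ℝ)| ≤ A * K ^ θ := by
  classical
  obtain ⟨A, hA⟩ := h σ hσ
  refine ⟨12 * A, fun K hK => ?_⟩
  have hfin : ∀ i : ℤ × ℤ × ℤ, (cl σ K 48 864 (x0 i) (gf i)).Finite := fun i =>
    (hA 48 864 (by norm_num) (by norm_num) (x0 i) (gf i) K hK).1
  have hest : ∀ i : ℤ × ℤ × ℤ, |((cl σ K 48 864 (x0 i) (gf i)).ncard : ℝ)
      - ar σ / ((48 : ℕ) * (864 : ℕ)) * K ^ (5 / 6 : ℝ)| ≤ A * K ^ θ := fun i =>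
    (hA 48 864 (by norm_num) (by norm_num) (x0 i) (gf i) K hK).2
  have hF : (Pm ∩ rg σ K).Finite := by
    rw [cntP_union]
    exact Set.Finite.biUnion I12.finite_toSet fun i _ => hfin i
  refine ⟨hF, ?_⟩
  have hcard : (Pm ∩ rg σ K).ncard = ∑ i ∈ I12, (cl σ K 48 864 (x0 i) (gf i)).ncard := by
    have h1 : (Pm ∩ rg σ K).ncard
        = (I12.biUnion fun i => (hfin i).toFinset).card := by
      rw [← Set.ncard_coe_finset]
      congr 1
      rw [cntP_union]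
      ext t
      simp
    rw [h1, Finset.card_biUnion]
    · refine Finset.sum_congr rfl fun i _ => ?_
      rw [Set.ncard_eq_toFinset_card _ (hfin i)]
    · intro i hi j hj hij
      change Disjoint (hfin i).toFinset (hfin j).toFinset
      rw [Finset.disjoint_left]
      intro t ht ht'
      rw [Set.Finite.mem_toFinset] at ht ht'
      apply hij
      obtain ⟨-, h1, h2⟩ := ht
      obtain ⟨-, h3, h4⟩ := ht'
      exact disj t hi hj (by exact_mod_cast h1) (by exact_mod_cast h2) (by exact_mod_cast h3)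
        (by exact_mod_cast h4)
  have hsum : ((Pm ∩ rg σ K).ncard : ℝ) - ar σ / 3456 * K ^ (5 / 6 : ℝ)
      = ∑ i ∈ I12, (((cl σ K 48 864 (x0 i) (gf i)).ncard : ℝ)
        - ar σ / ((48 : ℕ) * (864 : ℕ)) * K ^ (5 / 6 : ℝ)) := by
    rw [Finset.sum_sub_distrib, Finset.sum_const, card_I12, hcard, nsmul_eq_mul]
    push_cast
    ring
  rw [hsum]
  calc |∑ i ∈ I12, (((cl σ K 48 864 (x0 i) (gf i)).ncard : ℝ)
        - ar σ / ((48 : ℕ) * (864 : ℕ)) * K ^ (5 / 6 : ℝ))|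
      ≤ ∑ i ∈ I12, |((cl σ K 48 864 (x0 i) (gf i)).ncard : ℝ)
        - ar σ / ((48 : ℕ) * (864 : ℕ)) * K ^ (5 / 6 : ℝ)| := Finset.abs_sum_le_sum_abs _ _
    _ ≤ ∑ _i ∈ I12, A * K ^ θ := Finset.sum_le_sum fun i _ => hest i
    _ = 12 * A * K ^ θ := by
        rw [Finset.sum_const, card_I12, nsmul_eq_mul]
        push_cast
        ring

end Pool.Agent.Work.MP_f2148a_nt.BM
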