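import Pool.Agent.Work.MP_f2148a_nt.BM.Defs

/-!
# BM/Inv12 (size M): inversion (abstract)

`c' = c / z10`, `E Y = M Y - c' Y ^ (5 / 6)` for `Y > 0`. For `Y < 1`: `|E Y| = |c'| Y ^ (5 / 6) ≤ |c'| Y ^ θ` (`Y < 1`, `θ < 5 / 6`).
For `X ≥ 1` and `U` with `X < (U + 1) ^ 12`, `1 ≤ U`: `c X ^ (5 / 6) = c' z10 X ^ (5 / 6) = ∑' u ≥ 1, c' (X / u ^ 12) ^ (5 / 6)`, so
`E X = (N X - c X ^ (5 / 6)) - ∑_{u=2}^{U} E (X / u ^ 12) + ∑_{u > U} c' (X / u ^ 12) ^ (5 / 6)`, and the last sum is at most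
`|c'| ∑_{u > U} (X / u ^ 12) ^ θ`. With `∑_{u ≥ 2} u ^ (-12 θ) ≤ ∑_{u ≥ 2} u ^ (-9) ≤ 1 / 2` and `B = 2 |A| + |c'|`, the
bound `|E Y| ≤ B Y ^ θ` for all `0 < Y < 2 ^ k` (`k = 0`: above) implies it for `0 < X < 2 ^ (k + 1)` (`X / u ^ 12 < X / 2`):
`|E X| ≤ |A| X ^ θ + B X ^ θ / 2 ≤ B X ^ θ`. (`∑_{u ≥ 2} u ^ (-9) ≤ ∑_{u ≥ 2} u ^ (-2) / 2 ^ 7`, or compare with a telescoping series.)
-/

set_option autoImplicit false

namespace Pool.Agent.Work.MP_f2148a_nt.BM

private theorem i12_sum (g : ℕ → ℝ) (U : ℕ) :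
    ∑ u ∈ Finset.Icc 1 U, g u = ∑ n ∈ Finset.range U, g (n + 1) := by
  induction U with
  | zero => simp
  | succ U ih => rw [Finset.sum_Icc_succ_top (by omega), Finset.sum_range_succ, ih]

private theorem i12_s10 : Summable fun n : ℕ => 1 / ((n : ℝ) + 1) ^ 10 := by
  have h := (summable_nat_add_iff 1).2
    (Real.summable_one_div_nat_pow.2 (by norm_num : 1 < 10))
  refine h.congr fun n => ?_
  push_cast
  rfl

private theorem i12_z10 : 0 < z10 :=
  i12_s10.tsum_pos (fun n => by positivity) 0 (by positivity)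

private theorem i12_pow {X u : ℝ} (hX : 0 ≤ X) (hu : 0 < u) :
    (X / u ^ 12) ^ (5 / 6 : ℝ) = X ^ (5 / 6 : ℝ) * (1 / u ^ 10) := by
  have h1 : (u ^ 12) ^ (5 / 6 : ℝ) = u ^ 10 := by
    rw [← Real.rpow_natCast u 12, ← Real.rpow_mul hu.le, ← Real.rpow_natCast u 10]
    congr 1
    norm_num
  rw [Real.div_rpow hX (pow_nonneg hu.le 12), h1]
  ring

private theorem i12_pow2 {X u θ : ℝ} (hX : 0 ≤ X) (hu : 1 ≤ u) (hθ : 4 / 5 < θ) :
    (X / u ^ 12) ^ θ ≤ X ^ θ / u ^ 9 := by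
  have hu0 : 0 < u := by linarith
  have h1 : u ^ 9 ≤ (u ^ 12) ^ θ := by
    rw [← Real.rpow_natCast u 12, ← Real.rpow_mul hu0.le, ← Real.rpow_natCast u 9]
    refine Real.rpow_le_rpow_of_exponent_le hu ?_
    push_cast
    linarith
  rw [Real.div_rpow hX (pow_nonneg hu0.le 12)]
  exact div_le_div_of_nonneg_left (Real.rpow_nonneg hX θ) (pow_pos hu0 9) h1

private theorem i12_ser : ∃ b : ℝ, b ≤ 1 / 2 ∧ HasSum (fun n : ℕ => 1 / 128 * (1 / ((n : ℝ) + 2) ^ 2)) b := by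
  have h1 := (hasSum_nat_add_iff' 2).2 hasSum_zeta_two
  have h2 := h1.mul_left (1 / 128 : ℝ)
  refine ⟨1 / 128 * (Real.pi ^ 2 / 6 - ∑ i ∈ Finset.range 2, 1 / (i : ℝ) ^ 2), ?_, ?_⟩
  · have h3 : Real.pi ^ 2 ≤ 16 := by
      have h4 := Real.pi_le_four
      have h5 := Real.pi_pos
      nlinarith
    have h6 : (0 : ℝ) ≤ ∑ i ∈ Finset.range 2, 1 / (i : ℝ) ^ 2 :=
      Finset.sum_nonneg fun i _ => by positivity
    linarith
  · have e : (fun n : ℕ => 1 / 128 * (1 / ((n : ℝ) + 2) ^ 2)) =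
        fun i : ℕ => (1 / 128 : ℝ) * (1 / ((i + 2 : ℕ) : ℝ) ^ 2) := by
      funext n
      push_cast
      rfl
    rw [e]
    exact h2

theorem inv12 {N M : ℝ → ℝ} {c A θ : ℝ} (h1 : 4 / 5 < θ) (h2 : θ < 5 / 6)
    (h0 : ∀ X, X < 1 → M X = 0)
    (hN : ∀ X, 1 ≤ X → |N X - c * X ^ (5 / 6 : ℝ)| ≤ A * X ^ θ)
    (hs : ∀ X, 1 ≤ X → ∀ U : ℕ, X < ((U : ℝ) + 1) ^ 12 →
      N X = ∑ u ∈ Finset.Icc 1 U, M (X / (u : ℝ) ^ 12)) :
    ∃ B : ℝ, ∀ X, 1 ≤ X → |M X - c / z10 * X ^ (5 / 6 : ℝ)| ≤ B * X ^ θ := by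
  have hz : 0 < z10 := i12_z10
  set c' := c / z10 with hc'
  have hcz : c' * z10 = c := div_mul_cancel₀ c hz.ne'
  set E : ℝ → ℝ := fun Y => M Y - c' * Y ^ (5 / 6 : ℝ) with hE
  set B := 2 * |A| + |c'| with hB
  have hB0 : 0 ≤ B := by positivity
  have hcB : |c'| ≤ B := by
    rw [hB]
    have := abs_nonneg A
    linarith
  have base : ∀ Y, 0 < Y → Y < 1 → |E Y| ≤ B * Y ^ θ := by
    intro Y hY hY1
    have e1 : E Y = -(c' * Y ^ (5 / 6 : ℝ)) := by
      show M Y - c' * Y ^ (5 / 6 : ℝ) = _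
      rw [h0 Y hY1, zero_sub]
    rw [e1, abs_neg, abs_mul, abs_of_nonneg (Real.rpow_nonneg hY.le _)]
    refine mul_le_mul hcB ?_ (Real.rpow_nonneg hY.le _) hB0
    exact Real.rpow_le_rpow_of_exponent_ge hY hY1.le h2.le
  have main : ∀ k : ℕ, ∀ Y : ℝ, 0 < Y → Y < 2 ^ k → |E Y| ≤ B * Y ^ θ := by
    intro k
    induction k with
    | zero =>
      intro Y hY hY1
      exact base Y hY (by simpa using hY1)
    | succ k ih =>
      intro X hX0 hX
      rcases lt_or_ge X 1 with h | h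
      · exact base X hX0 h
      · have hU : X < (((⌈X⌉₊ : ℕ) : ℝ) + 1) ^ 12 := by
          have h3 : X ≤ ((⌈X⌉₊ : ℕ) : ℝ) := Nat.le_ceil X
          have h4 : (((⌈X⌉₊ : ℕ) : ℝ) + 1) ≤ (((⌈X⌉₊ : ℕ) : ℝ) + 1) ^ 12 :=
            le_self_pow₀ (by linarith) (by norm_num)
          linarith
        set U := ⌈X⌉₊ with hUd
        have hM : HasSum (fun n : ℕ => M (X / ((n : ℝ) + 1) ^ 12)) (N X) := by
          have e1 : N X = ∑ n ∈ Finset.range U, M (X / ((n : ℝ) + 1) ^ 12) := by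
            rw [hs X h U hU, i12_sum (fun u => M (X / (u : ℝ) ^ 12)) U]
            refine Finset.sum_congr rfl fun n _ => ?_
            push_cast
            rfl
          rw [e1]
          refine hasSum_sum_of_ne_finset_zero fun n hn => h0 _ ?_
          have h3 : U ≤ n := by
            rw [Finset.mem_range] at hn
            omega
          have h4 : (0 : ℝ) < ((n : ℝ) + 1) ^ 12 := by positivity
          rw [div_lt_one h4]
          refine hU.trans_le (pow_le_pow_left₀ (by positivity) ?_ 12)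
          have : (U : ℝ) ≤ n := by exact_mod_cast h3
          linarith
        have hz10 : HasSum (fun n : ℕ => c' * X ^ (5 / 6 : ℝ) * (1 / ((n : ℝ) + 1) ^ 10))
            (c' * X ^ (5 / 6 : ℝ) * z10) := i12_s10.hasSum.mul_left _
        have hEs : HasSum (fun n : ℕ => E (X / ((n : ℝ) + 1) ^ 12))
            (N X - c' * X ^ (5 / 6 : ℝ) * z10) := by
          refine (hM.sub hz10).congr_fun ?_
          intro n
          show M (X / ((n : ℝ) + 1) ^ 12) - c' * (X / ((n : ℝ) + 1) ^ 12) ^ (5 / 6 : ℝ) = _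
          rw [i12_pow hX0.le (by positivity : (0 : ℝ) < (n : ℝ) + 1)]
          ring
        have hEs2 : HasSum (fun n : ℕ => E (X / ((n : ℝ) + 2) ^ 12))
            (N X - c' * X ^ (5 / 6 : ℝ) * z10 - E X) := by
          have h3 := (hasSum_nat_add_iff' 1).2 hEs
          have e1 : ∑ i ∈ Finset.range 1, E (X / ((i : ℝ) + 1) ^ 12) = E X := by
            rw [Finset.sum_range_one]
            norm_num
          rw [e1] at h3
          refine h3.congr_fun ?_
          intro n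
          congr 2
          push_cast
          ring
        obtain ⟨b, hb, hbs⟩ := i12_ser
        have hbs2 := hbs.mul_left (B * X ^ θ)
        have hXθ : 0 ≤ X ^ θ := Real.rpow_nonneg hX0.le θ
        have h4 : ‖N X - c' * X ^ (5 / 6 : ℝ) * z10 - E X‖ ≤ B * X ^ θ * b := by
          refine hEs2.norm_le_of_bounded hbs2 fun n => ?_
          have hu : (2 : ℝ) ≤ (n : ℝ) + 2 := by
            have : (0 : ℝ) ≤ n := Nat.cast_nonneg n
            linarith
          have hu0 : (0 : ℝ) < (n : ℝ) + 2 := by linarith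
          have hp : (2 : ℝ) ^ 12 ≤ ((n : ℝ) + 2) ^ 12 := pow_le_pow_left₀ (by norm_num) hu 12
          have h5 : X / ((n : ℝ) + 2) ^ 12 < 2 ^ k := by
            rw [div_lt_iff₀ (by positivity)]
            have h6 : (2 : ℝ) ^ (k + 1) ≤ 2 ^ k * ((n : ℝ) + 2) ^ 12 := by
              rw [pow_succ]
              refine mul_le_mul_of_nonneg_left ?_ (by positivity)
              norm_num at hp
              linarith
            linarith
          have h6 := ih (X / ((n : ℝ) + 2) ^ 12) (by positivity) h5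
          rw [Real.norm_eq_abs]
          refine h6.trans ?_
          have h7 := i12_pow2 (θ := θ) hX0.le (by linarith : (1 : ℝ) ≤ (n : ℝ) + 2) h1
          have h8 : X ^ θ / ((n : ℝ) + 2) ^ 9 ≤ X ^ θ * (1 / 128 * (1 / ((n : ℝ) + 2) ^ 2)) := by
            rw [div_eq_mul_inv]
            refine mul_le_mul_of_nonneg_left ?_ hXθ
            rw [← one_div, one_div_mul_one_div]
            refine one_div_le_one_div_of_le (by positivity) ?_
            have h9 : (2 : ℝ) ^ 7 ≤ ((n : ℝ) + 2) ^ 7 := pow_le_pow_left₀ (by norm_num) hu 7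
            calc (128 : ℝ) * ((n : ℝ) + 2) ^ 2 ≤ ((n : ℝ) + 2) ^ 7 * ((n : ℝ) + 2) ^ 2 := by
                  refine mul_le_mul_of_nonneg_right ?_ (by positivity)
                  norm_num at h9
                  exact h9
              _ = ((n : ℝ) + 2) ^ 9 := by ring
          calc B * (X / ((n : ℝ) + 2) ^ 12) ^ θ ≤
                B * (X ^ θ * (1 / 128 * (1 / ((n : ℝ) + 2) ^ 2))) :=
                mul_le_mul_of_nonneg_left (h7.trans h8) hB0
            _ = B * X ^ θ * (1 / 128 * (1 / ((n : ℝ) + 2) ^ 2)) := by ring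
        have h5 : c' * X ^ (5 / 6 : ℝ) * z10 = c * X ^ (5 / 6 : ℝ) := by
          rw [← hcz]
          ring
        rw [h5, Real.norm_eq_abs] at h4
        have h6 := hN X h
        have h7 : A * X ^ θ ≤ |A| * X ^ θ := mul_le_mul_of_nonneg_right (le_abs_self A) hXθ
        have h8 : B * X ^ θ * b ≤ B * X ^ θ * (1 / 2) :=
          mul_le_mul_of_nonneg_left hb (mul_nonneg hB0 hXθ)
        have h9 : |E X| ≤ |N X - c * X ^ (5 / 6 : ℝ)| + |N X - c * X ^ (5 / 6 : ℝ) - E X| := by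
          have h10 : E X = (N X - c * X ^ (5 / 6 : ℝ)) - (N X - c * X ^ (5 / 6 : ℝ) - E X) := by
            ring
          calc |E X| = |(N X - c * X ^ (5 / 6 : ℝ)) - (N X - c * X ^ (5 / 6 : ℝ) - E X)| := by
                rw [← h10]
            _ ≤ _ := abs_sub _ _
        have h10 : 2 * (|A| * X ^ θ) ≤ B * X ^ θ := by
          have h11 : 2 * |A| ≤ B := by
            rw [hB]
            have := abs_nonneg c'
            linarith
          calc 2 * (|A| * X ^ θ) = 2 * |A| * X ^ θ := by ring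
            _ ≤ B * X ^ θ := mul_le_mul_of_nonneg_right h11 hXθ
        linarith
  refine ⟨B, fun X hX => ?_⟩
  obtain ⟨k, hk⟩ := pow_unbounded_of_one_lt X (one_lt_two (α := ℝ))
  exact main k X (by linarith) hk

end Pool.Agent.Work.MP_f2148a_nt.BM
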