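import Pool.Agent.Work.MP_f2148a_nt.BM.MinU

/-!
# BM/SumM: all pairs and minimal pairs
-/

set_option autoImplicit false

namespace Pool.Agent.Work.MP_f2148a_nt.BM

private theorem sm_one {σ : ℝ} (hσ : σ = 1 ∨ σ = -1) (x y : ℤ)
    (h : 0 < σ * ((y : ℝ) ^ 2 - (x : ℝ) ^ 3)) : 1 ≤ σ * ((y : ℝ) ^ 2 - (x : ℝ) ^ 3) := by
  rcases hσ with rfl | rfl
  · have h1 : (0 : ℝ) < ((y ^ 2 - x ^ 3 : ℤ) : ℝ) := by
      push_cast
      linarith
    have h2 : (0 : ℤ) < y ^ 2 - x ^ 3 := by exact_mod_cast h1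
    have h3 : (1 : ℤ) ≤ y ^ 2 - x ^ 3 := h2
    have h4 : (1 : ℝ) ≤ ((y ^ 2 - x ^ 3 : ℤ) : ℝ) := by exact_mod_cast h3
    push_cast at h4
    linarith
  · have h1 : (0 : ℝ) < ((x ^ 3 - y ^ 2 : ℤ) : ℝ) := by
      push_cast
      linarith
    have h2 : (0 : ℤ) < x ^ 3 - y ^ 2 := by exact_mod_cast h1
    have h3 : (1 : ℤ) ≤ x ^ 3 - y ^ 2 := h2
    have h4 : (1 : ℝ) ≤ ((x ^ 3 - y ^ 2 : ℤ) : ℝ) := by exact_mod_cast h3
    push_cast at h4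
    linarith

theorem mn_zero {σ K : ℝ} (hσ : σ = 1 ∨ σ = -1) (hK : K < 1) : Mn ∩ rg σ K = ∅ := by
  ext t
  simp only [Set.mem_inter_iff, Set.mem_empty_iff_false, iff_false, not_and]
  rintro - ⟨h1, h2⟩
  have := sm_one hσ t.1 t.2 h1
  linarith

/-- the scaled pair -/
private def sm_f (u : ℕ) (s : ℤ × ℤ) : ℤ × ℤ := ((u : ℤ) ^ 4 * s.1, (u : ℤ) ^ 6 * s.2)

private theorem sm_val (σ : ℝ) (u : ℕ) (s : ℤ × ℤ) :
    σ * (((sm_f u s).2 : ℝ) ^ 2 - ((sm_f u s).1 : ℝ) ^ 3) =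
      (u : ℝ) ^ 12 * (σ * ((s.2 : ℝ) ^ 2 - (s.1 : ℝ) ^ 3)) := by
  simp only [sm_f]
  push_cast
  ring

private theorem sm_inj (u : ℕ) (hu : 1 ≤ u) : Function.Injective (sm_f u) := by
  intro s s' h
  have hu' : (u : ℤ) ≠ 0 := by exact_mod_cast (by omega : u ≠ 0)
  simp only [sm_f, Prod.mk.injEq] at h
  exact Prod.ext (mul_left_cancel₀ (pow_ne_zero 4 hu') h.1) (mul_left_cancel₀ (pow_ne_zero 6 hu') h.2)

private theorem sm_rg {σ K : ℝ} (u : ℕ) (hu : 1 ≤ u) (s : ℤ × ℤ) :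
    sm_f u s ∈ rg σ K ↔ s ∈ rg σ (K / (u : ℝ) ^ 12) := by
  have hu' : (0 : ℝ) < (u : ℝ) ^ 12 := by
    have : (0 : ℝ) < u := by exact_mod_cast hu
    positivity
  simp only [rg, Set.mem_ofPred_eq]
  rw [sm_val, le_div_iff₀ hu', mul_comm (σ * _) _]
  constructor
  · rintro ⟨h1, h2⟩
    exact ⟨pos_of_mul_pos_right h1 hu'.le, h2⟩
  · rintro ⟨h1, h2⟩
    exact ⟨mul_pos hu' h1, h2⟩

private theorem sm_mem {σ K : ℝ} (u : ℕ) (hu : 1 ≤ u) {s : ℤ × ℤ}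
    (hs : s ∈ Mn ∩ rg σ (K / (u : ℝ) ^ 12)) : sm_f u s ∈ Pm ∩ rg σ K :=
  ⟨Pm_scale (u : ℤ) hs.1.1, (sm_rg u hu s).2 hs.2⟩

theorem sum_min {σ K : ℝ} (hσ : σ = 1 ∨ σ = -1) (hf : (Pm ∩ rg σ K).Finite) (U : ℕ)
    (hU : K < ((U : ℝ) + 1) ^ 12) :
    (Mn ∩ rg σ K).Finite ∧
    (Pm ∩ rg σ K).ncard = ∑ u ∈ Finset.Icc 1 U, (Mn ∩ rg σ (K / (u : ℝ) ^ 12)).ncard := by
  classical
  have hfin : ∀ u : ℕ, 1 ≤ u → (Mn ∩ rg σ (K / (u : ℝ) ^ 12)).Finite := by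
    intro u hu
    refine Set.Finite.of_finite_image (f := sm_f u) (hf.subset ?_) (sm_inj u hu).injOn
    rintro _ ⟨s, hs, rfl⟩
    exact sm_mem u hu hs
  refine ⟨hf.subset fun t ht => ⟨ht.1.1, ht.2⟩, ?_⟩
  set F : ℕ → Finset (ℤ × ℤ) := fun u =>
    if h : 1 ≤ u then (hfin u h).toFinset.image (sm_f u) else ∅ with hF
  have hFm : ∀ u, 1 ≤ u → ∀ t, t ∈ F u ↔ ∃ s ∈ Mn ∩ rg σ (K / (u : ℝ) ^ 12), sm_f u s = t := by
    intro u hu t
    simp only [hF, dif_pos hu, Finset.mem_image, Set.Finite.mem_toFinset]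
  have hP : hf.toFinset = (Finset.Icc 1 U).biUnion F := by
    ext t
    rw [Set.Finite.mem_toFinset, Finset.mem_biUnion]
    constructor
    · rintro ⟨h1, h2⟩
      have hne : t.2 ^ 2 ≠ t.1 ^ 3 := by
        intro h
        have h3 : ((t.2 : ℝ)) ^ 2 = (t.1 : ℝ) ^ 3 := by exact_mod_cast h
        have h4 := h2.1
        rw [h3, sub_self, mul_zero] at h4
        exact lt_irrefl _ h4
      obtain ⟨u, hu, s, hs, hts⟩ := exists_min t h1 hne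
      have hts' : sm_f u s = t := hts.symm
      have h3 : s ∈ rg σ (K / (u : ℝ) ^ 12) := by
        rw [← sm_rg u hu, hts']
        exact h2
      refine ⟨u, Finset.mem_Icc.2 ⟨hu, ?_⟩, (hFm u hu t).2 ⟨s, ⟨hs, h3⟩, hts'⟩⟩
      have h4 := sm_one hσ s.1 s.2 h3.1
      have h5 : (0 : ℝ) < (u : ℝ) ^ 12 := by
        have : (0 : ℝ) < u := by exact_mod_cast hu
        positivity
      have h6 : (u : ℝ) ^ 12 ≤ K := by
        have h7 := h3.2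
        have h8 : 1 ≤ K / (u : ℝ) ^ 12 := h4.trans h7
        rwa [le_div_iff₀ h5, one_mul] at h8
      have h7 : (u : ℝ) < (U : ℝ) + 1 :=
        lt_of_pow_lt_pow_left₀ 12 (by positivity) (h6.trans_lt hU)
      have h8 : u < U + 1 := by exact_mod_cast h7
      omega
    · rintro ⟨u, hu, h⟩
      have hu1 := (Finset.mem_Icc.1 hu).1
      obtain ⟨s, hs, rfl⟩ := (hFm u hu1 t).1 h
      exact sm_mem u hu1 hs
  rw [Set.ncard_eq_toFinset_card _ hf, hP, Finset.card_biUnion]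
  · refine Finset.sum_congr rfl fun u hu => ?_
    have hu1 := (Finset.mem_Icc.1 hu).1
    simp only [hF, dif_pos hu1]
    rw [Finset.card_image_of_injective _ (sm_inj u hu1), Set.ncard_eq_toFinset_card _ (hfin u hu1)]
  · intro u hu v hv huv
    change Disjoint (F u) (F v)
    rw [Finset.disjoint_left]
    intro t h1 h2
    have hu1 := (Finset.mem_Icc.1 (Finset.mem_coe.1 hu)).1
    have hv1 := (Finset.mem_Icc.1 (Finset.mem_coe.1 hv)).1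
    obtain ⟨s, hs, hst⟩ := (hFm u hu1 t).1 h1
    obtain ⟨s', hs', hst'⟩ := (hFm v hv1 t).1 h2
    exact huv (scale_unique hs.1 hs'.1 hu1 hv1 (hst.trans hst'.symm)).1

end Pool.Agent.Work.MP_f2148a_nt.BM
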