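import Pool.Agent.Work.MP_f2148a_nt.BM.Cla
import Pool.Agent.Work.MP_f2148a_nt.BM.Inv12
import Pool.Agent.Work.MP_f2148a_nt.BM.SumM
import Pool.Agent.Work.MP_f2148a_nt.BM.CntP

/-!
# BM/CntE (size S-M): the number of elliptic curves by minimal discriminant

`inv12` for `N K = # (Pm ∩ rg (-σ) K)`, `M K = # (Mn ∩ rg (-σ) K)` (`cntP`, `sum_min`, `mn_zero`), then `ecl_card` with
`K = 1728 X` and `1728 ^ (5 / 6) / 3456 = √3 / 12` (`1728 = 12 ^ 3`, `12 ^ (5 / 2) = 144 √12 = 288 √3`).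
-/

set_option autoImplicit false

namespace Pool.Agent.Work.MP_f2148a_nt.BM

private lemma cntE_pow : (1728 : ℝ) ^ (5 / 6 : ℝ) = 288 * √3 := by
  have h1 : (1728 : ℝ) = (12 : ℝ) ^ (3 : ℝ) := by norm_num
  have h2 : (1728 : ℝ) ^ (5 / 6 : ℝ) = (12 : ℝ) ^ (5 / 2 : ℝ) := by
    rw [h1, ← Real.rpow_mul (by norm_num : (0 : ℝ) ≤ 12)]
    norm_num
  have h3 : (12 : ℝ) ^ (5 / 2 : ℝ) = (12 : ℝ) ^ (2 : ℝ) * (12 : ℝ) ^ (1 / 2 : ℝ) := by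
    rw [← Real.rpow_add (by norm_num : (0 : ℝ) < 12)]
    norm_num
  have h4 : √(12 : ℝ) = 2 * √3 := by
    rw [show (12 : ℝ) = 2 ^ 2 * 3 by norm_num, Real.sqrt_mul (by norm_num : (0 : ℝ) ≤ 2 ^ 2),
      Real.sqrt_sq (by norm_num : (0 : ℝ) ≤ 2)]
  rw [h2, h3, ← Real.sqrt_eq_rpow, h4]
  norm_num
  ring

theorem cntE {θ : ℝ} (h1 : 4 / 5 < θ) (h2 : θ < 5 / 6) (h : AsyQ θ) {σ : ℝ}
    (hσ : σ = 1 ∨ σ = -1) : ∃ A : ℝ, ∀ X : ℝ, 1 ≤ X → (Ecl σ X).Finite ∧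
    |((Ecl σ X).ncard : ℝ) - √3 / 12 * ar (-σ) / z10 * X ^ (5 / 6 : ℝ)| ≤ A * X ^ θ := by
  have hτ : -σ = 1 ∨ -σ = -1 := by
    rcases hσ with rfl | rfl
    · right; rfl
    · left; norm_num
  obtain ⟨A, hA⟩ := cntP h hτ
  obtain ⟨B, hB⟩ := inv12 (N := fun K => ((Pm ∩ rg (-σ) K).ncard : ℝ))
    (M := fun K => ((Mn ∩ rg (-σ) K).ncard : ℝ)) (c := ar (-σ) / 3456) (A := A) h1 h2
    (fun X hX => by
      show ((Mn ∩ rg (-σ) X).ncard : ℝ) = 0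
      rw [mn_zero hτ hX, Set.ncard_empty, Nat.cast_zero])
    (fun X hX => (hA X hX).2)
    (fun X hX U hU => by
      show ((Pm ∩ rg (-σ) X).ncard : ℝ) = ∑ u ∈ Finset.Icc 1 U,
        ((Mn ∩ rg (-σ) (X / (u : ℝ) ^ 12)).ncard : ℝ)
      rw [(sum_min hτ (hA X hX).1 U hU).2, Nat.cast_sum])
  refine ⟨B * (1728 : ℝ) ^ θ, fun X hX => ?_⟩
  have hK : (1 : ℝ) ≤ 1728 * X := by linarith
  have hU : 1728 * X < (((⌈1728 * X⌉₊ : ℕ) : ℝ) + 1) ^ 12 := by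
    have a1 : 1728 * X ≤ ((⌈1728 * X⌉₊ : ℕ) : ℝ) := Nat.le_ceil _
    have a2 : (1 : ℝ) ≤ ((⌈1728 * X⌉₊ : ℕ) : ℝ) + 1 := by linarith
    calc 1728 * X < ((⌈1728 * X⌉₊ : ℕ) : ℝ) + 1 := by linarith
      _ ≤ (((⌈1728 * X⌉₊ : ℕ) : ℝ) + 1) ^ 12 := le_self_pow₀ a2 (by norm_num)
  have hfin := (sum_min hτ (hA _ hK).1 _ hU).1
  obtain ⟨f1, f2⟩ := ecl_card hσ hfin
  refine ⟨f1, ?_⟩
  have h3 := hB _ hK
  have h4 : ar (-σ) / 3456 / z10 * (1728 * X) ^ (5 / 6 : ℝ) =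
      √3 / 12 * ar (-σ) / z10 * X ^ (5 / 6 : ℝ) := by
    rw [Real.mul_rpow (by norm_num : (0 : ℝ) ≤ 1728) (by linarith : (0 : ℝ) ≤ X), cntE_pow]
    ring
  have h5 : B * (1728 * X) ^ θ = B * (1728 : ℝ) ^ θ * X ^ θ := by
    rw [Real.mul_rpow (by norm_num : (0 : ℝ) ≤ 1728) (by linarith : (0 : ℝ) ≤ X)]
    ring
  rw [f2]
  rw [h4, h5] at h3
  exact h3

end Pool.Agent.Work.MP_f2148a_nt.BM
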