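import Pool.Agent.Work.MP_f2148a_nt.BM.Asyq
import Pool.Agent.Work.MP_f2148a_nt.BM.CntE
import Pool.Agent.Work.MP_f2148a_nt.BM.BigE

/-!
# BM/HallE: Hall's inequality for almost all elliptic curves (helper13)
-/

set_option autoImplicit false

namespace Pool.Agent.Work.MP_f2148a_nt.BM

/-- the classes with an equation with `|Δ| ≤ X` whose invariants violate Hall's inequality -/
def Ehall (C X : ℝ) : Set EC := {e | ∃ W : WeierstrassCurve ℤ, W.Δ ≠ 0 ∧ |(W.Δ : ℝ)| ≤ X ∧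
  C * |1728 * (W.Δ : ℝ)| ^ 3 < max |(W.c₄ : ℝ)| |(W.c₆ : ℝ)| ∧ e = iso W}

theorem hall_alg {C X d u v D : ℝ} (hC : 0 < C) (hX : 1 ≤ X) (hd : 1 ≤ d) (hdD : |D| = d)
    (hCd : 1 ≤ C * d) (hXd : X ^ 2 ≤ d ^ 3) (hrel : 1728 * D = u ^ 3 - v ^ 2)
    (h : C * |1728 * D| ^ 3 < max |u| |v|) : X * d ^ (1 / 2 : ℝ) < |v| := by
  have hd0 : 0 < d := by linarith
  have h1 : C * |1728 * D| ^ 3 = 1728 ^ 3 * (C * d) * d ^ 2 := by
    rw [abs_mul, hdD, abs_of_pos (by norm_num : (0 : ℝ) < 1728)]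
    ring
  have h2 : 1728 ^ 3 * d ^ 2 ≤ C * |1728 * D| ^ 3 := by
    rw [h1]
    nlinarith [sq_nonneg d, mul_nonneg (sub_nonneg.2 hCd) (sq_nonneg d)]
  have h3 : 1728 ^ 3 * d ^ 2 < max |u| |v| := h2.trans_lt h
  have hd4 : X ^ 2 * d ≤ d ^ 4 := by nlinarith
  have key : X ^ 2 * d < v ^ 2 := by
    refine hd4.trans_lt ?_
    rcases lt_max_iff.1 h3 with h4 | h4
    · have hDl : D ≤ d := by rw [← hdD]; exact le_abs_self D
      have hDg : -d ≤ D := by rw [← hdD]; exact neg_abs_le D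
      have hd2 : 1 ≤ d ^ 2 := by nlinarith
      have h5 : (1728 ^ 3 * d ^ 2) ^ 3 < |u| ^ 3 := by
        have : 0 ≤ 1728 ^ 3 * d ^ 2 := by positivity
        exact pow_lt_pow_left₀ h4 this (by norm_num)
      have hd6 : d ≤ d ^ 6 := by
        calc d = d ^ 1 := (pow_one d).symm
          _ ≤ d ^ 6 := pow_le_pow_right₀ hd (by norm_num)
      have hd46 : d ^ 4 ≤ d ^ 6 := pow_le_pow_right₀ hd (by norm_num)
      have h6 : (1728 ^ 3 * d ^ 2) ^ 3 = 1728 ^ 9 * d ^ 6 := by ring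
      rw [h6] at h5
      have hu : 0 < u := by
        by_contra hu
        have hu' : u ≤ 0 := not_lt.1 hu
        have h7 : |u| ^ 3 = -(u ^ 3) := by
          rw [abs_of_nonpos hu']
          ring
        rw [h7] at h5
        nlinarith [sq_nonneg v]
      rw [abs_of_pos hu] at h5
      nlinarith
    · have h5 : (1728 ^ 3 * d ^ 2) ^ 2 < |v| ^ 2 := by
        have : 0 ≤ 1728 ^ 3 * d ^ 2 := by positivity
        exact pow_lt_pow_left₀ h4 this (by norm_num)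
      rw [sq_abs] at h5
      have h6 : d ^ 4 ≤ (1728 ^ 3 * d ^ 2) ^ 2 := by
        have : (1728 ^ 3 * d ^ 2) ^ 2 = 1728 ^ 6 * d ^ 4 := by ring
        rw [this]
        have h7 : 0 ≤ d ^ 4 := by positivity
        nlinarith
      linarith
  have hs : (X * d ^ (1 / 2 : ℝ)) ^ 2 = X ^ 2 * d := by
    rw [mul_pow, ← Real.sqrt_eq_rpow, Real.sq_sqrt hd0.le]
  have h0 : 0 ≤ X * d ^ (1 / 2 : ℝ) := by positivity
  rw [← abs_of_nonneg h0]
  exact sq_lt_sq.1 (by rw [hs]; exact key)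

theorem ehall_sub {C X : ℝ} (hC : 0 < C) (hX : 1 ≤ X) :
    Ehall C X ⊆ (Ecl 1 (X ^ (2 / 3 : ℝ) + 1 / C) ∪ Ecl (-1) (X ^ (2 / 3 : ℝ) + 1 / C)) ∪
      Ebig X X := by
  rintro e ⟨W, h0, h1, h2, rfl⟩
  by_cases hd : |(W.Δ : ℝ)| ≤ X ^ (2 / 3 : ℝ) + 1 / C
  · left
    rcases lt_or_gt_of_ne h0 with h | h
    · right
      refine ⟨W, ?_, ?_, rfl⟩
      · have : (W.Δ : ℝ) < 0 := by exact_mod_cast h
        linarith
      · have : (W.Δ : ℝ) < 0 := by exact_mod_cast h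
        rw [abs_of_neg this] at hd
        linarith
    · left
      refine ⟨W, ?_, ?_, rfl⟩
      · have : 0 < (W.Δ : ℝ) := by exact_mod_cast h
        linarith
      · have : 0 < (W.Δ : ℝ) := by exact_mod_cast h
        rw [abs_of_pos this] at hd
        linarith
  · right
    have hd' := not_le.1 hd
    have hX0 : 0 < X := by linarith
    have hXp : 1 ≤ X ^ (2 / 3 : ℝ) := Real.one_le_rpow hX (by norm_num)
    have hC' : 0 < 1 / C := by positivity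
    have hd1 : 1 ≤ |(W.Δ : ℝ)| := by linarith
    refine ⟨W, h0, h1, ?_, rfl⟩
    refine hall_alg hC hX hd1 rfl ?_ ?_ ?_ h2
    · have h3 : 1 / C ≤ |(W.Δ : ℝ)| := by linarith
      rw [div_le_iff₀ hC] at h3
      linarith
    · have h3 : X ^ (2 / 3 : ℝ) ≤ |(W.Δ : ℝ)| := by linarith
      calc X ^ 2 = (X ^ (2 / 3 : ℝ)) ^ 3 := by
            rw [← Real.rpow_natCast (X ^ (2 / 3 : ℝ)) 3, ← Real.rpow_mul hX0.le]
            norm_num
        _ ≤ |(W.Δ : ℝ)| ^ 3 := by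
            have : 0 ≤ X ^ (2 / 3 : ℝ) := by positivity
            exact pow_le_pow_left₀ this h3 3
    · have := W.c_relation
      exact_mod_cast this

theorem hallE {θ : ℝ} (hA : As.Asy θ) (h1 : 4 / 5 < θ) (h2 : θ < 5 / 6) {C : ℝ} (hC : 0 < C) :
    ∃ A : ℝ, ∀ X : ℝ, 1 ≤ X → (Ehall C X).Finite ∧ ((Ehall C X).ncard : ℝ) ≤ A * X ^ θ := by
  have hQ : AsyQ θ := asyq hA h1
  obtain ⟨Ap, hAp⟩ := cntE h1 h2 hQ (σ := 1) (Or.inl rfl)
  obtain ⟨Am, hAm⟩ := cntE h1 h2 hQ (σ := -1) (Or.inr rfl)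
  obtain ⟨Ab, hAb0, hAb⟩ := bigE hA h1 h2
  set cp := √3 / 12 * ar (-1) / z10 with hcp
  set cm := √3 / 12 * ar (-(-1)) / z10 with hcm
  refine ⟨(|cp| + |Ap| + (|cm| + |Am|)) * (1 + 1 / C) + 2 * Ab, fun X hX => ?_⟩
  have hX0 : 0 < X := by linarith
  have hC' : 0 < 1 / C := by positivity
  set Y := X ^ (2 / 3 : ℝ) + 1 / C with hY
  have hXp : 1 ≤ X ^ (2 / 3 : ℝ) := Real.one_le_rpow hX (by norm_num)
  have hY1 : 1 ≤ Y := by linarith
  have hXθ1 : 1 ≤ X ^ θ := Real.one_le_rpow hX (by linarith)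
  have hXθ : X ^ (2 / 3 : ℝ) ≤ X ^ θ := Real.rpow_le_rpow_of_exponent_le hX (by linarith)
  have hX2 : X ^ (1 / 2 : ℝ) ≤ X ^ θ := Real.rpow_le_rpow_of_exponent_le hX (by linarith)
  have hYb : Y ≤ (1 + 1 / C) * X ^ θ := by
    nlinarith
  have hYθ : Y ^ θ ≤ Y := by
    calc Y ^ θ ≤ Y ^ (1 : ℝ) := Real.rpow_le_rpow_of_exponent_le hY1 (by linarith)
      _ = Y := Real.rpow_one Y
  have hY56 : Y ^ (5 / 6 : ℝ) ≤ Y := by
    calc Y ^ (5 / 6 : ℝ) ≤ Y ^ (1 : ℝ) := Real.rpow_le_rpow_of_exponent_le hY1 (by norm_num)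
      _ = Y := Real.rpow_one Y
  have hY0 : 0 ≤ Y := by linarith
  have hYθ0 : 0 ≤ Y ^ θ := by positivity
  have hY560 : 0 ≤ Y ^ (5 / 6 : ℝ) := by positivity
  obtain ⟨hf1, hb1⟩ := hAp Y hY1
  obtain ⟨hf2, hb2⟩ := hAm Y hY1
  obtain ⟨hf3, hb3⟩ := hAb X hX X hX
  have hsub := ehall_sub hC hX
  have hfin : ((Ecl 1 Y ∪ Ecl (-1) Y) ∪ Ebig X X).Finite := (hf1.union hf2).union hf3
  refine ⟨hfin.subset hsub, ?_⟩
  have e1 : ((Ecl 1 Y).ncard : ℝ) ≤ (|cp| + |Ap|) * Y := by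
    have := abs_le.1 hb1
    have h3 : cp * Y ^ (5 / 6 : ℝ) ≤ |cp| * Y := by
      calc cp * Y ^ (5 / 6 : ℝ) ≤ |cp| * Y ^ (5 / 6 : ℝ) :=
            mul_le_mul_of_nonneg_right (le_abs_self _) hY560
        _ ≤ |cp| * Y := mul_le_mul_of_nonneg_left hY56 (abs_nonneg _)
    have h4 : Ap * Y ^ θ ≤ |Ap| * Y := by
      calc Ap * Y ^ θ ≤ |Ap| * Y ^ θ := mul_le_mul_of_nonneg_right (le_abs_self _) hYθ0
        _ ≤ |Ap| * Y := mul_le_mul_of_nonneg_left hYθ (abs_nonneg _)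
    linarith [this.2]
  have e2 : ((Ecl (-1) Y).ncard : ℝ) ≤ (|cm| + |Am|) * Y := by
    have := abs_le.1 hb2
    have h3 : cm * Y ^ (5 / 6 : ℝ) ≤ |cm| * Y := by
      calc cm * Y ^ (5 / 6 : ℝ) ≤ |cm| * Y ^ (5 / 6 : ℝ) :=
            mul_le_mul_of_nonneg_right (le_abs_self _) hY560
        _ ≤ |cm| * Y := mul_le_mul_of_nonneg_left hY56 (abs_nonneg _)
    have h4 : Am * Y ^ θ ≤ |Am| * Y := by
      calc Am * Y ^ θ ≤ |Am| * Y ^ θ := mul_le_mul_of_nonneg_right (le_abs_self _) hYθ0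
        _ ≤ |Am| * Y := mul_le_mul_of_nonneg_left hYθ (abs_nonneg _)
    linarith [this.2]
  have e3 : ((Ebig X X).ncard : ℝ) ≤ 2 * Ab * X ^ θ := by
    refine hb3.trans ?_
    have h3 : X ^ (-(1 / 3) : ℝ) * X ^ (5 / 6 : ℝ) = X ^ (1 / 2 : ℝ) := by
      rw [← Real.rpow_add hX0]
      norm_num
    rw [h3]
    nlinarith
  have e4 : (Ehall C X).ncard ≤ (Ecl 1 Y).ncard + (Ecl (-1) Y).ncard + (Ebig X X).ncard := by
    calc (Ehall C X).ncard ≤ ((Ecl 1 Y ∪ Ecl (-1) Y) ∪ Ebig X X).ncard :=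
          Set.ncard_le_ncard hsub hfin
      _ ≤ (Ecl 1 Y ∪ Ecl (-1) Y).ncard + (Ebig X X).ncard := Set.ncard_union_le _ _
      _ ≤ _ := by
          have := Set.ncard_union_le (Ecl 1 Y) (Ecl (-1) Y)
          omega
  have e5 : ((Ehall C X).ncard : ℝ) ≤
      ((Ecl 1 Y).ncard : ℝ) + ((Ecl (-1) Y).ncard : ℝ) + ((Ebig X X).ncard : ℝ) := by
    exact_mod_cast e4
  have e6 : (|cp| + |Ap| + (|cm| + |Am|)) * Y ≤
      (|cp| + |Ap| + (|cm| + |Am|)) * ((1 + 1 / C) * X ^ θ) :=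
    mul_le_mul_of_nonneg_left hYb (by positivity)
  nlinarith

end Pool.Agent.Work.MP_f2148a_nt.BM
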