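import Pool.Agent.Work.MP_f2148a_nt.BM.Defs

/-!
# BM/MinD (size S-M): minimal discriminants

* `iso_disc`: `iso W = iso W'` gives `W'.map = C • W.map` or conversely (`Quotient.eq''`, `MulAction.orbitRel_apply`),
  `variableChange_Δ`, `map_Δ`.
* `ecl_min`: `⊇` is clear. `⊆`: for `W` with `0 < σ Δ ≤ X` choose `W₀` in the class of `W` with `|Δ|` minimal (the natural numbers
  `natAbs` of the discriminants; e.g. `Function.argmin` on the subtype or `Nat.find`); by `iso_disc` `Δ₀ = u ^ 12 Δ`, so `Δ₀` has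
  the sign of `Δ`, and `|Δ₀| ≤ |Δ| ≤ X`.
-/

set_option autoImplicit false

namespace Pool.Agent.Work.MP_f2148a_nt.BM

theorem iso_disc {W W' : WeierstrassCurve ℤ} (h : iso W = iso W') :
    ∃ u : ℚ, u ≠ 0 ∧ (W'.Δ : ℚ) = u ^ 12 * (W.Δ : ℚ) := by
  have h1 : (MulAction.orbitRel (WeierstrassCurve.VariableChange ℚ) (WeierstrassCurve ℚ))
      (W.map (Int.castRingHom ℚ)) (W'.map (Int.castRingHom ℚ)) := Quotient.eq''.mp h
  rw [MulAction.orbitRel_apply] at h1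
  obtain ⟨C, hC⟩ := h1
  have h2 : C • W'.map (Int.castRingHom ℚ) = W.map (Int.castRingHom ℚ) := hC
  have h3 := congrArg WeierstrassCurve.Δ h2
  rw [WeierstrassCurve.variableChange_Δ, WeierstrassCurve.map_Δ, WeierstrassCurve.map_Δ] at h3
  refine ⟨(C.u : ℚ), C.u.ne_zero, ?_⟩
  have h4 : ((C.u : ℚ)) ^ 12 * ((C.u⁻¹ : ℚˣ) : ℚ) ^ 12 = 1 := by
    rw [← mul_pow, Units.mul_inv, one_pow]
  have h5 : ((C.u⁻¹ : ℚˣ) : ℚ) ^ 12 * (W'.Δ : ℚ) = (W.Δ : ℚ) := h3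
  rw [← h5, ← mul_assoc, h4, one_mul]

theorem ecl_min {σ X : ℝ} (hσ : σ = 1 ∨ σ = -1) :
    Ecl σ X = {e : EC | ∃ W : WeierstrassCurve ℤ, iso W = e ∧
      (∀ W' : WeierstrassCurve ℤ, iso W' = e → |W.Δ| ≤ |W'.Δ|) ∧
      0 < σ * (W.Δ : ℝ) ∧ σ * (W.Δ : ℝ) ≤ X} := by
  classical
  have habs : ∀ z : ℝ, 0 < σ * z → σ * z = |z| := by
    intro z hz
    rcases hσ with rfl | rfl
    · rw [one_mul] at hz ⊢
      exact (abs_of_pos hz).symm
    · rw [abs_of_neg (by linarith)]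
      ring
  ext e
  constructor
  · rintro ⟨W, h1, h2, rfl⟩
    have hex : ∃ n : ℕ, ∃ W' : WeierstrassCurve ℤ, iso W' = iso W ∧ W'.Δ.natAbs = n :=
      ⟨_, W, rfl, rfl⟩
    obtain ⟨W0, h0, hn⟩ := Nat.find_spec hex
    have hmin : ∀ W' : WeierstrassCurve ℤ, iso W' = iso W → |W0.Δ| ≤ |W'.Δ| := by
      intro W' hW'
      have h3 : Nat.find hex ≤ W'.Δ.natAbs := Nat.find_min' hex ⟨W', hW', rfl⟩
      rw [← hn] at h3
      rw [Int.abs_eq_natAbs, Int.abs_eq_natAbs]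
      exact_mod_cast h3
    obtain ⟨u, hu, hu2⟩ := iso_disc h0.symm
    have h4 : (W0.Δ : ℝ) = (u : ℝ) ^ 12 * (W.Δ : ℝ) := by exact_mod_cast hu2
    have hu' : (0 : ℝ) < (u : ℝ) ^ 12 := by
      have : (u : ℝ) ≠ 0 := by exact_mod_cast hu
      positivity
    have h5 : 0 < σ * (W0.Δ : ℝ) := by
      rw [h4]
      have := mul_pos hu' h1
      linarith [this, mul_left_comm σ ((u : ℝ) ^ 12) (W.Δ : ℝ)]
    refine ⟨W0, h0, hmin, h5, ?_⟩
    rw [habs _ h5]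
    have h6 : |(W0.Δ : ℝ)| ≤ |(W.Δ : ℝ)| := by exact_mod_cast hmin W rfl
    rw [habs _ h1] at h2
    exact h6.trans h2
  · rintro ⟨W, rfl, -, h1, h2⟩
    exact ⟨W, h1, h2, rfl⟩

end Pool.Agent.Work.MP_f2148a_nt.BM
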