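import Pool.Agent.Work.MP_f2148a_nt.BM.Asyq
import Pool.Agent.Work.MP_f2148a_nt.BM.CntE
import Pool.Agent.Work.MP_f2148a_nt.BM.BigE
import Pool.Agent.Work.MP_f2148a_nt.BM.MinD
import Pool.Agent.Work.MP_f2148a_nt.BM.HallE

/-!
# BM/Final: assembly (helper13)
-/

set_option autoImplicit false

namespace Pool.Agent.Work.MP_f2148a_nt.BM

open MeasureTheory WeierstrassCurve

theorem ar_one : ar 1 =
    (volume {p : ℝ × ℝ | 0 ≤ p.2 ^ 2 - p.1 ^ 3 ∧ p.2 ^ 2 - p.1 ^ 3 ≤ 1}).toReal := by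
  simp only [ar, one_mul]

theorem ar_neg_one : ar (-1) =
    (volume {p : ℝ × ℝ | 0 ≤ p.1 ^ 3 - p.2 ^ 2 ∧ p.1 ^ 3 - p.2 ^ 2 ≤ 1}).toReal := by
  simp only [ar, neg_mul, one_mul, neg_sub]

theorem cl_one (K : ℝ) (m n : ℕ) (a : ℤ) (g : ℤ → ℤ) : cl 1 K m n a g =
    {t : ℤ × ℤ | 0 < (t.2 : ℝ) ^ 2 - (t.1 : ℝ) ^ 3 ∧ (t.2 : ℝ) ^ 2 - (t.1 : ℝ) ^ 3 ≤ K ∧
      (m : ℤ) ∣ t.1 - a ∧ (n : ℤ) ∣ t.2 - g t.1} := by
  ext t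
  simp only [cl, rg, Set.mem_setOf_eq, one_mul, and_assoc]

theorem cl_neg_one (K : ℝ) (m n : ℕ) (a : ℤ) (g : ℤ → ℤ) : cl (-1) K m n a g =
    {t : ℤ × ℤ | 0 < (t.1 : ℝ) ^ 3 - (t.2 : ℝ) ^ 2 ∧ (t.1 : ℝ) ^ 3 - (t.2 : ℝ) ^ 2 ≤ K ∧
      (m : ℤ) ∣ t.1 - a ∧ (n : ℤ) ∣ t.2 - g t.1} := by
  ext t
  simp only [cl, rg, Set.mem_setOf_eq, neg_mul, one_mul, neg_sub, and_assoc]

theorem ecl_one (X : ℝ) : Ecl 1 X =
    {e : MulAction.orbitRel.Quotient (VariableChange ℚ) (WeierstrassCurve ℚ) |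
      ∃ W : WeierstrassCurve ℤ, Quotient.mk'' (W.map (Int.castRingHom ℚ)) = e ∧
        (∀ W' : WeierstrassCurve ℤ, Quotient.mk'' (W'.map (Int.castRingHom ℚ)) = e →
          |W.Δ| ≤ |W'.Δ|) ∧ 0 < W.Δ ∧ (W.Δ : ℝ) ≤ X} := by
  rw [ecl_min (Or.inl rfl)]
  ext e
  simp only [Set.mem_setOf_eq, one_mul, Int.cast_pos]
  rfl

theorem ecl_neg_one (X : ℝ) : Ecl (-1) X =
    {e : MulAction.orbitRel.Quotient (VariableChange ℚ) (WeierstrassCurve ℚ) |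
      ∃ W : WeierstrassCurve ℤ, Quotient.mk'' (W.map (Int.castRingHom ℚ)) = e ∧
        (∀ W' : WeierstrassCurve ℤ, Quotient.mk'' (W'.map (Int.castRingHom ℚ)) = e →
          |W.Δ| ≤ |W'.Δ|) ∧ W.Δ < 0 ∧ -X ≤ (W.Δ : ℝ)} := by
  rw [ecl_min (Or.inr rfl)]
  ext e
  simp only [Set.mem_setOf_eq, neg_mul, one_mul, Left.neg_pos_iff, Int.cast_lt_zero, neg_le (b := X)]
  rfl

theorem final {θ : ℝ} (hA : As.Asy θ) (h1 : 4 / 5 < θ) (h2 : θ < 5 / 6) :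
    ∃ cp cm : ℝ, 0 < cp ∧ 0 < cm ∧
    cp = (volume {p : ℝ × ℝ | 0 ≤ p.2 ^ 2 - p.1 ^ 3 ∧ p.2 ^ 2 - p.1 ^ 3 ≤ 1}).toReal ∧
    cm = (volume {p : ℝ × ℝ | 0 ≤ p.1 ^ 3 - p.2 ^ 2 ∧ p.1 ^ 3 - p.2 ^ 2 ≤ 1}).toReal ∧
    ∃ δ : ℝ, 0 < δ ∧
    -- all integral points on all Mordell curves, in all classes
    (∃ A : ℝ, ∀ m n : ℕ, 0 < m → 0 < n → ∀ (a : ℤ) (g : ℤ → ℤ) (K : ℝ), 1 ≤ K →
      ({t : ℤ × ℤ | 0 < (t.2 : ℝ) ^ 2 - (t.1 : ℝ) ^ 3 ∧ (t.2 : ℝ) ^ 2 - (t.1 : ℝ) ^ 3 ≤ K ∧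
          (m : ℤ) ∣ t.1 - a ∧ (n : ℤ) ∣ t.2 - g t.1}.Finite ∧
        |({t : ℤ × ℤ | 0 < (t.2 : ℝ) ^ 2 - (t.1 : ℝ) ^ 3 ∧ (t.2 : ℝ) ^ 2 - (t.1 : ℝ) ^ 3 ≤ K ∧
          (m : ℤ) ∣ t.1 - a ∧ (n : ℤ) ∣ t.2 - g t.1}.ncard : ℝ) - cp / (m * n) * K ^ (5 / 6 : ℝ)|
          ≤ A * K ^ (5 / 6 - δ)) ∧
      ({t : ℤ × ℤ | 0 < (t.1 : ℝ) ^ 3 - (t.2 : ℝ) ^ 2 ∧ (t.1 : ℝ) ^ 3 - (t.2 : ℝ) ^ 2 ≤ K ∧
          (m : ℤ) ∣ t.1 - a ∧ (n : ℤ) ∣ t.2 - g t.1}.Finite ∧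
        |({t : ℤ × ℤ | 0 < (t.1 : ℝ) ^ 3 - (t.2 : ℝ) ^ 2 ∧ (t.1 : ℝ) ^ 3 - (t.2 : ℝ) ^ 2 ≤ K ∧
          (m : ℤ) ∣ t.1 - a ∧ (n : ℤ) ∣ t.2 - g t.1}.ncard : ℝ) - cm / (m * n) * K ^ (5 / 6 : ℝ)|
          ≤ A * K ^ (5 / 6 - δ))) ∧
    ∃ A : ℝ, ∀ X : ℝ, 1 ≤ X →
    -- the elliptic curves over `ℚ` with minimal discriminant in `(0, X]`
      ({e : MulAction.orbitRel.Quotient (VariableChange ℚ) (WeierstrassCurve ℚ) |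
          ∃ W : WeierstrassCurve ℤ, Quotient.mk'' (W.map (Int.castRingHom ℚ)) = e ∧
            (∀ W' : WeierstrassCurve ℤ, Quotient.mk'' (W'.map (Int.castRingHom ℚ)) = e →
              |W.Δ| ≤ |W'.Δ|) ∧ 0 < W.Δ ∧ (W.Δ : ℝ) ≤ X}.Finite ∧
        |({e : MulAction.orbitRel.Quotient (VariableChange ℚ) (WeierstrassCurve ℚ) |
          ∃ W : WeierstrassCurve ℤ, Quotient.mk'' (W.map (Int.castRingHom ℚ)) = e ∧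
            (∀ W' : WeierstrassCurve ℤ, Quotient.mk'' (W'.map (Int.castRingHom ℚ)) = e →
              |W.Δ| ≤ |W'.Δ|) ∧ 0 < W.Δ ∧ (W.Δ : ℝ) ≤ X}.ncard : ℝ) -
          √3 / 12 * cm / (∑' n : ℕ, 1 / ((n : ℝ) + 1) ^ 10) * X ^ (5 / 6 : ℝ)|
          ≤ A * X ^ (5 / 6 - δ)) ∧
    -- the elliptic curves over `ℚ` with minimal discriminant in `[-X, 0)`
      ({e : MulAction.orbitRel.Quotient (VariableChange ℚ) (WeierstrassCurve ℚ) |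
          ∃ W : WeierstrassCurve ℤ, Quotient.mk'' (W.map (Int.castRingHom ℚ)) = e ∧
            (∀ W' : WeierstrassCurve ℤ, Quotient.mk'' (W'.map (Int.castRingHom ℚ)) = e →
              |W.Δ| ≤ |W'.Δ|) ∧ W.Δ < 0 ∧ -X ≤ (W.Δ : ℝ)}.Finite ∧
        |({e : MulAction.orbitRel.Quotient (VariableChange ℚ) (WeierstrassCurve ℚ) |
          ∃ W : WeierstrassCurve ℤ, Quotient.mk'' (W.map (Int.castRingHom ℚ)) = e ∧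
            (∀ W' : WeierstrassCurve ℤ, Quotient.mk'' (W'.map (Int.castRingHom ℚ)) = e →
              |W.Δ| ≤ |W'.Δ|) ∧ W.Δ < 0 ∧ -X ≤ (W.Δ : ℝ)}.ncard : ℝ) -
          √3 / 12 * cp / (∑' n : ℕ, 1 / ((n : ℝ) + 1) ^ 10) * X ^ (5 / 6 : ℝ)|
          ≤ A * X ^ (5 / 6 - δ)) ∧
    -- few of them have an integral equation with large `c₆`
      ∀ T : ℝ, 1 ≤ T →
        {e : MulAction.orbitRel.Quotient (VariableChange ℚ) (WeierstrassCurve ℚ) |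
          ∃ W : WeierstrassCurve ℤ, W.Δ ≠ 0 ∧ |(W.Δ : ℝ)| ≤ X ∧
            T * |(W.Δ : ℝ)| ^ (1 / 2 : ℝ) < |(W.c₆ : ℝ)| ∧
            e = Quotient.mk'' (W.map (Int.castRingHom ℚ))}.Finite ∧
        ({e : MulAction.orbitRel.Quotient (VariableChange ℚ) (WeierstrassCurve ℚ) |
          ∃ W : WeierstrassCurve ℤ, W.Δ ≠ 0 ∧ |(W.Δ : ℝ)| ≤ X ∧
            T * |(W.Δ : ℝ)| ^ (1 / 2 : ℝ) < |(W.c₆ : ℝ)| ∧
            e = Quotient.mk'' (W.map (Int.castRingHom ℚ))}.ncard : ℝ) ≤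
          A * (T ^ (-(1 / 3) : ℝ) * X ^ (5 / 6 : ℝ) + X ^ (5 / 6 - δ)) := by
  have hQ : AsyQ θ := asyq hA h1
  obtain ⟨Ap, hAp⟩ := cntE h1 h2 hQ (σ := 1) (Or.inl rfl)
  obtain ⟨Am, hAm⟩ := cntE h1 h2 hQ (σ := -1) (Or.inr rfl)
  obtain ⟨Ab, hAb0, hAb⟩ := bigE hA h1 h2
  refine ⟨ar 1, ar (-1), ar_pos (Or.inl rfl), ar_pos (Or.inr rfl), ar_one, ar_neg_one,
    5 / 6 - θ, by linarith, ?_, ?_⟩
  · obtain ⟨B1, hB1⟩ := hQ 1 (Or.inl rfl)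
    obtain ⟨B2, hB2⟩ := hQ (-1) (Or.inr rfl)
    refine ⟨max B1 B2, fun m n hm hn a g K hK => ⟨?_, ?_⟩⟩
    · obtain ⟨hf, hb⟩ := hB1 m n hm hn a g K hK
      rw [cl_one] at hf hb
      refine ⟨hf, hb.trans ?_⟩
      rw [sub_sub_cancel]
      have : 0 ≤ K ^ θ := by positivity
      exact mul_le_mul_of_nonneg_right (le_max_left _ _) this
    · obtain ⟨hf, hb⟩ := hB2 m n hm hn a g K hK
      rw [cl_neg_one] at hf hb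
      refine ⟨hf, hb.trans ?_⟩
      rw [sub_sub_cancel]
      have : 0 ≤ K ^ θ := by positivity
      exact mul_le_mul_of_nonneg_right (le_max_right _ _) this
  · refine ⟨max (max Ap Am) Ab, fun X hX => ?_⟩
    have hXθ : 0 ≤ X ^ θ := by positivity
    rw [sub_sub_cancel]
    refine ⟨?_, ?_, ?_⟩
    · obtain ⟨hf, hb⟩ := hAp X hX
      rw [ecl_one] at hf hb
      exact ⟨hf, hb.trans (mul_le_mul_of_nonneg_right ((le_max_left _ _).trans (le_max_left _ _)) hXθ)⟩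
    · obtain ⟨hf, hb⟩ := hAm X hX
      rw [ecl_neg_one, neg_neg] at hb
      rw [ecl_neg_one] at hf
      exact ⟨hf, hb.trans (mul_le_mul_of_nonneg_right ((le_max_right _ _).trans (le_max_left _ _)) hXθ)⟩
    · intro T hT
      obtain ⟨hf, hb⟩ := hAb X hX T hT
      refine ⟨hf, hb.trans (mul_le_mul_of_nonneg_right (le_max_right _ _) ?_)⟩
      positivity

theorem finalB {θ : ℝ} (hA : As.Asy θ) (h1 : 4 / 5 < θ) (h2 : θ < 5 / 6) :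
    ∃ δ : ℝ, 0 < δ ∧
    -- Hall's inequality for all but few elliptic curves
    (∀ C : ℝ, 0 < C → ∃ A : ℝ, ∀ X : ℝ, 1 ≤ X →
      {e : MulAction.orbitRel.Quotient (VariableChange ℚ) (WeierstrassCurve ℚ) |
        ∃ W : WeierstrassCurve ℤ, W.Δ ≠ 0 ∧ |(W.Δ : ℝ)| ≤ X ∧
          C * |1728 * (W.Δ : ℝ)| ^ 3 < max |(W.c₄ : ℝ)| |(W.c₆ : ℝ)| ∧
          e = Quotient.mk'' (W.map (Int.castRingHom ℚ))}.Finite ∧
      ({e : MulAction.orbitRel.Quotient (VariableChange ℚ) (WeierstrassCurve ℚ) |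
        ∃ W : WeierstrassCurve ℤ, W.Δ ≠ 0 ∧ |(W.Δ : ℝ)| ≤ X ∧
          C * |1728 * (W.Δ : ℝ)| ^ 3 < max |(W.c₄ : ℝ)| |(W.c₆ : ℝ)| ∧
          e = Quotient.mk'' (W.map (Int.castRingHom ℚ))}.ncard : ℝ) ≤ A * X ^ (5 / 6 - δ)) ∧
    ∃ cp cm : ℝ, 0 < cp ∧ 0 < cm ∧
    cp = (volume {p : ℝ × ℝ | 0 ≤ p.2 ^ 2 - p.1 ^ 3 ∧ p.2 ^ 2 - p.1 ^ 3 ≤ 1}).toReal ∧
    cm = (volume {p : ℝ × ℝ | 0 ≤ p.1 ^ 3 - p.2 ^ 2 ∧ p.1 ^ 3 - p.2 ^ 2 ≤ 1}).toReal ∧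
    ∃ A : ℝ, ∀ X : ℝ, 1 ≤ X →
    -- the invariant `c₆` of the equations with `|Δ| ≤ X`
      (∀ T : ℝ, 1 ≤ T →
        {e : MulAction.orbitRel.Quotient (VariableChange ℚ) (WeierstrassCurve ℚ) |
          ∃ W : WeierstrassCurve ℤ, W.Δ ≠ 0 ∧ |(W.Δ : ℝ)| ≤ X ∧
            T * |(W.Δ : ℝ)| ^ (1 / 2 : ℝ) < |(W.c₆ : ℝ)| ∧
            e = Quotient.mk'' (W.map (Int.castRingHom ℚ))}.Finite ∧
        ({e : MulAction.orbitRel.Quotient (VariableChange ℚ) (WeierstrassCurve ℚ) |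
          ∃ W : WeierstrassCurve ℤ, W.Δ ≠ 0 ∧ |(W.Δ : ℝ)| ≤ X ∧
            T * |(W.Δ : ℝ)| ^ (1 / 2 : ℝ) < |(W.c₆ : ℝ)| ∧
            e = Quotient.mk'' (W.map (Int.castRingHom ℚ))}.ncard : ℝ) ≤
          A * (T ^ (-(1 / 3) : ℝ) * X ^ (5 / 6 : ℝ) + X ^ (5 / 6 - δ))) ∧
    -- the elliptic curves over `ℚ` with minimal discriminant in `(0, X]`
      ({e : MulAction.orbitRel.Quotient (VariableChange ℚ) (WeierstrassCurve ℚ) |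
          ∃ W : WeierstrassCurve ℤ, Quotient.mk'' (W.map (Int.castRingHom ℚ)) = e ∧
            (∀ W' : WeierstrassCurve ℤ, Quotient.mk'' (W'.map (Int.castRingHom ℚ)) = e →
              |W.Δ| ≤ |W'.Δ|) ∧ 0 < W.Δ ∧ (W.Δ : ℝ) ≤ X}.Finite ∧
        |({e : MulAction.orbitRel.Quotient (VariableChange ℚ) (WeierstrassCurve ℚ) |
          ∃ W : WeierstrassCurve ℤ, Quotient.mk'' (W.map (Int.castRingHom ℚ)) = e ∧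
            (∀ W' : WeierstrassCurve ℤ, Quotient.mk'' (W'.map (Int.castRingHom ℚ)) = e →
              |W.Δ| ≤ |W'.Δ|) ∧ 0 < W.Δ ∧ (W.Δ : ℝ) ≤ X}.ncard : ℝ) -
          √3 / 12 * cm / (∑' n : ℕ, 1 / ((n : ℝ) + 1) ^ 10) * X ^ (5 / 6 : ℝ)|
          ≤ A * X ^ (5 / 6 - δ)) ∧
    -- the elliptic curves over `ℚ` with minimal discriminant in `[-X, 0)`
      {e : MulAction.orbitRel.Quotient (VariableChange ℚ) (WeierstrassCurve ℚ) |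
          ∃ W : WeierstrassCurve ℤ, Quotient.mk'' (W.map (Int.castRingHom ℚ)) = e ∧
            (∀ W' : WeierstrassCurve ℤ, Quotient.mk'' (W'.map (Int.castRingHom ℚ)) = e →
              |W.Δ| ≤ |W'.Δ|) ∧ W.Δ < 0 ∧ -X ≤ (W.Δ : ℝ)}.Finite ∧
        |({e : MulAction.orbitRel.Quotient (VariableChange ℚ) (WeierstrassCurve ℚ) |
          ∃ W : WeierstrassCurve ℤ, Quotient.mk'' (W.map (Int.castRingHom ℚ)) = e ∧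
            (∀ W' : WeierstrassCurve ℤ, Quotient.mk'' (W'.map (Int.castRingHom ℚ)) = e →
              |W.Δ| ≤ |W'.Δ|) ∧ W.Δ < 0 ∧ -X ≤ (W.Δ : ℝ)}.ncard : ℝ) -
          √3 / 12 * cp / (∑' n : ℕ, 1 / ((n : ℝ) + 1) ^ 10) * X ^ (5 / 6 : ℝ)|
          ≤ A * X ^ (5 / 6 - δ) := by
  have hQ : AsyQ θ := asyq hA h1
  obtain ⟨Ap, hAp⟩ := cntE h1 h2 hQ (σ := 1) (Or.inl rfl)
  obtain ⟨Am, hAm⟩ := cntE h1 h2 hQ (σ := -1) (Or.inr rfl)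
  obtain ⟨Ab, hAb0, hAb⟩ := bigE hA h1 h2
  refine ⟨5 / 6 - θ, by linarith, ?_, ar 1, ar (-1), ar_pos (Or.inl rfl), ar_pos (Or.inr rfl),
    ar_one, ar_neg_one, ?_⟩
  · intro C hC
    obtain ⟨A, hAC⟩ := hallE hA h1 h2 hC
    refine ⟨A, fun X hX => ?_⟩
    rw [sub_sub_cancel]
    exact hAC X hX
  · refine ⟨max (max Ap Am) Ab, fun X hX => ?_⟩
    have hXθ : 0 ≤ X ^ θ := by positivity
    rw [sub_sub_cancel]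
    refine ⟨?_, ?_, ?_⟩
    · intro T hT
      obtain ⟨hf, hb⟩ := hAb X hX T hT
      refine ⟨hf, hb.trans (mul_le_mul_of_nonneg_right (le_max_right _ _) ?_)⟩
      positivity
    · obtain ⟨hf, hb⟩ := hAp X hX
      rw [ecl_one] at hf hb
      exact ⟨hf, hb.trans (mul_le_mul_of_nonneg_right ((le_max_left _ _).trans (le_max_left _ _)) hXθ)⟩
    · obtain ⟨hf, hb⟩ := hAm X hX
      rw [ecl_neg_one, neg_neg] at hb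
      rw [ecl_neg_one] at hf
      exact ⟨hf, hb.trans (mul_le_mul_of_nonneg_right ((le_max_right _ _).trans (le_max_left _ _)) hXθ)⟩

end Pool.Agent.Work.MP_f2148a_nt.BM
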