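import Pool.Agent.Work.MP_f2148a_nt.BM.Defs
import Pool.Agent.Work.MP_f2148a_nt.As.AsyM

/-!
# BM/TailP (size S-M): the pairs with `x > T0 ^ 2`

`X = T0 K ^ 2` (a natural number): `T0_bd`: `K ^ (1 / 3) ≤ T0 ≤ 2 K ^ (1 / 3)`, so `K ≤ X ^ 3`, `X ≤ 4 K ^ (2 / 3) ≤ 4 K ^ θ`,
`√K ≤ K ^ θ`, `K X ^ (-1 / 2) = K / T0 ≤ K ^ (2 / 3) ≤ K ^ θ`. The set is the complement in `As.pr K` of the set of `As.small`: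
`# ≤ (c0 K ^ (5 / 6) + A K ^ θ) - (c0 K ^ (5 / 6) - (12 X + 6 √K + 8 K X ^ (-1 / 2)))`. See the private theorem `tailX` in
`As/HallT.lean` and the proof of `As.asy` in `As/AsyM.lean`.
`bds`: the elementary bounds, used again in `Asyq`.
-/

set_option autoImplicit false

namespace Pool.Agent.Work.MP_f2148a_nt.BM

theorem bds {θ : ℝ} (h1 : 4 / 5 < θ) {K : ℝ} (hK : 1 ≤ K) :
    K ≤ (((As.T0 K ^ 2 : ℕ)) : ℝ) ^ 3 ∧ (((As.T0 K ^ 2 : ℕ)) : ℝ) ≤ 4 * K ^ θ ∧ √K ≤ K ^ θ ∧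
      K * (((As.T0 K ^ 2 : ℕ)) : ℝ) ^ (-(1 / 2) : ℝ) ≤ K ^ θ := by
  have hK0 : 0 < K := by linarith
  obtain ⟨t1, t2⟩ := As.T0_bd hK
  have hT1 : (1 : ℝ) ≤ As.T0 K := le_trans (Real.one_le_rpow hK (by norm_num)) t1
  have hT0 : (0 : ℝ) < As.T0 K := by linarith
  have hr3 : (K ^ (1 / 3 : ℝ)) ^ 3 = K := by
    rw [← Real.rpow_natCast, ← Real.rpow_mul hK0.le]
    norm_num
  have hr2 : (K ^ (1 / 3 : ℝ)) ^ 2 = K ^ (2 / 3 : ℝ) := by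
    rw [← Real.rpow_natCast, ← Real.rpow_mul hK0.le]
    norm_num
  have hr0 : 0 ≤ K ^ (1 / 3 : ℝ) := Real.rpow_nonneg hK0.le _
  have hKT : K ≤ (As.T0 K : ℝ) ^ 3 := by
    calc K = (K ^ (1 / 3 : ℝ)) ^ 3 := hr3.symm
      _ ≤ (As.T0 K : ℝ) ^ 3 := pow_le_pow_left₀ hr0 t1 3
  have hX : K ≤ (((As.T0 K ^ 2 : ℕ)) : ℝ) ^ 3 := by
    push_cast
    refine le_trans hKT ?_
    rw [← pow_mul]
    exact pow_le_pow_right₀ hT1 (by norm_num)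
  have hKθ : K ^ (2 / 3 : ℝ) ≤ K ^ θ := Real.rpow_le_rpow_of_exponent_le hK (by linarith)
  have hX4 : (((As.T0 K ^ 2 : ℕ)) : ℝ) ≤ 4 * K ^ (2 / 3 : ℝ) := by
    push_cast
    rw [← hr2]
    nlinarith
  have hsq : √K ≤ K ^ (2 / 3 : ℝ) := by
    rw [Real.sqrt_eq_rpow]
    exact Real.rpow_le_rpow_of_exponent_le hK (by norm_num)
  have hXi : (((As.T0 K ^ 2 : ℕ)) : ℝ) ^ (-(1 / 2) : ℝ) = (As.T0 K : ℝ)⁻¹ := by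
    push_cast
    rw [← Real.rpow_natCast, ← Real.rpow_mul hT0.le]
    norm_num
    rw [Real.rpow_neg_one]
  have hKi : K * (((As.T0 K ^ 2 : ℕ)) : ℝ) ^ (-(1 / 2) : ℝ) ≤ K ^ (2 / 3 : ℝ) := by
    rw [hXi, ← hr2]
    have h5 : K * (As.T0 K : ℝ)⁻¹ ≤ (K ^ (1 / 3 : ℝ)) ^ 3 * (K ^ (1 / 3 : ℝ))⁻¹ := by
      rw [hr3]
      refine mul_le_mul_of_nonneg_left ?_ hK0.le
      exact inv_anti₀ (Real.rpow_pos_of_pos hK0 _) t1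
    refine le_trans h5 (le_of_eq ?_)
    have h6 : K ^ (1 / 3 : ℝ) ≠ 0 := (Real.rpow_pos_of_pos hK0 _).ne'
    field_simp
  exact ⟨hX, by linarith, by linarith, by linarith⟩

theorem tailP {θ : ℝ} (hA : As.Asy θ) (h1 : 4 / 5 < θ) : ∃ A : ℝ, ∀ K : ℝ, 1 ≤ K →
    {t : ℤ × ℤ | t ∈ As.pr K ∧ (((As.T0 K ^ 2 : ℕ)) : ℝ) < (t.1 : ℝ)}.Finite ∧
    ({t : ℤ × ℤ | t ∈ As.pr K ∧ (((As.T0 K ^ 2 : ℕ)) : ℝ) < (t.1 : ℝ)}.ncard : ℝ) ≤ A * K ^ θ := by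
  obtain ⟨A1, hA1⟩ := hA
  refine ⟨A1 + 62, fun K hK => ?_⟩
  have hK0 : 0 < K := lt_of_lt_of_le one_pos hK
  obtain ⟨k1, k2, k3, k4⟩ := bds h1 hK
  obtain ⟨hfP, hP⟩ := hA1 K hK
  obtain ⟨hfQ, hQ⟩ := As.small hK (As.T0 K ^ 2) k1
  have hfR : {t : ℤ × ℤ | t ∈ As.pr K ∧ (((As.T0 K ^ 2 : ℕ)) : ℝ) < (t.1 : ℝ)}.Finite :=
    hfP.subset fun t ht => ht.1
  refine ⟨hfR, ?_⟩
  have h2 : Disjoint {t : ℤ × ℤ | t ∈ As.pr K ∧ (((As.T0 K ^ 2 : ℕ)) : ℝ) < (t.1 : ℝ)}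
      {t : ℤ × ℤ | t ∈ As.pr K ∧ (t.1 : ℝ) ≤ (((As.T0 K ^ 2 : ℕ)) : ℝ)} := by
    rw [Set.disjoint_left]
    intro t ht hu
    exact absurd hu.2 (not_le.2 ht.2)
  have h3 : {t : ℤ × ℤ | t ∈ As.pr K ∧ (((As.T0 K ^ 2 : ℕ)) : ℝ) < (t.1 : ℝ)} ∪
      {t : ℤ × ℤ | t ∈ As.pr K ∧ (t.1 : ℝ) ≤ (((As.T0 K ^ 2 : ℕ)) : ℝ)} ⊆ As.pr K :=
    Set.union_subset (fun t ht => ht.1) fun t ht => ht.1
  have h4 := Set.ncard_le_ncard h3 hfP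
  rw [Set.ncard_union_eq h2 hfR hfQ] at h4
  have h5 : ({t : ℤ × ℤ | t ∈ As.pr K ∧ (((As.T0 K ^ 2 : ℕ)) : ℝ) < (t.1 : ℝ)}.ncard : ℝ) +
      ({t : ℤ × ℤ | t ∈ As.pr K ∧ (t.1 : ℝ) ≤ (((As.T0 K ^ 2 : ℕ)) : ℝ)}.ncard : ℝ) ≤
      ((As.pr K).ncard : ℝ) := by
    exact_mod_cast h4
  have h6 := (abs_le.1 hP).2
  have h7 := (abs_le.1 hQ).1
  have h8 : 8 * K * (((As.T0 K ^ 2 : ℕ)) : ℝ) ^ (-(1 / 2) : ℝ) =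
    8 * (K * (((As.T0 K ^ 2 : ℕ)) : ℝ) ^ (-(1 / 2) : ℝ)) := by ring
  rw [h8] at h7
  have h9 : (A1 + 62) * K ^ θ = A1 * K ^ θ + 62 * K ^ θ := by ring
  rw [h9]
  linarith

end Pool.Agent.Work.MP_f2148a_nt.BM
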