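import Pool.Agent.Work.MP_f2148a_nt.BM.Smallq
import Pool.Agent.Work.MP_f2148a_nt.BM.TailP

/-!
# BM/Asyq (size S-M): the asymptotic formula in all classes

`cl σ K m n a g` is the disjoint union of its part with `t.1 ≤ X = T0 K ^ 2` (`smallq`, `bds`: error `≤ 108 K ^ θ`) and its
part with `t.1 > X`, contained in the set of `tailP` (`rg σ K ⊆ As.pr K`).
-/

set_option autoImplicit false

namespace Pool.Agent.Work.MP_f2148a_nt.BM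

theorem rg_sub {σ K : ℝ} (hσ : σ = 1 ∨ σ = -1) : rg σ K ⊆ As.pr K := by
  rintro t ⟨h1, h2⟩
  have hne : (t.2 : ℝ) ^ 2 - (t.1 : ℝ) ^ 3 ≠ 0 := by
    intro h0
    rw [h0, mul_zero] at h1
    exact lt_irrefl _ h1
  refine ⟨?_, ?_⟩
  · intro h
    apply hne
    have h3 : (t.2 : ℝ) ^ 2 = (t.1 : ℝ) ^ 3 := by exact_mod_cast h
    rw [h3, sub_self]
  · have h3 : |(t.2 : ℝ) ^ 2 - (t.1 : ℝ) ^ 3| = σ * ((t.2 : ℝ) ^ 2 - (t.1 : ℝ) ^ 3) := by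
      rcases hσ with rfl | rfl
      · rw [one_mul] at h1 ⊢
        exact abs_of_pos h1
      · rw [neg_one_mul] at h1 ⊢
        exact abs_of_neg (by linarith)
    rw [h3]
    exact h2

theorem asyq {θ : ℝ} (hA : As.Asy θ) (h1 : 4 / 5 < θ) : AsyQ θ := by
  obtain ⟨A, hA'⟩ := tailP hA h1
  intro σ hσ
  refine ⟨108 + A, fun m n hm hn a g K hK => ?_⟩
  obtain ⟨b1, b2, b3, b4⟩ := bds h1 hK
  obtain ⟨fQ, hQ⟩ := smallq hσ hK (As.T0 K ^ 2) b1 m n hm hn a g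
  obtain ⟨fB, hB⟩ := hA' K hK
  have hsub : {t : ℤ × ℤ | t ∈ cl σ K m n a g ∧ (((As.T0 K ^ 2 : ℕ)) : ℝ) < (t.1 : ℝ)} ⊆
      {t : ℤ × ℤ | t ∈ As.pr K ∧ (((As.T0 K ^ 2 : ℕ)) : ℝ) < (t.1 : ℝ)} :=
    fun t ht => ⟨rg_sub hσ ht.1.1, ht.2⟩
  have fC : {t : ℤ × ℤ | t ∈ cl σ K m n a g ∧
      (((As.T0 K ^ 2 : ℕ)) : ℝ) < (t.1 : ℝ)}.Finite := fB.subset hsub
  have hC : ({t : ℤ × ℤ | t ∈ cl σ K m n a g ∧
      (((As.T0 K ^ 2 : ℕ)) : ℝ) < (t.1 : ℝ)}.ncard : ℝ) ≤ A * K ^ θ := by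
    refine le_trans ?_ hB
    exact_mod_cast Set.ncard_le_ncard hsub fB
  have hunion : cl σ K m n a g =
      {t : ℤ × ℤ | t ∈ cl σ K m n a g ∧ (t.1 : ℝ) ≤ ((As.T0 K ^ 2 : ℕ) : ℝ)} ∪
      {t : ℤ × ℤ | t ∈ cl σ K m n a g ∧ (((As.T0 K ^ 2 : ℕ)) : ℝ) < (t.1 : ℝ)} := by
    ext t
    simp only [Set.mem_union, Set.mem_ofPred_eq]
    constructor
    · intro h
      rcases le_or_gt (t.1 : ℝ) (((As.T0 K ^ 2 : ℕ)) : ℝ) with h9 | h9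
      · exact Or.inl ⟨h, h9⟩
      · exact Or.inr ⟨h, h9⟩
    · rintro (h | h)
      · exact h.1
      · exact h.1
  have hdisj : Disjoint {t : ℤ × ℤ | t ∈ cl σ K m n a g ∧ (t.1 : ℝ) ≤ ((As.T0 K ^ 2 : ℕ) : ℝ)}
      {t : ℤ × ℤ | t ∈ cl σ K m n a g ∧ (((As.T0 K ^ 2 : ℕ)) : ℝ) < (t.1 : ℝ)} := by
    rw [Set.disjoint_left]
    intro t h9 h10
    exact absurd h10.2 (not_lt.2 h9.2)
  have hcard : ((cl σ K m n a g).ncard : ℝ) =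
      ({t : ℤ × ℤ | t ∈ cl σ K m n a g ∧ (t.1 : ℝ) ≤ ((As.T0 K ^ 2 : ℕ) : ℝ)}.ncard : ℝ) +
      ({t : ℤ × ℤ | t ∈ cl σ K m n a g ∧
        (((As.T0 K ^ 2 : ℕ)) : ℝ) < (t.1 : ℝ)}.ncard : ℝ) := by
    have h12 := Set.ncard_union_eq hdisj fQ fC
    rw [← hunion] at h12
    exact_mod_cast h12
  refine ⟨?_, ?_⟩
  · rw [hunion]
    exact fQ.union fC
  · rw [hcard]
    have h13 : (0 : ℝ) ≤ ({t : ℤ × ℤ | t ∈ cl σ K m n a g ∧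
        (((As.T0 K ^ 2 : ℕ)) : ℝ) < (t.1 : ℝ)}.ncard : ℝ) := Nat.cast_nonneg _
    rw [abs_le] at hQ ⊢
    have h14 : 20 * (((As.T0 K ^ 2 : ℕ)) : ℝ) + 20 * √K +
        8 * K * (((As.T0 K ^ 2 : ℕ)) : ℝ) ^ (-(1 / 2) : ℝ) ≤ 108 * K ^ θ := by
      have h15 : 8 * K * (((As.T0 K ^ 2 : ℕ)) : ℝ) ^ (-(1 / 2) : ℝ) =
        8 * (K * (((As.T0 K ^ 2 : ℕ)) : ℝ) ^ (-(1 / 2) : ℝ)) := by ring
      rw [h15]
      linarith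
    have h16 : (108 + A) * K ^ θ = 108 * K ^ θ + A * K ^ θ := by ring
    rw [h16]
    constructor
    · linarith [hQ.1]
    · linarith [hQ.2]

end Pool.Agent.Work.MP_f2148a_nt.BM
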