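import Pool.Agent.Work.MP_f2148a_nt.BM.Defs

/-!
# BM/Iso (size M): isomorphism over `ℚ` in terms of `(c₄, c₆)`

`iso W = iso W'` iff `W'.map = C • W.map` for some `C` (`MulAction.orbitRel`, `Quotient.eq''`). From left to right:
`variableChange_c₄`, `variableChange_c₆`, `map_c₄`, `map_c₆`, `l = C.u⁻¹`. From right to left: over `ℚ` both curves are
equivalent to short forms `y² = x³ - (c₄ / 48) x - c₆ / 864` (`exists_variableChange_isShortNF`,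
`c₄_of_isShortNF`, `c₆_of_isShortNF`: `a₄ = -c₄ / 48`, `a₆ = -c₆ / 864`; `c₄`, `c₆` are multiplied by powers of `u⁻¹`, then
rescale by `⟨u, 0, 0, 0⟩`), so for `c₄' = l⁴ c₄`, `c₆' = l⁶ c₆` the change `⟨l⁻¹, 0, 0, 0⟩` maps one short form to the other.
(The hypothesis `W.Δ ≠ 0` may be superfluous.)
-/

set_option autoImplicit false

namespace Pool.Agent.Work.MP_f2148a_nt.BM

open WeierstrassCurve in
private theorem isoSF (W : WeierstrassCurve ℚ) :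
    ∃ C : VariableChange ℚ, C • W = ⟨0, 0, 0, -W.c₄ / 48, -W.c₆ / 864⟩ := by
  refine ⟨⟨1, -(W.a₂ + W.a₁ ^ 2 / 4) / 3, -W.a₁ / 2,
    -(W.a₃ + -(W.a₂ + W.a₁ ^ 2 / 4) / 3 * W.a₁) / 2⟩, ?_⟩
  rw [variableChange_def]
  ext
  · simp
    ring
  · simp
    ring
  · simp
    ring
  · simp [c₄, b₂, b₄]
    ring
  · simp [c₆, b₂, b₄, b₆]
    ring

open WeierstrassCurve in
private theorem isoRS (l c d : ℚ) (hl : l ≠ 0) :
    ∃ C : VariableChange ℚ, C • (⟨0, 0, 0, -c / 48, -d / 864⟩ : WeierstrassCurve ℚ) =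
      ⟨0, 0, 0, -(l ^ 4 * c) / 48, -(l ^ 6 * d) / 864⟩ := by
  refine ⟨⟨(Units.mk0 l hl)⁻¹, 0, 0, 0⟩, ?_⟩
  rw [variableChange_def]
  ext
  · simp
  · simp
  · simp
  · simp
    ring
  · simp
    ring

open WeierstrassCurve in
theorem iso_iff (W W' : WeierstrassCurve ℤ) (h : W.Δ ≠ 0) :
    iso W = iso W' ↔ ∃ l : ℚ, l ≠ 0 ∧ (W'.c₄ : ℚ) = l ^ 4 * (W.c₄ : ℚ) ∧
      (W'.c₆ : ℚ) = l ^ 6 * (W.c₆ : ℚ) := by
  have h4 : ∀ V : WeierstrassCurve ℤ, (V.map (Int.castRingHom ℚ)).c₄ = (V.c₄ : ℚ) := by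
    intro V; rw [map_c₄]; simp
  have h6 : ∀ V : WeierstrassCurve ℤ, (V.map (Int.castRingHom ℚ)).c₆ = (V.c₆ : ℚ) := by
    intro V; rw [map_c₆]; simp
  unfold iso
  rw [Quotient.eq'']
  change (MulAction.orbitRel (VariableChange ℚ) (WeierstrassCurve ℚ)).r _ _ ↔ _
  have hor : ∀ X Y : WeierstrassCurve ℚ,
      (MulAction.orbitRel (VariableChange ℚ) (WeierstrassCurve ℚ)).r X Y ↔
        ∃ C : VariableChange ℚ, C • Y = X := fun X Y => Iff.rfl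
  rw [hor]
  constructor
  · rintro ⟨C, hC⟩
    refine ⟨(C.u : ℚ), C.u.ne_zero, ?_, ?_⟩
    · have e : C • (W'.map (Int.castRingHom ℚ)) = W.map (Int.castRingHom ℚ) := hC
      have q := variableChange_c₄ (W'.map (Int.castRingHom ℚ)) C
      rw [e, h4, h4] at q
      rw [q]
      have hu : (C.u : ℚ) ≠ 0 := C.u.ne_zero
      rw [Units.val_inv_eq_inv_val]
      field_simp
    · have e : C • (W'.map (Int.castRingHom ℚ)) = W.map (Int.castRingHom ℚ) := hC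
      have q := variableChange_c₆ (W'.map (Int.castRingHom ℚ)) C
      rw [e, h6, h6] at q
      rw [q]
      have hu : (C.u : ℚ) ≠ 0 := C.u.ne_zero
      rw [Units.val_inv_eq_inv_val]
      field_simp
  · rintro ⟨l, hl, e4, e6⟩
    obtain ⟨C1, h1⟩ := isoSF (W.map (Int.castRingHom ℚ))
    obtain ⟨C2, h2⟩ := isoSF (W'.map (Int.castRingHom ℚ))
    rw [h4, h6] at h1 h2
    obtain ⟨C3, h3⟩ := isoRS l (W.c₄ : ℚ) (W.c₆ : ℚ) hl
    rw [← e4, ← e6, ← h1, ← h2] at h3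
    refine ⟨C1⁻¹ * C3⁻¹ * C2, ?_⟩
    rw [mul_smul, mul_smul, ← h3, inv_smul_smul, inv_smul_smul]

end Pool.Agent.Work.MP_f2148a_nt.BM
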