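import Pool.Agent.Work.MP_f2148a_nt.BM.MinU
import Pool.Agent.Work.MP_f2148a_nt.BM.Iso

/-!
# BM/Cla (size M): elliptic curves and minimal pairs

`1728 Δ = c₄³ - c₆²`, so `0 < σ Δ ≤ X` iff `(c₄, c₆) ∈ rg (-σ) (1728 X)`. Choose for every `s ∈ Pm` an equation `W s` with
invariants `s`. The map `s ↦ iso (W s)` from `Mn ∩ rg (-σ) (1728 X)` to `EC` is injective (`iso_iff`, `min_unique`) with
image `Ecl σ X`: for `e = iso W`, `exists_min` for `(c₄ W, c₆ W)` gives `u`, `s`; `iso (W s) = iso W` by `iso_iff` with `l = u`;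
`s ∈ rg`: `u ^ 12` times its value is the value of `(c₄ W, c₆ W)`. (`Set.ncard_image_of_injOn`.)
The second theorem: the same map for an arbitrary property `P` of the classes.
-/

set_option autoImplicit false

namespace Pool.Agent.Work.MP_f2148a_nt.BM

private theorem cla_rel (W : WeierstrassCurve ℤ) :
    ((W.c₆ : ℝ)) ^ 2 - ((W.c₄ : ℝ)) ^ 3 = -(1728 * (W.Δ : ℝ)) := by
  have h := W.c_relation
  have h2 : (1728 : ℝ) * (W.Δ : ℝ) = (W.c₄ : ℝ) ^ 3 - (W.c₆ : ℝ) ^ 2 := by exact_mod_cast h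
  linarith

private theorem cla_ne (W : WeierstrassCurve ℤ) : W.Δ ≠ 0 ↔ W.c₆ ^ 2 ≠ W.c₄ ^ 3 := by
  have h := W.c_relation
  constructor
  · intro h1 h2
    apply h1
    rw [h2, sub_self] at h
    simpa using h
  · intro h1 h2
    apply h1
    rw [h2, mul_zero] at h
    linarith

theorem ecl_card {σ X : ℝ} (hσ : σ = 1 ∨ σ = -1) (hf : (Mn ∩ rg (-σ) (1728 * X)).Finite) :
    (Ecl σ X).Finite ∧ (Ecl σ X).ncard = (Mn ∩ rg (-σ) (1728 * X)).ncard := by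
  classical
  have hex : ∀ s : ℤ × ℤ, ∃ W : WeierstrassCurve ℤ, s ∈ Pm → W.c₄ = s.1 ∧ W.c₆ = s.2 := by
    intro s
    by_cases h : s ∈ Pm
    · obtain ⟨W, hW⟩ := h
      exact ⟨W, fun _ => hW⟩
    · exact ⟨⟨0, 0, 0, 0, 0⟩, fun h' => absurd h' h⟩
  choose F hF using hex
  have hinj : Set.InjOn (fun s => iso (F s)) (Mn ∩ rg (-σ) (1728 * X)) := by
    rintro s ⟨hs, -⟩ s' ⟨hs', -⟩ h
    obtain ⟨h4, h6⟩ := hF s hs.1
    obtain ⟨h4', h6'⟩ := hF s' hs'.1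
    have hΔ : (F s).Δ ≠ 0 := by
      rw [cla_ne, h4, h6]
      exact hs.2.1
    obtain ⟨l, hl, e1, e2⟩ := (iso_iff (F s) (F s') hΔ).1 h
    rw [h4, h4'] at e1
    rw [h6, h6'] at e2
    exact min_unique hs hs' hl e1 e2
  have himg : (fun s => iso (F s)) '' (Mn ∩ rg (-σ) (1728 * X)) = Ecl σ X := by
    ext e
    constructor
    · rintro ⟨s, ⟨hs, hr1, hr2⟩, rfl⟩
      obtain ⟨h4, h6⟩ := hF s hs.1
      have h := cla_rel (F s)
      rw [h4, h6] at h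
      rw [h] at hr1 hr2
      refine ⟨F s, ?_, ?_, rfl⟩
      · nlinarith
      · nlinarith
    · rintro ⟨W, hW1, hW2, rfl⟩
      have hΔ : W.Δ ≠ 0 := by
        intro h0
        rw [h0] at hW1
        simp at hW1
      have hne : (W.c₄, W.c₆).2 ^ 2 ≠ (W.c₄, W.c₆).1 ^ 3 := (cla_ne W).1 hΔ
      obtain ⟨u, hu, s, hs, ht⟩ := exists_min (W.c₄, W.c₆) ⟨W, rfl, rfl⟩ hne
      have ht1 : W.c₄ = (u : ℤ) ^ 4 * s.1 := congrArg Prod.fst ht
      have ht2 : W.c₆ = (u : ℤ) ^ 6 * s.2 := congrArg Prod.snd ht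
      obtain ⟨h4, h6⟩ := hF s hs.1
      have hΔs : (F s).Δ ≠ 0 := by
        rw [cla_ne, h4, h6]
        exact hs.2.1
      refine ⟨s, ⟨hs, ?_⟩, ?_⟩
      · have h := cla_rel W
        rw [ht1, ht2] at h
        push_cast at h
        have hu' : (1 : ℝ) ≤ (u : ℝ) := by exact_mod_cast hu
        have hu12 : (1 : ℝ) ≤ (u : ℝ) ^ 12 := one_le_pow₀ hu'
        have e : (u : ℝ) ^ 12 * ((s.2 : ℝ) ^ 2 - (s.1 : ℝ) ^ 3) = -(1728 * (W.Δ : ℝ)) := by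
          rw [← h]
          ring
        set v : ℝ := (s.2 : ℝ) ^ 2 - (s.1 : ℝ) ^ 3 with hv
        have e2 : (u : ℝ) ^ 12 * (-σ * v) = 1728 * (σ * (W.Δ : ℝ)) := by
          have : (u : ℝ) ^ 12 * (-σ * v) = -σ * ((u : ℝ) ^ 12 * v) := by ring
          rw [this, e]
          ring
        have hpos : 0 < -σ * v := by
          by_contra hcon
          push Not at hcon
          have : (u : ℝ) ^ 12 * (-σ * v) ≤ 0 :=
            mul_nonpos_of_nonneg_of_nonpos (by positivity) hcon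
          rw [e2] at this
          linarith
        refine ⟨hpos, ?_⟩
        show -σ * v ≤ 1728 * X
        have h5 : -σ * v ≤ (u : ℝ) ^ 12 * (-σ * v) := by
          nlinarith
        rw [e2] at h5
        linarith
      · show iso (F s) = iso W
        rw [iso_iff (F s) W hΔs]
        refine ⟨(u : ℚ), ?_, ?_, ?_⟩
        · have : (u : ℚ) ≠ 0 := by
            have h1 : 0 < u := hu
            exact_mod_cast h1.ne'
          exact this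
        · rw [h4, ht1]
          push_cast
          ring
        · rw [h6, ht2]
          push_cast
          ring
  constructor
  · rw [← himg]
    exact hf.image _
  · rw [← himg]
    exact hinj.ncard_image

/-- the classes with an equation with `|Δ| ≤ X` and `|c₆|` larger than `T |Δ| ^ (1 / 2)` -/
def Ebig (T X : ℝ) : Set EC := {e | ∃ W : WeierstrassCurve ℤ, W.Δ ≠ 0 ∧ |(W.Δ : ℝ)| ≤ X ∧
  T * |(W.Δ : ℝ)| ^ (1 / 2 : ℝ) < |(W.c₆ : ℝ)| ∧ e = iso W}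

/-- they are not more than the pairs of `As.pr (1728 X)` with `T |(y² - x³) / 1728| ^ (1 / 2) < |y|` -/
theorem ebig_card {T X : ℝ}
    (hf : {t : ℤ × ℤ | t ∈ As.pr (1728 * X) ∧
      T * (|(t.2 : ℝ) ^ 2 - (t.1 : ℝ) ^ 3| / 1728) ^ (1 / 2 : ℝ) < |(t.2 : ℝ)|}.Finite) :
    (Ebig T X).Finite ∧ (Ebig T X).ncard ≤ {t : ℤ × ℤ | t ∈ As.pr (1728 * X) ∧
      T * (|(t.2 : ℝ) ^ 2 - (t.1 : ℝ) ^ 3| / 1728) ^ (1 / 2 : ℝ) < |(t.2 : ℝ)|}.ncard := by
  classical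
  have hex : ∀ e : EC, ∃ W : WeierstrassCurve ℤ, e ∈ Ebig T X → W.Δ ≠ 0 ∧ |(W.Δ : ℝ)| ≤ X ∧
      T * |(W.Δ : ℝ)| ^ (1 / 2 : ℝ) < |(W.c₆ : ℝ)| ∧ e = iso W := by
    intro e
    by_cases h : e ∈ Ebig T X
    · obtain ⟨W, hW⟩ := h
      exact ⟨W, fun _ => hW⟩
    · exact ⟨⟨0, 0, 0, 0, 0⟩, fun h' => absurd h' h⟩
  choose F hF using hex
  have hmaps : ∀ e ∈ Ebig T X, (fun e => (((F e).c₄, (F e).c₆) : ℤ × ℤ)) e ∈
      {t : ℤ × ℤ | t ∈ As.pr (1728 * X) ∧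
        T * (|(t.2 : ℝ) ^ 2 - (t.1 : ℝ) ^ 3| / 1728) ^ (1 / 2 : ℝ) < |(t.2 : ℝ)|} := by
    intro e he
    obtain ⟨h1, h2, h3, -⟩ := hF e he
    have hrel := cla_rel (F e)
    have habs : |((F e).c₆ : ℝ) ^ 2 - ((F e).c₄ : ℝ) ^ 3| = 1728 * |((F e).Δ : ℝ)| := by
      rw [hrel, abs_neg, abs_mul, abs_of_pos (by norm_num : (0 : ℝ) < 1728)]
    refine ⟨⟨(cla_ne (F e)).1 h1, ?_⟩, ?_⟩
    · show |((F e).c₆ : ℝ) ^ 2 - ((F e).c₄ : ℝ) ^ 3| ≤ 1728 * X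
      rw [habs]
      linarith
    · show T * (|((F e).c₆ : ℝ) ^ 2 - ((F e).c₄ : ℝ) ^ 3| / 1728) ^ (1 / 2 : ℝ) < |((F e).c₆ : ℝ)|
      rw [habs, mul_div_cancel_left₀ _ (by norm_num : (1728 : ℝ) ≠ 0)]
      exact h3
  have hinj : Set.InjOn (fun e => (((F e).c₄, (F e).c₆) : ℤ × ℤ)) (Ebig T X) := by
    intro e he e' he' h
    obtain ⟨h1, -, -, h4⟩ := hF e he
    obtain ⟨-, -, -, h4'⟩ := hF e' he'
    have e1 : (F e).c₄ = (F e').c₄ := congrArg Prod.fst h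
    have e2 : (F e).c₆ = (F e').c₆ := congrArg Prod.snd h
    rw [h4, h4', iso_iff (F e) (F e') h1]
    refine ⟨1, one_ne_zero, ?_, ?_⟩
    · rw [e1, one_pow, one_mul]
    · rw [e2, one_pow, one_mul]
  constructor
  · exact Set.Finite.of_injOn hmaps hinj hf
  · exact Set.ncard_le_ncard_of_injOn _ hmaps hinj hf

end Pool.Agent.Work.MP_f2148a_nt.BM
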