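import Mathlib
import Pool.Agent.Work.MP_f2148a_nt.As.Defs

/-!
# MP_f2148a_nt, block BM (Brumer-McGuinness): definitions (FIXED, do not change)

`σ` is always `1` or `-1`. The pairs `(x, y)` with `0 < σ (y² - x³) ≤ K` are counted in classes
`m ∣ x - a`, `n ∣ y - g x` (`g` an arbitrary function), then the pairs of invariants `(c₄, c₆)` of the integral
Weierstrass equations (`Pm`), the minimal ones (`Mn`), and the elliptic curves over `ℚ` (`Ecl`).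
-/

set_option autoImplicit false

namespace Pool.Agent.Work.MP_f2148a_nt.BM

open MeasureTheory

/-- the area of the set of the real `(x, y)` with `0 ≤ σ (y ^ 2 - x ^ 3) ≤ 1` -/
noncomputable def ar (σ : ℝ) : ℝ :=
  (volume {p : ℝ × ℝ | 0 ≤ σ * (p.2 ^ 2 - p.1 ^ 3) ∧ σ * (p.2 ^ 2 - p.1 ^ 3) ≤ 1}).toReal

/-- the length of `{y : ℝ | 0 ≤ σ (y ^ 2 - x ^ 3) ≤ K}` (the square root of a negative number is 0) -/
noncomputable def ln (σ K x : ℝ) : ℝ := 2 * |√(x ^ 3 + σ * K) - √(x ^ 3)|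

/-- the pairs of integers with `0 < σ (y ^ 2 - x ^ 3) ≤ K` -/
def rg (σ K : ℝ) : Set (ℤ × ℤ) :=
  {t | 0 < σ * ((t.2 : ℝ) ^ 2 - (t.1 : ℝ) ^ 3) ∧ σ * ((t.2 : ℝ) ^ 2 - (t.1 : ℝ) ^ 3) ≤ K}

/-- the pairs of `rg σ K` in a class -/
def cl (σ K : ℝ) (m n : ℕ) (a : ℤ) (g : ℤ → ℤ) : Set (ℤ × ℤ) :=
  {t | t ∈ rg σ K ∧ (m : ℤ) ∣ t.1 - a ∧ (n : ℤ) ∣ t.2 - g t.1}

/-- the asymptotic formula in all classes with error exponent `θ`, uniform in the classes -/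
def AsyQ (θ : ℝ) : Prop := ∀ σ : ℝ, (σ = 1 ∨ σ = -1) → ∃ A : ℝ, ∀ m n : ℕ, 0 < m → 0 < n →
  ∀ (a : ℤ) (g : ℤ → ℤ) (K : ℝ), 1 ≤ K → (cl σ K m n a g).Finite ∧
    |((cl σ K m n a g).ncard : ℝ) - ar σ / (m * n) * K ^ (5 / 6 : ℝ)| ≤ A * K ^ θ

/-- the pairs of invariants `(c₄, c₆)` of the integral Weierstrass equations -/
def Pm : Set (ℤ × ℤ) := {t | ∃ W : WeierstrassCurve ℤ, W.c₄ = t.1 ∧ W.c₆ = t.2}

/-- the minimal pairs -/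
def Mn : Set (ℤ × ℤ) := {t | t ∈ Pm ∧ t.2 ^ 2 ≠ t.1 ^ 3 ∧
  ∀ u : ℕ, 2 ≤ u → ∀ s ∈ Pm, t ≠ ((u : ℤ) ^ 4 * s.1, (u : ℤ) ^ 6 * s.2)}

/-- isomorphism classes of Weierstrass curves over `ℚ` -/
abbrev EC : Type :=
  MulAction.orbitRel.Quotient (WeierstrassCurve.VariableChange ℚ) (WeierstrassCurve ℚ)

/-- the class of an integral equation -/
def iso (W : WeierstrassCurve ℤ) : EC := Quotient.mk'' (W.map (Int.castRingHom ℚ))

/-- the classes with an integral equation with `0 < σ Δ ≤ X` -/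
def Ecl (σ X : ℝ) : Set EC :=
  {e | ∃ W : WeierstrassCurve ℤ, 0 < σ * (W.Δ : ℝ) ∧ σ * (W.Δ : ℝ) ≤ X ∧ e = iso W}

/-- `ζ(10)` -/
noncomputable def z10 : ℝ := ∑' n : ℕ, 1 / ((n : ℝ) + 1) ^ 10

end Pool.Agent.Work.MP_f2148a_nt.BM
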