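import Pool.Agent.Work.MP_f2148a_nt.BM.Defs

/-!
# BM/Fibq: one fibre
-/

set_option autoImplicit false

namespace Pool.Agent.Work.MP_f2148a_nt.BM

private theorem fq_closed (α β : ℝ) (h : α ≤ β) :
    |((Finset.Icc ⌈α⌉ ⌊β⌋).card : ℝ) - (β - α)| ≤ 1 := by
  have h1 := Int.floor_le β
  have h2 := Int.lt_floor_add_one β
  have h3 := Int.le_ceil α
  have h4 := Int.ceil_lt_add_one α
  have h5 : (0 : ℤ) ≤ ⌊β⌋ + 1 - ⌈α⌉ := by
    have : (-1 : ℝ) < ((⌊β⌋ + 1 - ⌈α⌉ : ℤ) : ℝ) := by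
      push_cast
      linarith
    have : (-1 : ℤ) < ⌊β⌋ + 1 - ⌈α⌉ := by exact_mod_cast this
    omega
  have h6 : ((Finset.Icc ⌈α⌉ ⌊β⌋).card : ℝ) = ⌊β⌋ + 1 - ⌈α⌉ := by
    rw [Int.card_Icc]
    have : (((⌊β⌋ + 1 - ⌈α⌉).toNat : ℤ) : ℝ) = ((⌊β⌋ + 1 - ⌈α⌉ : ℤ) : ℝ) := by
      rw [Int.toNat_of_nonneg h5]
    push_cast at this
    exact this
  rw [h6, abs_le]
  constructor <;> linarith

private theorem fq_open (α β : ℝ) (h : α ≤ β) :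
    |((Finset.Icc (⌊α⌋ + 1) (⌈β⌉ - 1)).card : ℝ) - (β - α)| ≤ 1 := by
  have h1 := Int.floor_le α
  have h2 := Int.lt_floor_add_one α
  have h3 := Int.le_ceil β
  have h4 := Int.ceil_lt_add_one β
  have h5 : (-1 : ℤ) ≤ ⌈β⌉ - 1 + 1 - (⌊α⌋ + 1) := by
    have : (-1 : ℝ) ≤ ((⌈β⌉ - 1 + 1 - (⌊α⌋ + 1) : ℤ) : ℝ) := by
      push_cast
      linarith
    exact_mod_cast this
  rw [Int.card_Icc]
  by_cases h6 : (0 : ℤ) ≤ ⌈β⌉ - 1 + 1 - (⌊α⌋ + 1)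
  · have : (((⌈β⌉ - 1 + 1 - (⌊α⌋ + 1)).toNat : ℤ) : ℝ) = ((⌈β⌉ - 1 + 1 - (⌊α⌋ + 1) : ℤ) : ℝ) := by
      rw [Int.toNat_of_nonneg h6]
    push_cast at this
    rw [this, abs_le]
    constructor <;> linarith
  · have h7 : ⌈β⌉ - 1 + 1 - (⌊α⌋ + 1) = -1 := by omega
    have h8 : (⌈β⌉ : ℝ) = ⌊α⌋ := by
      have : ⌈β⌉ = ⌊α⌋ := by omega
      exact_mod_cast this
    rw [h7]
    simp only [Int.reduceNeg, Int.reduceToNat, Nat.cast_zero, zero_sub, abs_neg]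
    rw [abs_le]
    constructor <;> linarith

private theorem fq_inj (n : ℕ) (hn : 0 < n) (b : ℤ) :
    Function.Injective fun j : ℤ => b + (n : ℤ) * j := by
  intro i j h
  have hn' : (n : ℤ) ≠ 0 := by exact_mod_cast hn.ne'
  have h1 : (n : ℤ) * i = (n : ℤ) * j := by
    have : b + (n : ℤ) * i = b + (n : ℤ) * j := h
    linarith
  exact mul_left_cancel₀ hn' h1

private theorem fq_img (S : Set ℤ) (F : Finset ℤ) (n : ℕ) (hn : 0 < n) (b : ℤ)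
    (h : ∀ j : ℤ, b + (n : ℤ) * j ∈ S ↔ j ∈ F) (hS : ∀ y ∈ S, (n : ℤ) ∣ y - b) :
    S.Finite ∧ S.ncard = F.card := by
  have e : S = (fun j : ℤ => b + (n : ℤ) * j) '' (F : Set ℤ) := by
    ext y
    constructor
    · intro hy
      obtain ⟨j, hj⟩ := hS y hy
      have hy' : y = b + (n : ℤ) * j := by linarith
      refine ⟨j, ?_, hy'.symm⟩
      rw [Finset.mem_coe, ← h j, ← hy']
      exact hy
    · rintro ⟨j, hj, rfl⟩
      exact (h j).2 hj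
  rw [e]
  refine ⟨F.finite_toSet.image _, ?_⟩
  rw [Set.ncard_image_of_injective _ (fq_inj n hn b), Set.ncard_coe_finset]

theorem fibq_le (u : ℝ) (n : ℕ) (hn : 0 < n) (b : ℤ) :
    {y : ℤ | (y : ℝ) ^ 2 ≤ u ∧ (n : ℤ) ∣ y - b}.Finite ∧
    |({y : ℤ | (y : ℝ) ^ 2 ≤ u ∧ (n : ℤ) ∣ y - b}.ncard : ℝ) - 2 * √u / n| ≤ 2 := by
  rcases lt_or_ge u 0 with hu | hu
  · have e : {y : ℤ | (y : ℝ) ^ 2 ≤ u ∧ (n : ℤ) ∣ y - b} = ∅ := by
      ext y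
      simp only [Set.mem_ofPred_eq, Set.mem_empty_iff_false, iff_false, not_and]
      intro h
      have := sq_nonneg (y : ℝ)
      linarith
    rw [e, Real.sqrt_eq_zero'.2 hu.le]
    simp
  · have hn' : (0 : ℝ) < n := by exact_mod_cast hn
    obtain ⟨h1, h2⟩ := fq_img {y : ℤ | (y : ℝ) ^ 2 ≤ u ∧ (n : ℤ) ∣ y - b}
      (Finset.Icc ⌈(-√u - b) / n⌉ ⌊(√u - b) / n⌋) n hn b (fun j => by
        rw [Finset.mem_Icc, Int.ceil_le, Int.le_floor, div_le_iff₀ hn', le_div_iff₀ hn']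
        simp only [Set.mem_ofPred_eq]
        rw [Real.sq_le hu]
        push_cast
        constructor
        · rintro ⟨⟨a1, a2⟩, -⟩
          constructor <;> linarith
        · rintro ⟨a1, a2⟩
          refine ⟨⟨by linarith, by linarith⟩, ⟨j, by ring⟩⟩) (fun y hy => hy.2)
    refine ⟨h1, ?_⟩
    rw [h2]
    have h3 := fq_closed ((-√u - b) / n) ((√u - b) / n) (by
      apply div_le_div_of_nonneg_right _ hn'.le
      linarith [Real.sqrt_nonneg u])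
    have e : (√u - b) / n - (-√u - b) / n = 2 * √u / n := by ring
    rw [e] at h3
    linarith

theorem fibq_lt (u : ℝ) (n : ℕ) (hn : 0 < n) (b : ℤ) :
    {y : ℤ | (y : ℝ) ^ 2 < u ∧ (n : ℤ) ∣ y - b}.Finite ∧
    |({y : ℤ | (y : ℝ) ^ 2 < u ∧ (n : ℤ) ∣ y - b}.ncard : ℝ) - 2 * √u / n| ≤ 2 := by
  have hn' : (0 : ℝ) < n := by exact_mod_cast hn
  obtain ⟨h1, h2⟩ := fq_img {y : ℤ | (y : ℝ) ^ 2 < u ∧ (n : ℤ) ∣ y - b}
    (Finset.Icc (⌊(-√u - b) / n⌋ + 1) (⌈(√u - b) / n⌉ - 1)) n hn b (fun j => by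
      rw [Finset.mem_Icc, Int.add_one_le_iff, Int.le_sub_one_iff, Int.floor_lt, Int.lt_ceil,
        div_lt_iff₀ hn', lt_div_iff₀ hn']
      simp only [Set.mem_ofPred_eq]
      rw [Real.sq_lt]
      push_cast
      constructor
      · rintro ⟨⟨a1, a2⟩, -⟩
        constructor <;> linarith
      · rintro ⟨a1, a2⟩
        refine ⟨⟨by linarith, by linarith⟩, ⟨j, by ring⟩⟩) (fun y hy => hy.2)
  refine ⟨h1, ?_⟩
  rw [h2]
  have h3 := fq_open ((-√u - b) / n) ((√u - b) / n) (by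
    apply div_le_div_of_nonneg_right _ hn'.le
    linarith [Real.sqrt_nonneg u])
  have e : (√u - b) / n - (-√u - b) / n = 2 * √u / n := by ring
  rw [e] at h3
  linarith

private theorem fq_diff {A B C : Set ℤ} (hA : A.Finite) (_hB : B.Finite) (hBA : B ⊆ A)
    (hC : C = A \ B) : C.Finite ∧ (C.ncard : ℝ) = A.ncard - B.ncard := by
  subst hC
  refine ⟨hA.sdiff, ?_⟩
  have h := Set.ncard_sdiff_add_ncard_of_subset hBA hA
  have : ((A \ B).ncard : ℝ) + B.ncard = A.ncard := by exact_mod_cast h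
  linarith

theorem fibq {σ K : ℝ} (hσ : σ = 1 ∨ σ = -1) (hK : 0 ≤ K) (x : ℤ) (n : ℕ) (hn : 0 < n) (b : ℤ) :
    {y : ℤ | (0 < σ * ((y : ℝ) ^ 2 - (x : ℝ) ^ 3) ∧ σ * ((y : ℝ) ^ 2 - (x : ℝ) ^ 3) ≤ K) ∧
      (n : ℤ) ∣ y - b}.Finite ∧
    |({y : ℤ | (0 < σ * ((y : ℝ) ^ 2 - (x : ℝ) ^ 3) ∧ σ * ((y : ℝ) ^ 2 - (x : ℝ) ^ 3) ≤ K) ∧
      (n : ℤ) ∣ y - b}.ncard : ℝ) - ln σ K x / n| ≤ 4 := by
  rcases hσ with rfl | rfl
  · obtain ⟨a1, a2⟩ := fibq_le ((x : ℝ) ^ 3 + K) n hn b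
    obtain ⟨b1, b2⟩ := fibq_le ((x : ℝ) ^ 3) n hn b
    obtain ⟨c1, c2⟩ := fq_diff (C := {y : ℤ | (0 < 1 * ((y : ℝ) ^ 2 - (x : ℝ) ^ 3) ∧
      1 * ((y : ℝ) ^ 2 - (x : ℝ) ^ 3) ≤ K) ∧ (n : ℤ) ∣ y - b}) a1 b1
      (fun y hy => ⟨by linarith [hy.1], hy.2⟩) (by
        ext y
        simp only [Set.mem_ofPred_eq, Set.mem_sdiff, not_and]
        constructor
        · rintro ⟨⟨h1, h2⟩, h3⟩
          refine ⟨⟨by linarith, h3⟩, fun h => ?_⟩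
          linarith
        · rintro ⟨⟨h1, h2⟩, h3⟩
          refine ⟨⟨?_, by linarith⟩, h2⟩
          by_contra h4
          exact h3 (by linarith) h2)
    refine ⟨c1, ?_⟩
    rw [c2]
    have h1 : √((x : ℝ) ^ 3) ≤ √((x : ℝ) ^ 3 + K) := Real.sqrt_le_sqrt (by linarith)
    have e : ln 1 K x / n = 2 * √((x : ℝ) ^ 3 + K) / n - 2 * √((x : ℝ) ^ 3) / n := by
      unfold ln
      rw [one_mul, abs_of_nonneg (by linarith)]
      ring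
    rw [e, abs_le]
    rw [abs_le] at a2 b2
    constructor <;> linarith [a2.1, a2.2, b2.1, b2.2]
  · obtain ⟨a1, a2⟩ := fibq_lt ((x : ℝ) ^ 3) n hn b
    obtain ⟨b1, b2⟩ := fibq_lt ((x : ℝ) ^ 3 - K) n hn b
    obtain ⟨c1, c2⟩ := fq_diff (C := {y : ℤ | (0 < -1 * ((y : ℝ) ^ 2 - (x : ℝ) ^ 3) ∧
      -1 * ((y : ℝ) ^ 2 - (x : ℝ) ^ 3) ≤ K) ∧ (n : ℤ) ∣ y - b}) a1 b1
      (fun y hy => ⟨by linarith [hy.1], hy.2⟩) (by
        ext y
        simp only [Set.mem_ofPred_eq, Set.mem_sdiff, not_and]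
        constructor
        · rintro ⟨⟨h1, h2⟩, h3⟩
          refine ⟨⟨by linarith, h3⟩, fun h => ?_⟩
          linarith
        · rintro ⟨⟨h1, h2⟩, h3⟩
          refine ⟨⟨by linarith, ?_⟩, h2⟩
          by_contra h4
          exact h3 (by linarith) h2)
    refine ⟨c1, ?_⟩
    rw [c2]
    have h1 : √((x : ℝ) ^ 3 - K) ≤ √((x : ℝ) ^ 3) := Real.sqrt_le_sqrt (by linarith)
    have e : ln (-1) K x / n = 2 * √((x : ℝ) ^ 3) / n - 2 * √((x : ℝ) ^ 3 - K) / n := by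
      unfold ln
      rw [show (x : ℝ) ^ 3 + -1 * K = (x : ℝ) ^ 3 - K by ring, abs_of_nonpos (by linarith)]
      ring
    rw [e, abs_le]
    rw [abs_le] at a2 b2
    constructor <;> linarith [a2.1, a2.2, b2.1, b2.2]

end Pool.Agent.Work.MP_f2148a_nt.BM
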