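import Pool.Agent.Work.MP_f2148a_nt.BM.NF

/-!
# BM/Kraus (size M-L): Kraus's conditions (checked numerically for all residues)

`Pm_iff`, from left to right, `W` any integral equation, `x = c₄ = b₂² - 24 b₄`, `y = c₆ = -b₂³ + 36 b₂ b₄ - 216 b₆`,
`x³ - y² = 1728 Δ` (`c_relation`), so `64` and `27` divide it. `P3`: `9 ∣ y` gives `3 ∣ b₂³`, `3 ∣ b₂`, so `27 ∣ y`.
`P2`: `b₂ = a₁² + 4 a₂`, `b₄ = 2 a₄ + a₁ a₃`, `b₆ = a₃² + 4 a₆`. `a₁` odd: `b₂ ≡ 1 mod 4`, `y ≡ -b₂³ ≡ -1 mod 4`. `a₁` even: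
`4 ∣ b₂`, `2 ∣ b₄`, so `16 ∣ x`, `y ≡ -216 a₃² ≡ 8 a₃² mod 32`, and `a₃² ≡ 0, 1 mod 4`.
From right to left use `mem_Pm`: `a₁ = y mod 2`; `a₂ ∈ {-1, 0, 1}` with `a₁ + a₂ ≡ -y mod 3` (so `b₂ ≡ -y mod 3`); `a₃`: if `a₁ = 0`:
`a₃ = 0` iff `32 ∣ y`; if `a₁ = 1`: `a₃ = 0` iff `16 ∣ x - b₂²` (`x³ ≡ y² ≡ 1 mod 8`, so `x ≡ 1 ≡ b₂² mod 8`).
`48 ∣ x - x0`: modulo 16 by the choice of `a₃`, modulo 3 since `x ≡ x³ ≡ y² ≡ b₂²`. So `x = b₂² - 24 b₄`,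
`b₄ = a₁ a₃ + 2 a₄`. Put `Y = gf i x = -b₂³ + 36 b₂ b₄ - 216 a₃²`. `27 ∣ y - Y`: if `3 ∣ b₂`: `3 ∣ x`, `27 ∣ x³`, `27 ∣ y²`, `9 ∣ y`,
`27 ∣ y`, and `27 ∣ Y`; if not: `Y² ≡ b₂⁶ + 9 b₂⁴ b₄ ≡ x³ ≡ y² mod 27`, `y ≡ Y ≢ 0 mod 3`, so `27 ∣ y - Y`. `32 ∣ y - Y`: `a₁ = 0`:
`Y ≡ 8 a₃² mod 32` (`36 b₂ b₄` is divisible by `288`). `a₁ = 1`: `Y² ≡ x³ ≡ y² mod 64`
(`Y² - x³ ≡ 16 b₂² (3 b₂ a₃² + b₄²)`, and `3 b₂ a₃² + b₄² ≡ a₃ (3 b₂ + 1) ≡ 0 mod 4`), both `≡ 3 mod 4`, so `32 ∣ y - Y`.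
Alternatively: everything depends only on `x` modulo 64 (or 576) and `y` modulo 32 (864): `decide` over `ZMod 64 × ZMod 32`
(2048 cases) and over `ZMod 27 × ZMod 27`.

`Pm_scale`: the equation with coefficients `u a₁, u² a₂, u³ a₃, u⁴ a₄, u⁶ a₆`.
`Pm_cop`: one of `m`, `n` is odd: `P2`; one of them is prime to 3: `P3`; for odd `m`: `64 ∣ m¹² (x³ - y²)`, `m⁶ ≡ 1 mod 4`,
`8 m⁶ ≡ 8 mod 32`, `16 ∣ m⁴ x ↔ 16 ∣ x`, `32 ∣ m⁶ y ↔ 32 ∣ y`. Similarly for 3.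
-/

set_option autoImplicit false

namespace Pool.Agent.Work.MP_f2148a_nt.BM

/-- the condition at 2 -/
def P2 (x y : ℤ) : Prop := (64 : ℤ) ∣ x ^ 3 - y ^ 2 ∧
  ((4 : ℤ) ∣ y - 3 ∨ ((16 : ℤ) ∣ x ∧ ((32 : ℤ) ∣ y ∨ (32 : ℤ) ∣ y - 8)))

/-- the condition at 3 -/
def P3 (x y : ℤ) : Prop := (27 : ℤ) ∣ x ^ 3 - y ^ 2 ∧ ((9 : ℤ) ∣ y → (27 : ℤ) ∣ y)

private theorem fwd {x y : ℤ} (h : (x, y) ∈ Pm) : P2 x y ∧ P3 x y := by
  obtain ⟨W, h4, h6⟩ := h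
  simp only at h4 h6
  have hrel := W.c_relation
  rw [h4, h6] at hrel
  have hx : x = (W.a₁ ^ 2 + 4 * W.a₂) ^ 2 - 24 * (2 * W.a₄ + W.a₁ * W.a₃) := by
    rw [← h4]
    simp only [WeierstrassCurve.c₄, WeierstrassCurve.b₂, WeierstrassCurve.b₄]
  have hy : y = -(W.a₁ ^ 2 + 4 * W.a₂) ^ 3 + 36 * (W.a₁ ^ 2 + 4 * W.a₂) *
      (2 * W.a₄ + W.a₁ * W.a₃) - 216 * (W.a₃ ^ 2 + 4 * W.a₆) := by
    rw [← h6]
    simp only [WeierstrassCurve.c₆, WeierstrassCurve.b₂, WeierstrassCurve.b₄, WeierstrassCurve.b₆]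
  refine ⟨⟨⟨27 * W.Δ, by linear_combination -hrel⟩, ?_⟩, ⟨⟨64 * W.Δ, by linear_combination -hrel⟩, ?_⟩⟩
  · rcases Int.even_or_odd' W.a₁ with ⟨k, hk | hk⟩
    · right
      refine ⟨?_, ?_⟩
      · refine ⟨(k ^ 2 + W.a₂) ^ 2 - 3 * (W.a₄ + k * W.a₃), ?_⟩
        rw [hx, hk]
        ring
      · rcases Int.even_or_odd' W.a₃ with ⟨j, hj | hj⟩
        · left
          refine ⟨-2 * (k ^ 2 + W.a₂) ^ 3 + 9 * (k ^ 2 + W.a₂) * (W.a₄ + k * W.a₃)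
            - 27 * j ^ 2 - 27 * W.a₆, ?_⟩
          rw [hy, hk, hj]
          ring
        · right
          refine ⟨-2 * (k ^ 2 + W.a₂) ^ 3 + 9 * (k ^ 2 + W.a₂) * (W.a₄ + k * W.a₃)
            - 27 * (j ^ 2 + j) - 27 * W.a₆ - 7, ?_⟩
          rw [hy, hk, hj]
          ring
    · left
      obtain ⟨b, hb⟩ : ∃ b : ℤ, W.a₁ ^ 2 + 4 * W.a₂ = 1 + 4 * b :=
        ⟨k ^ 2 + k + W.a₂, by rw [hk]; ring⟩
      rw [hb] at hy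
      refine ⟨-(16 * b ^ 3 + 12 * b ^ 2 + 3 * b) + 9 * (1 + 4 * b) * (2 * W.a₄ + W.a₁ * W.a₃)
        - 54 * (W.a₃ ^ 2 + 4 * W.a₆) - 1, ?_⟩
      rw [hy]
      ring
  · rintro ⟨c, hc⟩
    have h3 : (3 : ℤ) ∣ (W.a₁ ^ 2 + 4 * W.a₂) ^ 3 := by
      refine ⟨12 * (W.a₁ ^ 2 + 4 * W.a₂) * (2 * W.a₄ + W.a₁ * W.a₃)
        - 72 * (W.a₃ ^ 2 + 4 * W.a₆) - 3 * c, ?_⟩
      linear_combination hy - hc
    obtain ⟨b, hb⟩ := Int.prime_three.dvd_of_dvd_pow h3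
    rw [hb] at hy
    refine ⟨-b ^ 3 + 4 * b * (2 * W.a₄ + W.a₁ * W.a₃) - 8 * (W.a₃ ^ 2 + 4 * W.a₆), ?_⟩
    rw [hy]
    ring

private theorem L3 {x y Y D b s r : ℤ} (hrel : 1728 * D = x ^ 3 - Y ^ 2)
    (h3 : P3 x y) (hb : (3 : ℤ) ∣ b + y) (hY : Y = -b ^ 3 + 36 * b * s - 216 * r) :
    (27 : ℤ) ∣ y - Y := by
  obtain ⟨h1, h2⟩ := h3
  by_cases hy : (3 : ℤ) ∣ y
  · have hb3 : (3 : ℤ) ∣ b := (Int.dvd_add_left hy).1 hb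
    obtain ⟨c, rfl⟩ := hb3
    have hY27 : (27 : ℤ) ∣ Y := ⟨-c ^ 3 + 4 * c * s - 8 * r, by rw [hY]; ring⟩
    have hx : (3 : ℤ) ∣ x := by
      have h4 : (3 : ℤ) ∣ x ^ 3 := by
        have h5 : (3 : ℤ) ∣ x ^ 3 - y ^ 2 := (by norm_num : (3 : ℤ) ∣ 27).trans h1
        have h6 : (3 : ℤ) ∣ y ^ 2 := Dvd.dvd.pow hy (by norm_num)
        exact (Int.dvd_iff_dvd_of_dvd_sub h5).2 h6
      exact Int.prime_three.dvd_of_dvd_pow h4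
    have hx27 : (27 : ℤ) ∣ x ^ 3 := by
      obtain ⟨z, rfl⟩ := hx
      exact ⟨z ^ 3, by ring⟩
    have hy27 : (27 : ℤ) ∣ y ^ 2 := (Int.dvd_iff_dvd_of_dvd_sub h1).1 hx27
    have hy9 : (9 : ℤ) ∣ y := by
      obtain ⟨z, rfl⟩ := hy
      have h5 : (3 : ℤ) ∣ z ^ 2 := by
        obtain ⟨q, hq⟩ := hy27
        exact ⟨q, by linarith⟩
      obtain ⟨w, rfl⟩ := Int.prime_three.dvd_of_dvd_pow h5
      exact ⟨w, by ring⟩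
    exact dvd_sub (h2 hy9) hY27
  · have h4 : (27 : ℤ) ∣ (Y + y) * (y - Y) := by
      obtain ⟨q, hq⟩ := h1
      exact ⟨64 * D - q, by linear_combination -hrel - hq⟩
    have h5 : ¬ (3 : ℤ) ∣ Y + y := by
      intro h6
      obtain ⟨c, hc⟩ := hb
      have hb' : b = 3 * c - y := by linarith
      have h7 : (3 : ℤ) ∣ y ^ 3 + y := by
        obtain ⟨q, hq⟩ := h6
        refine ⟨q + 9 * c ^ 3 - 9 * c ^ 2 * y + 3 * c * y ^ 2 - 12 * b * s + 72 * r, ?_⟩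
        rw [hY] at hq
        have e : b ^ 3 = 27 * c ^ 3 - 27 * c ^ 2 * y + 9 * c * y ^ 2 - y ^ 3 := by
          rw [hb']; ring
        linear_combination hq + e
      have h8 : (3 : ℤ) ∣ y ^ 3 - y := by
        have : y % 3 = 0 ∨ y % 3 = 1 ∨ y % 3 = 2 := by omega
        obtain ⟨q, hq⟩ : ∃ q, y = 3 * q + y % 3 := ⟨y / 3, by omega⟩
        rcases this with h | h | h
        · rw [hq, h]; exact ⟨9 * q ^ 3 - q, by ring⟩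
        · rw [hq, h]; exact ⟨9 * q ^ 3 + 9 * q ^ 2 + 2 * q, by ring⟩
        · rw [hq, h]; exact ⟨9 * q ^ 3 + 18 * q ^ 2 + 11 * q + 2, by ring⟩
      apply hy
      have h9 := dvd_sub h7 h8
      have e : y ^ 3 + y - (y ^ 3 - y) = 2 * y := by ring
      rw [e] at h9
      omega
    have h6 : IsCoprime (27 : ℤ) (Y + y) := by
      have := ((Int.prime_three.coprime_iff_not_dvd).2 h5).pow_left (m := 3)
      norm_num at this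
      exact this
    exact h6.dvd_of_dvd_mul_left h4

private theorem L2 {x y Y D : ℤ} (hrel : 1728 * D = x ^ 3 - Y ^ 2) (h1 : (64 : ℤ) ∣ x ^ 3 - y ^ 2)
    (hy : (4 : ℤ) ∣ y - 3) (hY : (4 : ℤ) ∣ Y - 3) : (32 : ℤ) ∣ y - Y := by
  obtain ⟨a, ha⟩ := hy
  obtain ⟨b, hb⟩ := hY
  have e : Y + y = 2 * (2 * (a + b) + 3) := by linarith
  have h4 : (32 : ℤ) ∣ (2 * (a + b) + 3) * (y - Y) := by
    obtain ⟨q, hq⟩ := h1
    refine ⟨27 * D - q, ?_⟩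
    have : (Y + y) * (y - Y) = 64 * (27 * D - q) := by linear_combination -hrel - hq
    rw [e] at this
    linarith
  have h6 : IsCoprime (32 : ℤ) (2 * (a + b) + 3) := by
    have h5 : ¬ (2 : ℤ) ∣ 2 * (a + b) + 3 := by omega
    have := ((Int.prime_two.coprime_iff_not_dvd).2 h5).pow_left (m := 5)
    norm_num at this
    exact this
  exact h6.dvd_of_dvd_mul_left h4

private theorem build {x y a₁ a₂ a₃ w : ℤ}
    (hx : x = (a₁ ^ 2 + 4 * a₂) ^ 2 - 24 * (2 * w + a₁ * a₃))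
    (h32 : (32 : ℤ) ∣ y - (-(a₁ ^ 2 + 4 * a₂) ^ 3 + 36 * (a₁ ^ 2 + 4 * a₂) * (2 * w + a₁ * a₃)
      - 216 * a₃ ^ 2))
    (h27 : (27 : ℤ) ∣ y - (-(a₁ ^ 2 + 4 * a₂) ^ 3 + 36 * (a₁ ^ 2 + 4 * a₂) * (2 * w + a₁ * a₃)
      - 216 * a₃ ^ 2)) : (x, y) ∈ Pm := by
  set Y := -(a₁ ^ 2 + 4 * a₂) ^ 3 + 36 * (a₁ ^ 2 + 4 * a₂) * (2 * w + a₁ * a₃) - 216 * a₃ ^ 2 with hY
  have h : (864 : ℤ) ∣ y - Y := by omega
  obtain ⟨c, hc⟩ := h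
  refine ⟨⟨a₁, a₂, a₃, w, -c⟩, ?_, ?_⟩
  · simp only [WeierstrassCurve.c₄, WeierstrassCurve.b₂, WeierstrassCurve.b₄]
    rw [hx]
  · simp only [WeierstrassCurve.c₆, WeierstrassCurve.b₂, WeierstrassCurve.b₄, WeierstrassCurve.b₆]
    linear_combination hY - hc

private theorem rel {x a₁ a₂ a₃ w : ℤ}
    (hx : x = (a₁ ^ 2 + 4 * a₂) ^ 2 - 24 * (2 * w + a₁ * a₃)) :
    ∃ D : ℤ, 1728 * D = x ^ 3 - (-(a₁ ^ 2 + 4 * a₂) ^ 3 + 36 * (a₁ ^ 2 + 4 * a₂) *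
      (2 * w + a₁ * a₃) - 216 * a₃ ^ 2) ^ 2 := by
  have h := (⟨a₁, a₂, a₃, w, 0⟩ : WeierstrassCurve ℤ).c_relation
  refine ⟨(⟨a₁, a₂, a₃, w, 0⟩ : WeierstrassCurve ℤ).Δ, ?_⟩
  rw [h]
  simp only [WeierstrassCurve.c₄, WeierstrassCurve.c₆, WeierstrassCurve.b₂, WeierstrassCurve.b₄,
    WeierstrassCurve.b₆]
  rw [hx]
  ring

private theorem mod3 {x y b : ℤ} (h3 : P3 x y) (hb : (3 : ℤ) ∣ b + y) : (3 : ℤ) ∣ x - b ^ 2 := by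
  have h5 : (3 : ℤ) ∣ x ^ 3 - y ^ 2 := (by norm_num : (3 : ℤ) ∣ 27).trans h3.1
  have h8 : (3 : ℤ) ∣ x ^ 3 - x := by
    have : x % 3 = 0 ∨ x % 3 = 1 ∨ x % 3 = 2 := by omega
    obtain ⟨q, hq⟩ : ∃ q, x = 3 * q + x % 3 := ⟨x / 3, by omega⟩
    rcases this with h | h | h
    · rw [hq, h]; exact ⟨9 * q ^ 3 - q, by ring⟩
    · rw [hq, h]; exact ⟨9 * q ^ 3 + 9 * q ^ 2 + 2 * q, by ring⟩
    · rw [hq, h]; exact ⟨9 * q ^ 3 + 18 * q ^ 2 + 11 * q + 2, by ring⟩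
  obtain ⟨c, hc⟩ := hb
  obtain ⟨q, hq⟩ := h5
  obtain ⟨s, hs⟩ := h8
  have hb' : b = 3 * c - y := by linarith
  refine ⟨q - s - 3 * c ^ 2 + 2 * c * y, ?_⟩
  rw [hb']
  linear_combination hq - hs

private theorem bwd {x y : ℤ} (h2 : P2 x y) (h3 : P3 x y) : (x, y) ∈ Pm := by
  obtain ⟨h64, h | ⟨h16, h⟩⟩ := h2
  · -- `a₁ = 1`
    have hb : (3 : ℤ) ∣ (1 ^ 2 + 4 * (-y - 1)) + y := ⟨-y - 1, by ring⟩
    have hm3 := mod3 h3 hb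
    have h8 : (8 : ℤ) ∣ x - (1 ^ 2 + 4 * (-y - 1)) ^ 2 := by
      obtain ⟨k, hk⟩ := h
      have hy : y = 4 * k + 3 := by linarith
      obtain ⟨q, hq⟩ := h64
      obtain ⟨s, hs⟩ : ∃ s, x = 8 * s + x % 8 := ⟨x / 8, by omega⟩
      have hx8 : x % 8 = 0 ∨ x % 8 = 1 ∨ x % 8 = 2 ∨ x % 8 = 3 ∨ x % 8 = 4 ∨ x % 8 = 5 ∨
          x % 8 = 6 ∨ x % 8 = 7 := by omega
      have hc : x ^ 3 = 64 * q + (4 * k + 3) ^ 2 := by rw [hy] at hq; linarith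
      have hc' : ∃ m, x ^ 3 = 8 * m + 1 := ⟨8 * q + 2 * k ^ 2 + 3 * k + 1, by rw [hc]; ring⟩
      obtain ⟨m, hm⟩ := hc'
      have h1 : x % 8 = 1 := by
        rcases hx8 with h | h | h | h | h | h | h | h <;> rw [h] at hs
        · exfalso
          have e : x ^ 3 = 8 * (64 * s ^ 3) := by rw [hs]; ring
          omega
        · exact h
        · exfalso
          have e : x ^ 3 = 8 * (64 * s ^ 3 + 48 * s ^ 2 + 12 * s + 1) := by rw [hs]; ring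
          omega
        · exfalso
          have e : x ^ 3 = 8 * (64 * s ^ 3 + 72 * s ^ 2 + 27 * s + 3) + 3 := by rw [hs]; ring
          omega
        · exfalso
          have e : x ^ 3 = 8 * (64 * s ^ 3 + 96 * s ^ 2 + 48 * s + 8) := by rw [hs]; ring
          omega
        · exfalso
          have e : x ^ 3 = 8 * (64 * s ^ 3 + 120 * s ^ 2 + 75 * s + 15) + 5 := by rw [hs]; ring
          omega
        · exfalso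
          have e : x ^ 3 = 8 * (64 * s ^ 3 + 144 * s ^ 2 + 108 * s + 27) := by rw [hs]; ring
          omega
        · exfalso
          have e : x ^ 3 = 8 * (64 * s ^ 3 + 168 * s ^ 2 + 147 * s + 42) + 7 := by rw [hs]; ring
          omega
      rw [h1] at hs
      refine ⟨s - (32 * k ^ 2 + 60 * k + 28), ?_⟩
      rw [hs, hy]
      ring
    obtain ⟨a₃, ha⟩ : ∃ a : ℤ, (16 : ℤ) ∣ x - (1 ^ 2 + 4 * (-y - 1)) ^ 2 + 24 * a := by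
      obtain ⟨c, hc⟩ := h8
      rcases Int.even_or_odd' c with ⟨j, hj | hj⟩
      · exact ⟨0, j, by rw [hc, hj]; ring⟩
      · exact ⟨1, j + 2, by rw [hc, hj]; ring⟩
    obtain ⟨v, hv⟩ : (48 : ℤ) ∣ x - (1 ^ 2 + 4 * (-y - 1)) ^ 2 + 24 * a₃ := by omega
    have hx : x = (1 ^ 2 + 4 * (-y - 1)) ^ 2 - 24 * (2 * (-v) + 1 * a₃) := by
      linear_combination hv
    obtain ⟨D, hD⟩ := rel hx
    refine build hx ?_ ?_
    · refine L2 hD h64 h ?_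
      refine ⟨16 * y ^ 3 + 36 * y ^ 2 + 27 * y + 6 + 9 * (-4 * y - 3) * (2 * -v + 1 * a₃)
        - 54 * a₃ ^ 2, ?_⟩
      ring
    · exact L3 hD h3 hb rfl
  · -- `a₁ = 0`
    have hb : (3 : ℤ) ∣ (0 ^ 2 + 4 * (-y)) + y := ⟨-y, by ring⟩
    have hm3 := mod3 h3 hb
    have h16' : (16 : ℤ) ∣ x - (0 ^ 2 + 4 * (-y)) ^ 2 := by
      obtain ⟨c, hc⟩ := h16
      exact ⟨c - y ^ 2, by rw [hc]; ring⟩
    obtain ⟨v, hv⟩ : (48 : ℤ) ∣ x - (0 ^ 2 + 4 * (-y)) ^ 2 := by omega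
    obtain ⟨a₃, ha⟩ : ∃ a : ℤ, (32 : ℤ) ∣ y + 216 * a ^ 2 := by
      rcases h with ⟨c, hc⟩ | ⟨c, hc⟩
      · exact ⟨0, c, by rw [hc]; ring⟩
      · exact ⟨1, c + 7, by linear_combination hc⟩
    have hx : x = (0 ^ 2 + 4 * (-y)) ^ 2 - 24 * (2 * (-v) + 0 * a₃) := by
      linear_combination hv
    obtain ⟨D, hD⟩ := rel hx
    refine build hx ?_ ?_
    · obtain ⟨c, hc⟩ := ha
      refine ⟨c - 2 * y ^ 3 - 9 * y * v, ?_⟩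
      linear_combination hc
    · exact L3 hD h3 hb rfl

theorem Pm_iff (x y : ℤ) : (x, y) ∈ Pm ↔ P2 x y ∧ P3 x y :=
  ⟨fwd, fun h => bwd h.1 h.2⟩

theorem Pm_scale (u : ℤ) {t : ℤ × ℤ} (h : t ∈ Pm) : (u ^ 4 * t.1, u ^ 6 * t.2) ∈ Pm := by
  obtain ⟨W, h4, h6⟩ := h
  refine ⟨⟨u * W.a₁, u ^ 2 * W.a₂, u ^ 3 * W.a₃, u ^ 4 * W.a₄, u ^ 6 * W.a₆⟩, ?_, ?_⟩
  · rw [← h4]
    simp only [WeierstrassCurve.c₄, WeierstrassCurve.b₂, WeierstrassCurve.b₄]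
    ring
  · rw [← h6]
    simp only [WeierstrassCurve.c₆, WeierstrassCurve.b₂, WeierstrassCurve.b₄, WeierstrassCurve.b₆]
    ring

private theorem cop_two {m : ℤ} (hm : ¬ (2 : ℤ) ∣ m) (k : ℕ) : IsCoprime ((2 : ℤ) ^ k) m := by
  apply IsCoprime.pow_left
  exact (Int.prime_two.coprime_iff_not_dvd).2 hm

private theorem cop_three {m : ℤ} (hm : ¬ (3 : ℤ) ∣ m) (k : ℕ) : IsCoprime ((3 : ℤ) ^ k) m := by
  apply IsCoprime.pow_left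
  exact (Int.prime_three.coprime_iff_not_dvd).2 hm

private theorem P2_odd {m x y : ℤ} (hm : ¬ (2 : ℤ) ∣ m) (h : P2 (m ^ 4 * x) (m ^ 6 * y)) :
    P2 x y := by
  obtain ⟨h1, h2⟩ := h
  have e1 : (m ^ 4 * x) ^ 3 - (m ^ 6 * y) ^ 2 = m ^ 12 * (x ^ 3 - y ^ 2) := by ring
  rw [e1] at h1
  obtain ⟨q, hq⟩ : ∃ q : ℤ, m ^ 6 = 1 + 8 * q := by
    obtain ⟨s, hs⟩ : ∃ s : ℤ, m ^ 2 = 1 + 8 * s := by
      obtain ⟨k, hk⟩ : ∃ k : ℤ, m = 2 * k + 1 := ⟨m / 2, by omega⟩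
      obtain ⟨j, hj⟩ := Int.even_mul_succ_self k
      refine ⟨j, ?_⟩
      rw [hk]
      linear_combination 4 * hj
    refine ⟨3 * s + 24 * s ^ 2 + 64 * s ^ 3, ?_⟩
    calc m ^ 6 = (m ^ 2) ^ 3 := by ring
      _ = _ := by rw [hs]; ring
  have c4 : ∀ k j : ℕ, IsCoprime ((2 : ℤ) ^ k) (m ^ j) := fun k j => (cop_two hm k).pow_right
  refine ⟨?_, ?_⟩
  · have := c4 6 12
    norm_num at this
    exact this.dvd_of_dvd_mul_left h1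
  · rcases h2 with h2 | ⟨h2, h3⟩
    · left
      rw [hq] at h2
      obtain ⟨r, hr⟩ := h2
      refine ⟨r - 2 * q * y, ?_⟩
      linear_combination hr
    · right
      refine ⟨?_, ?_⟩
      · have := c4 4 4
        norm_num at this
        exact this.dvd_of_dvd_mul_left h2
      · rcases h3 with h3 | h3
        · left
          have := c4 5 6
          norm_num at this
          exact this.dvd_of_dvd_mul_left h3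
        · right
          rw [hq] at h3
          obtain ⟨r, hr⟩ := h3
          have hy : y = 8 * (4 * r - q * y + 1) := by linear_combination hr
          set z := 4 * r - q * y + 1 with hz
          refine ⟨r - 2 * q * z, ?_⟩
          linear_combination hr - (8 * q) * hy

private theorem P3_cop {m x y : ℤ} (hm : ¬ (3 : ℤ) ∣ m) (h : P3 (m ^ 4 * x) (m ^ 6 * y)) :
    P3 x y := by
  obtain ⟨h1, h2⟩ := h
  have e1 : (m ^ 4 * x) ^ 3 - (m ^ 6 * y) ^ 2 = m ^ 12 * (x ^ 3 - y ^ 2) := by ring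
  rw [e1] at h1
  have c4 : ∀ k j : ℕ, IsCoprime ((3 : ℤ) ^ k) (m ^ j) := fun k j => (cop_three hm k).pow_right
  refine ⟨?_, ?_⟩
  · have := c4 3 12
    norm_num at this
    exact this.dvd_of_dvd_mul_left h1
  · intro h9
    have := c4 3 6
    norm_num at this
    exact this.dvd_of_dvd_mul_left (h2 (Dvd.dvd.mul_left h9 _))

theorem Pm_cop {m n : ℤ} (h : IsCoprime m n) (x y : ℤ) (h1 : (m ^ 4 * x, m ^ 6 * y) ∈ Pm)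
    (h2 : (n ^ 4 * x, n ^ 6 * y) ∈ Pm) : (x, y) ∈ Pm := by
  rw [Pm_iff] at h1 h2 ⊢
  have key : ∀ p : ℤ, Prime p → ¬ p ∣ m ∨ ¬ p ∣ n := by
    intro p hp
    by_contra hc
    push Not at hc
    exact hp.not_isUnit (h.isUnit_of_dvd' hc.1 hc.2)
  refine ⟨?_, ?_⟩
  · rcases key 2 Int.prime_two with hm | hn
    · exact P2_odd hm h1.1
    · exact P2_odd hn h2.1
  · rcases key 3 Int.prime_three with hm | hn
    · exact P3_cop hm h1.2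
    · exact P3_cop hn h2.2

end Pool.Agent.Work.MP_f2148a_nt.BM
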