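import Pool.Agent.Work.MP_f2148a_nt.BM.Defs

/-!
# BM/LnA (size M): the function `ln`

`u := x ^ 3` is monotone in `x`; `√` of a nonpositive number is 0; treat `σ = 1` and `σ = -1` separately.
* `ln_le`: `√(a + b) ≤ √a + √b`.
* `ln_zero`: both square roots are of nonpositive numbers (`u ≤ -K ≤ 0`).
* `ln_uni`: `σ = 1`: `c = 0`: for `y ≤ 0` the second root is 0, for `x ≥ 0`: `√(u + K) - √u = K / (√(u + K) + √u)`
  decreases. `σ = -1`: `c = K ^ (1 / 3)`: for `y ≤ c`, `√(u - K) = 0`; for `x ≥ c`: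
  `√u - √(u - K) = K / (√u + √(u - K))` decreases (`K = 0`: everything is 0).
* `ln_tail`: the same formulas and `x ^ (-3 / 2) = 1 / √(x ^ 3)`.
The file `As/Len.lean` is a model (`len` is the sum of the two functions).
-/

set_option autoImplicit false

namespace Pool.Agent.Work.MP_f2148a_nt.BM

private noncomputable def dd (K v : ℝ) : ℝ := √(v + K) - √v

private lemma cube_mono {x y : ℝ} (h : x ≤ y) : x ^ 3 ≤ y ^ 3 :=
  (Odd.strictMono_pow (by decide : Odd 3)).monotone h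

private lemma dd_nonneg {K : ℝ} (hK : 0 ≤ K) (v : ℝ) : 0 ≤ dd K v := by
  have h : √v ≤ √(v + K) := Real.sqrt_le_sqrt (by linarith)
  unfold dd
  linarith

private lemma dd_le {K : ℝ} (hK : 0 ≤ K) (v : ℝ) : dd K v ≤ √K := by
  unfold dd
  rcases le_total 0 v with h | h
  · have h1 : √(v + K) ≤ √v + √K := by
      refine Real.sqrt_le_iff.2 ⟨by positivity, ?_⟩
      have h1 := Real.sq_sqrt h
      have h2 := Real.sq_sqrt hK
      have h3 := mul_nonneg (Real.sqrt_nonneg v) (Real.sqrt_nonneg K)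
      nlinarith
    linarith
  · rw [Real.sqrt_eq_zero_of_nonpos h, sub_zero]
    exact Real.sqrt_le_sqrt (by linarith)

private lemma dd_zero {K v : ℝ} (hK : 0 ≤ K) (h : v + K ≤ 0) : dd K v = 0 := by
  unfold dd
  rw [Real.sqrt_eq_zero_of_nonpos h, Real.sqrt_eq_zero_of_nonpos (by linarith), sub_zero]

private lemma dd_mono {K v w : ℝ} (h : v ≤ w) (hw : w ≤ 0) : dd K v ≤ dd K w := by
  unfold dd
  rw [Real.sqrt_eq_zero_of_nonpos hw, Real.sqrt_eq_zero_of_nonpos (h.trans hw)]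
  have h2 : √(v + K) ≤ √(w + K) := Real.sqrt_le_sqrt (by linarith)
  linarith

private lemma dd_anti {K v w : ℝ} (hK : 0 ≤ K) (hv : 0 ≤ v) (h : v ≤ w) : dd K w ≤ dd K v := by
  unfold dd
  have a2 := Real.sq_sqrt hv
  have b2 := Real.sq_sqrt (show 0 ≤ v + K by linarith)
  have c2 := Real.sq_sqrt (show 0 ≤ w by linarith)
  have d2 := Real.sq_sqrt (show 0 ≤ w + K by linarith)
  have ac : √v ≤ √w := Real.sqrt_le_sqrt h
  have bd : √(v + K) ≤ √(w + K) := Real.sqrt_le_sqrt (by linarith)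
  have ab : √v ≤ √(v + K) := Real.sqrt_le_sqrt (by linarith)
  have cd : √w ≤ √(w + K) := Real.sqrt_le_sqrt (by linarith)
  have a0 := Real.sqrt_nonneg v
  have b0 := Real.sqrt_nonneg (v + K)
  set a := √v
  set b := √(v + K)
  set c := √w
  set d := √(w + K)
  by_contra hc
  push Not at hc
  have e1 : (b - a) * (b + a) = (d - c) * (d + c) := by nlinarith
  rcases eq_or_lt_of_le (add_nonneg b0 a0) with h0 | h0
  · rw [← h0, mul_zero] at e1
    rcases mul_eq_zero.1 e1.symm with h2 | h2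
    · linarith
    · linarith
  · have e2 : (d - c) * (b + a) ≤ (d - c) * (d + c) :=
      mul_le_mul_of_nonneg_left (by linarith) (by linarith)
    have e3 : (b - a) * (b + a) < (d - c) * (b + a) := mul_lt_mul_of_pos_right hc h0
    linarith

private lemma dd_tail {K v u : ℝ} (hK : 0 ≤ K) (hv : 0 ≤ v) (hu0 : 0 < u) (hu : u = v ∨ u = v + K) :
    dd K v ≤ K * (√u)⁻¹ := by
  have s0 : 0 < √u := Real.sqrt_pos.2 hu0
  rw [← div_eq_mul_inv, le_div_iff₀ s0]
  have h0 := dd_nonneg hK v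
  have a2 := Real.sq_sqrt hv
  have b2 := Real.sq_sqrt (show 0 ≤ v + K by linarith)
  have e : dd K v * (√(v + K) + √v) = K := by
    unfold dd
    nlinarith
  have h1 : √u ≤ √(v + K) + √v := by
    rcases hu with hu | hu
    · rw [hu]
      have := Real.sqrt_nonneg (v + K)
      linarith
    · rw [hu]
      have := Real.sqrt_nonneg v
      linarith
  calc dd K v * √u ≤ dd K v * (√(v + K) + √v) := mul_le_mul_of_nonneg_left h1 h0
    _ = K := e

private lemma ln_pos_eq {K : ℝ} (hK : 0 ≤ K) (x : ℝ) : ln 1 K x = 2 * dd K (x ^ 3) := by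
  have h := dd_nonneg hK (x ^ 3)
  unfold dd at h ⊢
  unfold ln
  rw [one_mul, abs_of_nonneg h]

private lemma ln_neg_eq {K : ℝ} (hK : 0 ≤ K) (x : ℝ) : ln (-1) K x = 2 * dd K (x ^ 3 - K) := by
  have h := dd_nonneg hK (x ^ 3 - K)
  unfold dd at h ⊢
  rw [sub_add_cancel] at h ⊢
  unfold ln
  rw [abs_sub_comm, show x ^ 3 + -1 * K = x ^ 3 - K by ring, abs_of_nonneg h]

theorem ln_nonneg (σ K x : ℝ) : 0 ≤ ln σ K x := by
  unfold ln
  positivity

theorem ln_cont (σ K : ℝ) : Continuous (ln σ K) := by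
  unfold ln
  fun_prop

theorem ln_le {σ K : ℝ} (hσ : σ = 1 ∨ σ = -1) (hK : 0 ≤ K) (x : ℝ) : ln σ K x ≤ 2 * √K := by
  rcases hσ with rfl | rfl
  · rw [ln_pos_eq hK]
    have := dd_le hK (x ^ 3)
    linarith
  · rw [ln_neg_eq hK]
    have := dd_le hK (x ^ 3 - K)
    linarith

theorem ln_zero {σ K x : ℝ} (hσ : σ = 1 ∨ σ = -1) (hK : 0 ≤ K) (h : x ^ 3 ≤ -K) :
    ln σ K x = 0 := by
  rcases hσ with rfl | rfl
  · rw [ln_pos_eq hK, dd_zero hK (by linarith), mul_zero]
  · rw [ln_neg_eq hK, dd_zero hK (by linarith), mul_zero]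

theorem ln_uni {σ K : ℝ} (hσ : σ = 1 ∨ σ = -1) (hK : 0 ≤ K) :
    ∃ c : ℝ, (∀ x y, x ≤ y → y ≤ c → ln σ K x ≤ ln σ K y) ∧
      ∀ x y, c ≤ x → x ≤ y → ln σ K y ≤ ln σ K x := by
  rcases hσ with rfl | rfl
  · refine ⟨0, fun x y hxy hy => ?_, fun x y hx hxy => ?_⟩
    · rw [ln_pos_eq hK, ln_pos_eq hK]
      have h1 := cube_mono hxy
      have h2 := cube_mono hy
      have := dd_mono (K := K) h1 (by linarith)
      linarith
    · rw [ln_pos_eq hK, ln_pos_eq hK]
      have h1 := cube_mono hxy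
      have h2 := cube_mono hx
      have := dd_anti hK (show 0 ≤ x ^ 3 by linarith) h1
      linarith
  · have hc : (K ^ (1 / 3 : ℝ)) ^ 3 = K := by
      rw [← Real.rpow_natCast, ← Real.rpow_mul hK]
      norm_num
    refine ⟨K ^ (1 / 3 : ℝ), fun x y hxy hy => ?_, fun x y hx hxy => ?_⟩
    · rw [ln_neg_eq hK, ln_neg_eq hK]
      have h1 := cube_mono hxy
      have h2 := cube_mono hy
      have := dd_mono (K := K) (show x ^ 3 - K ≤ y ^ 3 - K by linarith) (by linarith)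
      linarith
    · rw [ln_neg_eq hK, ln_neg_eq hK]
      have h1 := cube_mono hxy
      have h2 := cube_mono hx
      have := dd_anti hK (show 0 ≤ x ^ 3 - K by linarith) (show x ^ 3 - K ≤ y ^ 3 - K by linarith)
      linarith

theorem ln_tail {σ K x : ℝ} (hσ : σ = 1 ∨ σ = -1) (hK : 0 ≤ K) (hx : 0 < x) (h : K ≤ x ^ 3) :
    ln σ K x ≤ 2 * K * x ^ (-(3 / 2) : ℝ) := by
  have hx3 : 0 < x ^ 3 := by positivity
  have e : x ^ (-(3 / 2) : ℝ) = (√(x ^ 3))⁻¹ := by
    rw [Real.rpow_neg hx.le, Real.sqrt_eq_rpow, ← Real.rpow_natCast x 3, ← Real.rpow_mul hx.le]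
    norm_num
  rw [e]
  rcases hσ with rfl | rfl
  · rw [ln_pos_eq hK]
    have := dd_tail hK hx3.le hx3 (Or.inl rfl)
    linarith
  · rw [ln_neg_eq hK]
    have := dd_tail hK (show 0 ≤ x ^ 3 - K by linarith) hx3 (Or.inr (by ring))
    linarith

end Pool.Agent.Work.MP_f2148a_nt.BM
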