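import Pool.Agent.Work.MP_f2148a_nt.BM.Kraus

/-!
# BM/MinU (size M): minimal pairs

* `exists_min`: take `u` maximal with `t = (u⁴ s.1, u⁶ s.2)`, `s ∈ Pm` (`u = 1` works; `u ^ 12` divides
  `t.2² - t.1³ ≠ 0`, so `u` is bounded), then `s ∈ Mn`: if `s = (v⁴ s'.1, v⁶ s'.2)`, `v ≥ 2`, then `u v` is larger.
* `min_unique`: replace `l` by `|l|` (even exponents), `l = p / q` in lowest terms, `p, q ≥ 1`: `q⁴ s'.1 = p⁴ s.1`,
  `q⁶ s'.2 = p⁶ s.2`; `q⁴ ∣ s.1`, `q⁶ ∣ s.2` (coprimality), `s = (q⁴ x, q⁶ y)`, `s' = (p⁴ x, p⁶ y)`; by `Pm_cop`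
  `(x, y) ∈ Pm`; minimality of `s` gives `q = 1`, minimality of `s'` gives `p = 1`.
* `scale_unique`: `min_unique` with `l = u / v`; then `u⁴ s.1 = v⁴ s.1`, `u⁶ s.2 = v⁶ s.2` and `s ≠ (0, 0)`.
-/

set_option autoImplicit false

namespace Pool.Agent.Work.MP_f2148a_nt.BM

theorem exists_min (t : ℤ × ℤ) (ht : t ∈ Pm) (h : t.2 ^ 2 ≠ t.1 ^ 3) :
    ∃ u : ℕ, 1 ≤ u ∧ ∃ s ∈ Mn, t = ((u : ℤ) ^ 4 * s.1, (u : ℤ) ^ 6 * s.2) := by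
  have key : ∀ (n : ℕ) (t : ℤ × ℤ), t ∈ Pm → t.2 ^ 2 ≠ t.1 ^ 3 → (t.2 ^ 2 - t.1 ^ 3).natAbs ≤ n →
      ∃ u : ℕ, 1 ≤ u ∧ ∃ s ∈ Mn, t = ((u : ℤ) ^ 4 * s.1, (u : ℤ) ^ 6 * s.2) := by
    intro n
    induction n with
    | zero =>
      intro t _ h hn
      exfalso
      have h1 : t.2 ^ 2 - t.1 ^ 3 = 0 := Int.natAbs_eq_zero.1 (Nat.le_zero.1 hn)
      exact h (sub_eq_zero.1 h1)
    | succ n ih =>
      intro t ht h hn
      by_cases hm : t ∈ Mn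
      · exact ⟨1, le_rfl, t, hm, by simp⟩
      · have h1 : ∃ u : ℕ, 2 ≤ u ∧ ∃ s ∈ Pm, t = ((u : ℤ) ^ 4 * s.1, (u : ℤ) ^ 6 * s.2) := by
          by_contra h2
          apply hm
          refine ⟨ht, h, fun u hu s hs he => h2 ⟨u, hu, s, hs, he⟩⟩
        obtain ⟨u, hu, s, hs, he⟩ := h1
        have e1 : t.2 ^ 2 - t.1 ^ 3 = (u : ℤ) ^ 12 * (s.2 ^ 2 - s.1 ^ 3) := by
          rw [he]
          ring
        have h3 : s.2 ^ 2 - s.1 ^ 3 ≠ 0 := by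
          intro h4
          rw [h4, mul_zero] at e1
          exact h (sub_eq_zero.1 e1)
        have h4 : (s.2 ^ 2 - s.1 ^ 3).natAbs ≤ n := by
          have h5 : (t.2 ^ 2 - t.1 ^ 3).natAbs = u ^ 12 * (s.2 ^ 2 - s.1 ^ 3).natAbs := by
            rw [e1, Int.natAbs_mul, Int.natAbs_pow, Int.natAbs_natCast]
          have h6 : 0 < (s.2 ^ 2 - s.1 ^ 3).natAbs := Int.natAbs_pos.2 h3
          have h7 : 2 ≤ u ^ 12 := hu.trans (Nat.le_self_pow (by norm_num) u)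
          have h8 : 2 * (s.2 ^ 2 - s.1 ^ 3).natAbs ≤ u ^ 12 * (s.2 ^ 2 - s.1 ^ 3).natAbs :=
            Nat.mul_le_mul_right _ h7
          omega
        obtain ⟨v, hv, r, hr, hre⟩ := ih s hs (fun h5 => h3 (sub_eq_zero.2 h5)) h4
        refine ⟨u * v, Nat.mul_pos (by omega) hv, r, hr, ?_⟩
        rw [he, hre]
        refine Prod.ext ?_ ?_
        · show (u : ℤ) ^ 4 * ((v : ℤ) ^ 4 * r.1) = ((u * v : ℕ) : ℤ) ^ 4 * r.1
          push_cast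
          ring
        · show (u : ℤ) ^ 6 * ((v : ℤ) ^ 6 * r.2) = ((u * v : ℕ) : ℤ) ^ 6 * r.2
          push_cast
          ring
  exact key _ t ht h le_rfl

theorem min_unique {s s' : ℤ × ℤ} (hs : s ∈ Mn) (hs' : s' ∈ Mn) {l : ℚ} (hl : l ≠ 0)
    (h1 : (s'.1 : ℚ) = l ^ 4 * (s.1 : ℚ)) (h2 : (s'.2 : ℚ) = l ^ 6 * (s.2 : ℚ)) : s = s' := by
  have hq0 : (l.den : ℤ) ≠ 0 := by exact_mod_cast l.den_nz
  have hqQ : (l.den : ℚ) ≠ 0 := by exact_mod_cast l.den_nz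
  have hp0 : l.num ≠ 0 := Rat.num_ne_zero.2 hl
  have hcop : IsCoprime l.num (l.den : ℤ) := by
    rw [Int.isCoprime_iff_gcd_eq_one]
    exact l.reduced
  have hlq : l * (l.den : ℚ) = (l.num : ℚ) := Rat.mul_den_eq_num l
  have e1 : (l.den : ℤ) ^ 4 * s'.1 = l.num ^ 4 * s.1 := by
    have h3 : ((l.den : ℚ)) ^ 4 * (s'.1 : ℚ) = (l.num : ℚ) ^ 4 * (s.1 : ℚ) := by
      rw [h1, ← hlq]
      ring
    exact_mod_cast h3
  have e2 : (l.den : ℤ) ^ 6 * s'.2 = l.num ^ 6 * s.2 := by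
    have h3 : ((l.den : ℚ)) ^ 6 * (s'.2 : ℚ) = (l.num : ℚ) ^ 6 * (s.2 : ℚ) := by
      rw [h2, ← hlq]
      ring
    exact_mod_cast h3
  have hc4 : IsCoprime ((l.den : ℤ) ^ 4) (l.num ^ 4) := (hcop.symm.pow)
  have hc6 : IsCoprime ((l.den : ℤ) ^ 6) (l.num ^ 6) := (hcop.symm.pow)
  obtain ⟨x, hx⟩ : (l.den : ℤ) ^ 4 ∣ s.1 := hc4.dvd_of_dvd_mul_left ⟨s'.1, e1.symm⟩
  obtain ⟨y, hy⟩ : (l.den : ℤ) ^ 6 ∣ s.2 := hc6.dvd_of_dvd_mul_left ⟨s'.2, e2.symm⟩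
  have f1 : s'.1 = l.num ^ 4 * x := by
    have h3 : (l.den : ℤ) ^ 4 * s'.1 = (l.den : ℤ) ^ 4 * (l.num ^ 4 * x) := by
      rw [e1, hx]
      ring
    exact mul_left_cancel₀ (pow_ne_zero 4 hq0) h3
  have f2 : s'.2 = l.num ^ 6 * y := by
    have h3 : (l.den : ℤ) ^ 6 * s'.2 = (l.den : ℤ) ^ 6 * (l.num ^ 6 * y) := by
      rw [e2, hy]
      ring
    exact mul_left_cancel₀ (pow_ne_zero 6 hq0) h3
  have g1 : s = ((l.den : ℤ) ^ 4 * x, (l.den : ℤ) ^ 6 * y) := Prod.ext hx hy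
  have g2 : s' = (l.num ^ 4 * x, l.num ^ 6 * y) := Prod.ext f1 f2
  have hxy : (x, y) ∈ Pm := by
    refine Pm_cop hcop x y ?_ ?_
    · rw [← g2]
      exact hs'.1
    · rw [← g1]
      exact hs.1
  have hq : l.den = 1 := by
    by_contra h3
    have h4 : 2 ≤ l.den := by
      have := l.den_pos
      omega
    exact hs.2.2 l.den h4 (x, y) hxy g1
  have hp : l.num.natAbs = 1 := by
    by_contra h3
    have h4 : 2 ≤ l.num.natAbs := by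
      have := Int.natAbs_pos.2 hp0
      omega
    refine hs'.2.2 l.num.natAbs h4 (x, y) hxy ?_
    rw [g2]
    have h5 : ((l.num.natAbs : ℕ) : ℤ) ^ 2 = l.num ^ 2 := by
      rw [Int.natCast_natAbs, sq_abs]
    have h6 : ((l.num.natAbs : ℕ) : ℤ) ^ 4 = l.num ^ 4 := by
      calc ((l.num.natAbs : ℕ) : ℤ) ^ 4 = (((l.num.natAbs : ℕ) : ℤ) ^ 2) ^ 2 := by ring
        _ = l.num ^ 4 := by rw [h5]; ring
    have h7 : ((l.num.natAbs : ℕ) : ℤ) ^ 6 = l.num ^ 6 := by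
      calc ((l.num.natAbs : ℕ) : ℤ) ^ 6 = (((l.num.natAbs : ℕ) : ℤ) ^ 2) ^ 3 := by ring
        _ = l.num ^ 6 := by rw [h5]; ring
    rw [h6, h7]
  have hp2 : l.num ^ 2 = 1 := by
    rw [← sq_abs, ← Int.natCast_natAbs, hp]
    norm_num
  have hp4 : l.num ^ 4 = 1 := by
    calc l.num ^ 4 = (l.num ^ 2) ^ 2 := by ring
      _ = 1 := by rw [hp2]; norm_num
  have hp6 : l.num ^ 6 = 1 := by
    calc l.num ^ 6 = (l.num ^ 2) ^ 3 := by ring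
      _ = 1 := by rw [hp2]; norm_num
  rw [g1, g2, hq, hp4, hp6]
  norm_num

theorem scale_unique {s s' : ℤ × ℤ} (hs : s ∈ Mn) (hs' : s' ∈ Mn) {u v : ℕ} (hu : 1 ≤ u)
    (hv : 1 ≤ v) (h : ((u : ℤ) ^ 4 * s.1, (u : ℤ) ^ 6 * s.2) = ((v : ℤ) ^ 4 * s'.1, (v : ℤ) ^ 6 * s'.2)) :
    u = v ∧ s = s' := by
  have h1 : (u : ℤ) ^ 4 * s.1 = (v : ℤ) ^ 4 * s'.1 := congrArg Prod.fst h
  have h2 : (u : ℤ) ^ 6 * s.2 = (v : ℤ) ^ 6 * s'.2 := congrArg Prod.snd h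
  have hu0 : (u : ℚ) ≠ 0 := by
    have : u ≠ 0 := by omega
    exact_mod_cast this
  have hv0 : (v : ℚ) ≠ 0 := by
    have : v ≠ 0 := by omega
    exact_mod_cast this
  have hss : s = s' := by
    refine min_unique hs hs' (l := (u : ℚ) / v) (div_ne_zero hu0 hv0) ?_ ?_
    · have h3 : (u : ℚ) ^ 4 * (s.1 : ℚ) = (v : ℚ) ^ 4 * (s'.1 : ℚ) := by exact_mod_cast h1
      rw [div_pow, div_mul_eq_mul_div, eq_div_iff (pow_ne_zero 4 hv0), h3, mul_comm]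
    · have h3 : (u : ℚ) ^ 6 * (s.2 : ℚ) = (v : ℚ) ^ 6 * (s'.2 : ℚ) := by exact_mod_cast h2
      rw [div_pow, div_mul_eq_mul_div, eq_div_iff (pow_ne_zero 6 hv0), h3, mul_comm]
  refine ⟨?_, hss⟩
  subst hss
  by_cases h3 : s.1 = 0
  · have h4 : s.2 ≠ 0 := by
      intro h5
      apply hs.2.1
      rw [h3, h5]
      norm_num
    have h5 : (u : ℤ) ^ 6 = (v : ℤ) ^ 6 := mul_right_cancel₀ h4 h2
    have h6 : u ^ 6 = v ^ 6 := by exact_mod_cast h5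
    exact Nat.pow_left_injective (by norm_num : (6 : ℕ) ≠ 0) h6
  · have h5 : (u : ℤ) ^ 4 = (v : ℤ) ^ 4 := mul_right_cancel₀ h3 h1
    have h6 : u ^ 4 = v ^ 4 := by exact_mod_cast h5
    exact Nat.pow_left_injective (by norm_num : (4 : ℕ) ≠ 0) h6

end Pool.Agent.Work.MP_f2148a_nt.BM
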