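import Pool.Agent.Work.MP_f2148a_nt.BM.Defs

/-!
# BM/NF (size M): normal forms of integral Weierstrass equations

`I12` = the 12 triples `(a₁, a₂, a₃)` with `a₁, a₃ ∈ {0, 1}`, `a₂ ∈ {-1, 0, 1}`; `b2 i = b₂`, `x0 i = b₂² - 24 a₁ a₃`, and
`c₄ = x0 i - 48 a₄`, `c₆ = -b₂³ + 36 b₂ (a₁ a₃ + 2 a₄) - 216 a₃² - 864 a₆`.
* `mem_Pm`, from left to right: a variable change `(1, r, s, t)` over `ℤ` does not change `c₄`, `c₆`
  (`variableChange_c₄`, `variableChange_c₆`); choose `s` with `a₁ + 2 s ∈ {0, 1}`, then `r` with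
  `a₂ - s a₁ + 3 r - s² ∈ {-1, 0, 1}`, then `t` with `a₃ + r a₁ + 2 t ∈ {0, 1}`. From right to left: put
  `a₄ = (x0 i - t.1) / 48` (exact), `a₆` from the second divisibility.
* `disj`: 12 * 12 cases; `t.1 ≡ x0 i mod 48` leaves few cases, `(x0 i - t.1) / 48` is then an explicit integer `k` with
  `t.1 = x0 i - 48 k`, and the second divisibilities are contradictory modulo 72 or 864 (`omega` after `obtain`
  of the quotients; `b₂` is a numeral in each case).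
-/

set_option autoImplicit false

namespace Pool.Agent.Work.MP_f2148a_nt.BM

/-- the triples `(a₁, a₂, a₃)` of the normal forms -/
def I12 : Finset (ℤ × ℤ × ℤ) :=
  ({0, 1} : Finset ℤ) ×ˢ (({-1, 0, 1} : Finset ℤ) ×ˢ ({0, 1} : Finset ℤ))

/-- `b₂` -/
def b2 (i : ℤ × ℤ × ℤ) : ℤ := i.1 ^ 2 + 4 * i.2.1

/-- `c₄` for `a₄ = 0` -/
def x0 (i : ℤ × ℤ × ℤ) : ℤ := b2 i ^ 2 - 24 * (i.1 * i.2.2)

/-- `c₆` for `a₆ = 0` as a function of `c₄` -/
def gf (i : ℤ × ℤ × ℤ) (x : ℤ) : ℤ :=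
  -b2 i ^ 3 + 36 * b2 i * (i.1 * i.2.2 + 2 * ((x0 i - x) / 48)) - 216 * i.2.2 ^ 2

theorem card_I12 : I12.card = 12 := by
  decide

private theorem gf_eq (a1 a2 a3 a4 x : ℤ) (hx : x = x0 (a1, a2, a3) - 48 * a4) :
    gf (a1, a2, a3) x =
      -b2 (a1, a2, a3) ^ 3 + 36 * b2 (a1, a2, a3) * (a1 * a3 + 2 * a4) - 216 * a3 ^ 2 := by
  have h : (x0 (a1, a2, a3) - x) / 48 = a4 := by
    have : x0 (a1, a2, a3) - x = 48 * a4 := by rw [hx]; ring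
    rw [this]
    exact Int.mul_ediv_cancel_left _ (by norm_num)
  unfold gf
  rw [h]

private theorem mem_I12_of (a b c : ℤ) (ha : a = 0 ∨ a = 1) (hb : b = -1 ∨ b = 0 ∨ b = 1)
    (hc : c = 0 ∨ c = 1) : (a, b, c) ∈ I12 := by
  unfold I12
  simp only [Finset.mem_product, Finset.mem_insert, Finset.mem_singleton]
  exact ⟨ha, hb, hc⟩

theorem mem_Pm (t : ℤ × ℤ) :
    t ∈ Pm ↔ ∃ i ∈ I12, (48 : ℤ) ∣ t.1 - x0 i ∧ (864 : ℤ) ∣ t.2 - gf i t.1 := by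
  constructor
  · rintro ⟨W, h4, h6⟩
    obtain ⟨x, y⟩ := t
    simp only at h4 h6
    obtain ⟨a1, a2, a3, a4, a6⟩ := W
    set s : ℤ := -(a1 / 2) with hs
    set r : ℤ := -((a2 - s * a1 - s ^ 2 + 1) / 3) with hr
    set u : ℤ := -((a3 + r * a1) / 2) with hu
    set A1 : ℤ := a1 + 2 * s with hA1
    set A2 : ℤ := a2 - s * a1 - s ^ 2 + 3 * r with hA2
    set A3 : ℤ := a3 + r * a1 + 2 * u with hA3
    set A4 : ℤ := a4 - s * a3 + 2 * r * a2 - (u + r * s) * a1 + 3 * r ^ 2 - 2 * s * u with hA4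
    set A6 : ℤ := a6 + r * a4 + r ^ 2 * a2 + r ^ 3 - u * a3 - u ^ 2 - r * u * a1 with hA6
    have e1 : A1 = 0 ∨ A1 = 1 := by omega
    have e2 : A2 = -1 ∨ A2 = 0 ∨ A2 = 1 := by omega
    have e3 : A3 = 0 ∨ A3 = 1 := by omega
    have hx : x = x0 (A1, A2, A3) - 48 * A4 := by
      rw [← h4]
      simp only [WeierstrassCurve.c₄, WeierstrassCurve.b₂, WeierstrassCurve.b₄, x0, b2]
      rw [hA1, hA2, hA3, hA4]
      ring
    have hy : y = (-b2 (A1, A2, A3) ^ 3 + 36 * b2 (A1, A2, A3) * (A1 * A3 + 2 * A4)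
        - 216 * A3 ^ 2) - 864 * A6 := by
      rw [← h6]
      simp only [WeierstrassCurve.c₆, WeierstrassCurve.b₂, WeierstrassCurve.b₄,
        WeierstrassCurve.b₆, b2]
      rw [hA1, hA2, hA3, hA4, hA6]
      ring
    refine ⟨(A1, A2, A3), mem_I12_of _ _ _ e1 e2 e3, ⟨-A4, ?_⟩, ⟨-A6, ?_⟩⟩
    · simp only
      rw [hx]; ring
    · simp only
      rw [gf_eq A1 A2 A3 A4 x hx, hy]; ring
  · rintro ⟨⟨a1, a2, a3⟩, -, ⟨k, hk⟩, ⟨l, hl⟩⟩
    obtain ⟨x, y⟩ := t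
    simp only at hk hl
    have hx : x = x0 (a1, a2, a3) - 48 * (-k) := by linarith
    rw [gf_eq a1 a2 a3 (-k) x hx] at hl
    refine ⟨⟨a1, a2, a3, -k, -l⟩, ?_, ?_⟩
    · simp only [WeierstrassCurve.c₄, WeierstrassCurve.b₂, WeierstrassCurve.b₄]
      rw [hx]
      simp only [x0, b2]
      ring
    · simp only [WeierstrassCurve.c₆, WeierstrassCurve.b₂, WeierstrassCurve.b₄,
        WeierstrassCurve.b₆]
      simp only [b2] at hl
      linear_combination -hl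

theorem disj (t : ℤ × ℤ) {i j : ℤ × ℤ × ℤ} (hi : i ∈ I12) (hj : j ∈ I12)
    (h1 : (48 : ℤ) ∣ t.1 - x0 i) (h2 : (864 : ℤ) ∣ t.2 - gf i t.1)
    (h3 : (48 : ℤ) ∣ t.1 - x0 j) (h4 : (864 : ℤ) ∣ t.2 - gf j t.1) : i = j := by
  obtain ⟨x, y⟩ := t
  obtain ⟨a1, a2, a3⟩ := i
  obtain ⟨c1, c2, c3⟩ := j
  obtain ⟨k, hk⟩ := h1
  obtain ⟨l, hl⟩ := h3
  simp only at hk hl h2 h4
  have hx : x = x0 (a1, a2, a3) - 48 * (-k) := by linarith
  have hx' : x = x0 (c1, c2, c3) - 48 * (-l) := by linarith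
  rw [gf_eq a1 a2 a3 (-k) x hx] at h2
  rw [gf_eq c1 c2 c3 (-l) x hx'] at h4
  clear hk hl
  unfold I12 at hi hj
  simp only [Finset.mem_product, Finset.mem_insert, Finset.mem_singleton] at hi hj
  obtain ⟨m, hm⟩ := h2
  obtain ⟨n, hn⟩ := h4
  obtain ⟨hi1, hi2, hi3⟩ := hi
  obtain ⟨hj1, hj2, hj3⟩ := hj
  rcases hi1 with rfl | rfl <;> rcases hi2 with rfl | rfl | rfl <;> rcases hi3 with rfl | rfl <;>
    rcases hj1 with rfl | rfl <;> rcases hj2 with rfl | rfl | rfl <;> rcases hj3 with rfl | rfl <;>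
    first
    | rfl
    | (exfalso
       norm_num [x0, b2] at hx hx' hm hn
       omega)

end Pool.Agent.Work.MP_f2148a_nt.BM
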