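import Pool.Agent.Work.MP_f2148a_nt.BM.VolSA

/-!
# BM/VolSB (size M): the area

`ar σ = ∫ ln σ 1`: Fubini (`MeasureTheory.Measure.prod_apply`, the set is closed); the fibre over `x` is
`{y | 0 ≤ σ (y ^ 2 - x ^ 3) ≤ 1}`. `σ = 1`: `{√(x ^ 3) ≤ |y| ≤ √(x ^ 3 + 1)}` for `x ^ 3 + 1 ≥ 0`, empty otherwise.
`σ = -1`: `{√(x ^ 3 - 1) ≤ |y| ≤ √(x ^ 3)}` for `x ^ 3 ≥ 0`, empty otherwise. The volume of `{a ≤ |y| ≤ b}`
is `2 (b - a)` for `0 ≤ a ≤ b`. The file `As/VolB.lean` is a model.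
-/

set_option autoImplicit false

namespace Pool.Agent.Work.MP_f2148a_nt.BM

open MeasureTheory

private theorem vol_ring {a b : ℝ} (ha : 0 ≤ a) (hab : a ≤ b) :
    volume {y : ℝ | a ≤ |y| ∧ |y| ≤ b} = ENNReal.ofReal (2 * (b - a)) := by
  have h1 : {y : ℝ | a ≤ |y| ∧ |y| ≤ b} = Set.Icc (-b) b \ Set.Ioo (-a) a := by
    ext y
    simp only [Set.mem_ofPred_eq, Set.mem_sdiff, Set.mem_Icc, Set.mem_Ioo, ← abs_lt, ← abs_le,
      not_lt]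
    tauto
  have h2 : Set.Ioo (-a) a ⊆ Set.Icc (-b) b := fun y hy =>
    ⟨by linarith [hy.1], by linarith [hy.2]⟩
  rw [h1, measure_sdiff h2 measurableSet_Ioo.nullMeasurableSet (by simp), Real.volume_Icc,
    Real.volume_Ioo, ← ENNReal.ofReal_sub _ (by linarith)]
  congr 1
  ring

private theorem vol_sq {a b : ℝ} (hab : a ≤ b) :
    volume {y : ℝ | a ≤ y ^ 2 ∧ y ^ 2 ≤ b} = ENNReal.ofReal (2 * (√b - √a)) := by
  rcases lt_or_ge b 0 with h | h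
  · have h1 : {y : ℝ | a ≤ y ^ 2 ∧ y ^ 2 ≤ b} = ∅ := by
      ext y
      simp only [Set.mem_ofPred_eq, Set.mem_empty_iff_false, iff_false, not_and, not_le]
      intro _
      nlinarith [sq_nonneg y]
    rw [h1, measure_empty, Real.sqrt_eq_zero_of_nonpos h.le,
      Real.sqrt_eq_zero_of_nonpos (by linarith)]
    simp
  · have h1 : {y : ℝ | a ≤ y ^ 2 ∧ y ^ 2 ≤ b} = {y : ℝ | √a ≤ |y| ∧ |y| ≤ √b} := by
      ext y
      simp only [Set.mem_ofPred_eq]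
      rw [Real.sqrt_le_iff, sq_abs, Real.le_sqrt (abs_nonneg y), sq_abs]
      · constructor
        · rintro ⟨h2, h3⟩
          exact ⟨⟨abs_nonneg y, h2⟩, h3⟩
        · rintro ⟨⟨_, h2⟩, h3⟩
          exact ⟨h2, h3⟩
      · exact h
    rw [h1]
    exact vol_ring (Real.sqrt_nonneg _) (Real.sqrt_le_sqrt hab)

private theorem vol_fib {σ : ℝ} (hσ : σ = 1 ∨ σ = -1) (x : ℝ) :
    volume {y : ℝ | 0 ≤ σ * (y ^ 2 - x ^ 3) ∧ σ * (y ^ 2 - x ^ 3) ≤ 1} =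
      ENNReal.ofReal (ln σ 1 x) := by
  unfold ln
  rcases hσ with rfl | rfl
  · have h1 : {y : ℝ | 0 ≤ 1 * (y ^ 2 - x ^ 3) ∧ 1 * (y ^ 2 - x ^ 3) ≤ 1} =
        {y : ℝ | x ^ 3 ≤ y ^ 2 ∧ y ^ 2 ≤ x ^ 3 + 1 * 1} := by
      ext y
      simp only [Set.mem_ofPred_eq]
      constructor
      · rintro ⟨h2, h3⟩
        exact ⟨by linarith, by linarith⟩
      · rintro ⟨h2, h3⟩
        exact ⟨by linarith, by linarith⟩
    have h2 : √(x ^ 3) ≤ √(x ^ 3 + 1 * 1) := Real.sqrt_le_sqrt (by linarith)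
    rw [h1, vol_sq (by linarith), abs_of_nonneg (by linarith)]
  · have h1 : {y : ℝ | 0 ≤ -1 * (y ^ 2 - x ^ 3) ∧ -1 * (y ^ 2 - x ^ 3) ≤ 1} =
        {y : ℝ | x ^ 3 + -1 * 1 ≤ y ^ 2 ∧ y ^ 2 ≤ x ^ 3} := by
      ext y
      simp only [Set.mem_ofPred_eq]
      constructor
      · rintro ⟨h2, h3⟩
        exact ⟨by linarith, by linarith⟩
      · rintro ⟨h2, h3⟩
        exact ⟨by linarith, by linarith⟩
    have h2 : √(x ^ 3 + -1 * 1) ≤ √(x ^ 3) := Real.sqrt_le_sqrt (by linarith)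
    rw [h1, vol_sq (by linarith), abs_sub_comm, abs_of_nonneg (by linarith)]

theorem ar_eq {σ : ℝ} (hσ : σ = 1 ∨ σ = -1) : ar σ = ∫ x, ln σ 1 x := by
  have hm : MeasurableSet {p : ℝ × ℝ | 0 ≤ σ * (p.2 ^ 2 - p.1 ^ 3) ∧
      σ * (p.2 ^ 2 - p.1 ^ 3) ≤ 1} := by
    refine IsClosed.measurableSet ?_
    refine IsClosed.and (isClosed_le continuous_const ?_) (isClosed_le ?_ continuous_const)
    · fun_prop
    · fun_prop
  have h1 : volume {p : ℝ × ℝ | 0 ≤ σ * (p.2 ^ 2 - p.1 ^ 3) ∧ σ * (p.2 ^ 2 - p.1 ^ 3) ≤ 1} =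
      ∫⁻ x, ENNReal.ofReal (ln σ 1 x) := by
    rw [Measure.volume_eq_prod, Measure.prod_apply hm]
    refine lintegral_congr fun x => ?_
    rw [← vol_fib hσ]
    rfl
  rw [integral_eq_lintegral_of_nonneg_ae (Filter.Eventually.of_forall (ln_nonneg σ 1))
    (ln_cont σ 1).aestronglyMeasurable, ar, h1]

theorem ar_pos {σ : ℝ} (hσ : σ = 1 ∨ σ = -1) : 0 < ar σ := by
  rw [ar_eq hσ]
  exact ln_pos hσ

theorem integral_ln {σ K : ℝ} (hσ : σ = 1 ∨ σ = -1) (hK : 0 < K) :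
    ∫ x, ln σ K x = ar σ * K ^ (5 / 6 : ℝ) := by
  rw [ar_eq hσ]
  exact ln_scale hσ hK

end Pool.Agent.Work.MP_f2148a_nt.BM
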