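import Pool.Agent.Work.MP_f2148a_nt.BM.Fibq
import Pool.Agent.Work.MP_f2148a_nt.BM.VolSB
import Pool.Agent.Work.MP_f2148a_nt.As.Uni

/-!
# BM/Smallq (size M-L): the pairs of a class with `x ≤ X`

The file `As/Small.lean` is a model (class modulo 1). Put `a0 = ⌈K ^ (1 / 3)⌉ + 1`, so `K < a0 ^ 3`, `a0 ≤ X + 1`.
* every `t` in the set has `t.1 > -a0` (`σ = 1`: `t.1 ^ 3 ≥ t.2 ^ 2 - K ≥ -K`; `σ = -1`: `t.1 ^ 3 > t.2 ^ 2 ≥ 0`).
* `t.1 = a + m j`, and `-a0 < a + m j ≤ X` iff `j ∈ Ioc A B`, `A = (-a0 - a) / m`, `B = (X - a) / m` (integer division,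
  `m > 0`; `Int.floor` facts or `Int.ediv_lt_iff_lt_mul`, `Int.le_ediv_iff_mul_le`), and
  `B - A ≤ (X + a0) / m + 1 ≤ 2 X + 2 ≤ 4 X`.
* the set is the disjoint union over `j ∈ Ioc A B` of the fibres of `fibq` (with `x = a + m j`, `b = g (a + m j)`), so
  `|# - ∑ ln σ K (a + m j) / n| ≤ 4 (4 X) = 16 X`.
* `As.sum_int` for `f s = ln σ K (a + m s)` (unimodal with the point `(c - a) / m`, `≤ M = 2 √K`, continuous):
  `|∑_{j ∈ Ioc A B} f j - ∫ s in A..B, f s| ≤ 4 √K`.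
* `∫ s in A..B, f s = (1 / m) ∫ x in (a + m A)..(a + m B), ln σ K x` (`intervalIntegral.integral_comp_add_mul` or
  `mul_add`), `a + m A ≤ -a0` and `ln = 0` on `Iic (-a0)` (`ln_zero`), `X - m < a + m B ≤ X`; so it is
  `(1 / m) (ar σ K ^ (5 / 6) - ∫ over Ioi (a + m B))`, and
  `0 ≤ ∫ over Ioi (a + m B) ≤ m (2 √K) + 4 K X ^ (-1 / 2)` (`ln_le` on `(a + m B, X]`, `tail_ln`).
* total error `≤ 16 X + 4 √K + 2 √K + 4 K X ^ (-1 / 2)`.
-/

set_option autoImplicit false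

namespace Pool.Agent.Work.MP_f2148a_nt.BM

open MeasureTheory

private theorem cube_root {K : ℝ} (hK : 0 ≤ K) : (K ^ (1 / 3 : ℝ)) ^ 3 = K := by
  rw [← Real.rpow_natCast, ← Real.rpow_mul hK]
  norm_num

private theorem cube_le {x y : ℝ} (h : x ≤ y) : x ^ 3 ≤ y ^ 3 :=
  (Odd.strictMono_pow (by decide : Odd 3)).monotone h

private theorem cube_lt {x y : ℝ} (h : x < y) : x ^ 3 < y ^ 3 :=
  (Odd.strictMono_pow (by decide : Odd 3)) h

/-- the number of pairs as a sum over the fibres -/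
private theorem fibres {σ K : ℝ} (hσ : σ = 1 ∨ σ = -1) (hK : 0 ≤ K) (m n : ℕ) (hm : 0 < m)
    (hn : 0 < n) (a : ℤ) (g : ℤ → ℤ) (a0 X : ℤ) (ha : K < (a0 : ℝ) ^ 3) :
    {t : ℤ × ℤ | t ∈ cl σ K m n a g ∧ (t.1 : ℝ) ≤ X}.Finite ∧
    {t : ℤ × ℤ | t ∈ cl σ K m n a g ∧ (t.1 : ℝ) ≤ X}.ncard =
      ∑ j ∈ Finset.Ioc ((-a0 - a) / (m : ℤ)) ((X - a) / (m : ℤ)),
        {y : ℤ | (0 < σ * ((y : ℝ) ^ 2 - ((a + m * j : ℤ) : ℝ) ^ 3) ∧
          σ * ((y : ℝ) ^ 2 - ((a + m * j : ℤ) : ℝ) ^ 3) ≤ K) ∧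
          (n : ℤ) ∣ y - g (a + m * j)}.ncard := by
  classical
  have hmZ : (0 : ℤ) < m := by exact_mod_cast hm
  have e : {t : ℤ × ℤ | t ∈ cl σ K m n a g ∧ (t.1 : ℝ) ≤ X} =
      (((Finset.Ioc ((-a0 - a) / (m : ℤ)) ((X - a) / (m : ℤ))).biUnion fun j =>
        ((fibq hσ hK (a + m * j) n hn (g (a + m * j))).1.toFinset).image
          fun y => (a + m * j, y) : Finset (ℤ × ℤ)) : Set (ℤ × ℤ)) := by
    ext ⟨x, y⟩
    simp only [cl, rg, Set.mem_ofPred_eq, Finset.coe_biUnion, Finset.coe_image, Set.mem_iUnion,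
      Set.mem_image, Finset.mem_coe, Finset.mem_Ioc, Set.Finite.mem_toFinset, Prod.mk.injEq]
    constructor
    · rintro ⟨⟨⟨h1, h1'⟩, ⟨j, hj⟩, h3⟩, h2⟩
      have hx : x = a + m * j := by linarith
      subst hx
      refine ⟨j, ⟨?_, ?_⟩, y, ⟨⟨h1, h1'⟩, h3⟩, rfl, rfl⟩
      · rw [Int.ediv_lt_iff_lt_mul hmZ]
        by_contra hc
        have hc1 : a + m * j ≤ -a0 := by
          have := not_lt.1 hc
          rw [mul_comm] at this
          linarith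
        have hc' : ((a + m * j : ℤ) : ℝ) ≤ ((-a0 : ℤ) : ℝ) := by exact_mod_cast hc1
        have h4 := cube_le hc'
        have h5 : (((-a0 : ℤ) : ℤ) : ℝ) ^ 3 = -(a0 : ℝ) ^ 3 := by push_cast; ring
        rw [h5] at h4
        have h6 : 0 ≤ (y : ℝ) ^ 2 := sq_nonneg _
        rcases hσ with rfl | rfl
        · rw [one_mul] at h1'
          linarith
        · linarith
      · rw [Int.le_ediv_iff_mul_le hmZ]
        have h4 : a + m * j ≤ X := by exact_mod_cast h2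
        rw [mul_comm]
        linarith
    · rintro ⟨j, ⟨-, h1⟩, y', ⟨h3, h3'⟩, rfl, rfl⟩
      rw [Int.le_ediv_iff_mul_le hmZ] at h1
      refine ⟨⟨h3, ⟨j, by ring⟩, h3'⟩, ?_⟩
      have h4 : a + m * j ≤ X := by
        rw [mul_comm] at h1
        linarith
      exact_mod_cast h4
  rw [e]
  refine ⟨Finset.finite_toSet _, ?_⟩
  rw [Set.ncard_coe_finset, Finset.card_biUnion]
  · refine Finset.sum_congr rfl fun j _ => ?_
    rw [Finset.card_image_of_injective _ (fun y y' h => (Prod.mk.inj h).2)]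
    exact (Set.ncard_eq_toFinset_card _
      (fibq hσ hK (a + m * j) n hn (g (a + m * j))).1).symm
  · intro j _ j' _ hne
    refine Finset.disjoint_left.2 fun t ht ht' => ?_
    obtain ⟨y, -, rfl⟩ := Finset.mem_image.1 ht
    obtain ⟨y', -, h⟩ := Finset.mem_image.1 ht'
    have h1 := (Prod.mk.inj h).1
    have h2 : (m : ℤ) * j' = m * j := by linarith
    exact hne (mul_left_cancel₀ hmZ.ne' h2).symm

/-- sum and integral of `ln` over a progression -/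
private theorem sum_ln {σ K : ℝ} (hσ : σ = 1 ∨ σ = -1) (hK : 0 ≤ K) (m : ℕ) (hm : 0 < m)
    (a A B : ℤ) (hAB : A ≤ B) :
    |∑ j ∈ Finset.Ioc A B, ln σ K ((a + m * j : ℤ) : ℝ) -
      (m : ℝ)⁻¹ * ∫ x in ((a : ℝ) + m * A)..((a : ℝ) + m * B), ln σ K x| ≤ 4 * √K := by
  have hm0 : (0 : ℝ) < m := by exact_mod_cast hm
  obtain ⟨c, hc1, hc2⟩ := ln_uni hσ hK
  have key := As.sum_int (f := fun s => ln σ K ((a : ℝ) + m * s)) (c := (c - a) / m)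
    (M := 2 * √K) (fun x => ln_nonneg _ _ _) (fun x => ln_le hσ hK _)
    (fun x y hxy hy => hc1 _ _ (by nlinarith) (by
      rw [le_div_iff₀ hm0] at hy
      linarith))
    (fun x y hx hxy => hc2 _ _ (by
      rw [div_le_iff₀ hm0] at hx
      linarith) (by nlinarith))
    ((ln_cont σ K).comp (by fun_prop)) A B hAB
  rw [intervalIntegral.integral_comp_add_mul (fun x => ln σ K x) hm0.ne' (a : ℝ), smul_eq_mul]
    at key
  have e : ∀ j : ℤ, ln σ K ((a + m * j : ℤ) : ℝ) = ln σ K ((a : ℝ) + m * (j : ℝ)) := by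
    intro j; push_cast; rfl
  rw [Finset.sum_congr rfl fun j _ => e j]
  linarith

/-- the integral up to `P` -/
private theorem int_ln {σ K : ℝ} (hσ : σ = 1 ∨ σ = -1) (hK : 1 ≤ K) {N P X D : ℝ}
    (hN : N ^ 3 ≤ -K) (hNP : N ≤ P) (hPX : P ≤ X) (hD : X - P ≤ D) (hX0 : 0 < X)
    (hX : K ≤ X ^ 3) :
    |(∫ x in N..P, ln σ K x) - ar σ * K ^ (5 / 6 : ℝ)| ≤
      D * (2 * √K) + 4 * K * X ^ (-(1 / 2) : ℝ) := by
  have hK0 : 0 ≤ K := zero_le_one.trans hK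
  have hint := ln_integrable hσ hK0
  have e3 : ∫ x in N..P, ln σ K x =
      ar σ * K ^ (5 / 6 : ℝ) - ∫ x in Set.Ioi P, ln σ K x := by
    rw [← integral_ln hσ (zero_lt_one.trans_le hK), ← intervalIntegral.integral_Iic_add_Ioi
      (b := N) hint.integrableOn hint.integrableOn,
      ← intervalIntegral.integral_interval_add_Ioi (a := N) (b := P)
      hint.integrableOn hint.integrableOn, setIntegral_eq_zero_of_forall_eq_zero]
    · ring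
    · intro x hx
      exact ln_zero hσ hK0 ((cube_le (Set.mem_Iic.1 hx)).trans hN)
  have e4 : ∫ x in Set.Ioi P, ln σ K x =
      (∫ x in P..X, ln σ K x) + ∫ x in Set.Ioi X, ln σ K x :=
    (intervalIntegral.integral_interval_add_Ioi hint.integrableOn hint.integrableOn).symm
  have e5 : 0 ≤ ∫ x in P..X, ln σ K x :=
    intervalIntegral.integral_nonneg hPX fun x _ => ln_nonneg σ K x
  have e6 : 0 ≤ ∫ x in Set.Ioi X, ln σ K x := integral_nonneg fun x => ln_nonneg σ K x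
  have e7 : ∫ x in Set.Ioi X, ln σ K x ≤ 4 * K * X ^ (-(1 / 2) : ℝ) := tail_ln hσ hK0 hX0 hX
  have e8 : ∫ x in P..X, ln σ K x ≤ D * (2 * √K) := by
    have h1 : ∫ x in P..X, ln σ K x ≤ ∫ _ in P..X, 2 * √K :=
      intervalIntegral.integral_mono_on hPX ((ln_cont σ K).intervalIntegrable _ _)
        (by simp) fun x _ => ln_le hσ hK0 x
    rw [intervalIntegral.integral_const, smul_eq_mul] at h1
    have h2 : 0 ≤ 2 * √K := by positivity
    nlinarith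
  rw [e3, e4, abs_le]
  constructor <;> linarith

theorem smallq {σ K : ℝ} (hσ : σ = 1 ∨ σ = -1) (hK : 1 ≤ K) (X : ℕ) (hX : K ≤ (X : ℝ) ^ 3)
    (m n : ℕ) (hm : 0 < m) (hn : 0 < n) (a : ℤ) (g : ℤ → ℤ) :
    {t : ℤ × ℤ | t ∈ cl σ K m n a g ∧ (t.1 : ℝ) ≤ X}.Finite ∧
    |({t : ℤ × ℤ | t ∈ cl σ K m n a g ∧ (t.1 : ℝ) ≤ X}.ncard : ℝ)
        - ar σ / (m * n) * K ^ (5 / 6 : ℝ)| ≤
      20 * X + 20 * √K + 8 * K * (X : ℝ) ^ (-(1 / 2) : ℝ) := by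
  have hK0 : 0 ≤ K := zero_le_one.trans hK
  have hX1 : 1 ≤ X := by
    rcases Nat.eq_zero_or_pos X with h | h
    · subst h; norm_num at hX; linarith
    · exact h
  have hX1' : (1 : ℝ) ≤ X := by exact_mod_cast hX1
  have hm1 : (1 : ℝ) ≤ m := by exact_mod_cast hm
  have hn1 : (1 : ℝ) ≤ n := by exact_mod_cast hn
  have hm0 : (0 : ℝ) < m := by linarith
  have hn0 : (0 : ℝ) < n := by linarith
  have hmZ : (0 : ℤ) < m := by exact_mod_cast hm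
  -- the cube root
  have hr3 := cube_root hK0
  have hr0 : 0 ≤ K ^ (1 / 3 : ℝ) := Real.rpow_nonneg hK0 _
  have hrX : K ^ (1 / 3 : ℝ) ≤ X := by
    by_contra hc
    have := cube_lt (not_le.1 hc)
    linarith
  obtain ⟨a0, ha0⟩ : ∃ a0 : ℤ, a0 = ⌈K ^ (1 / 3 : ℝ)⌉ + 1 := ⟨_, rfl⟩
  have h1 : K ^ (1 / 3 : ℝ) < a0 := by
    have := Int.le_ceil (K ^ (1 / 3 : ℝ))
    rw [ha0]; push_cast; linarith
  have h2 : a0 ≤ (X : ℤ) + 1 := by
    have : ⌈K ^ (1 / 3 : ℝ)⌉ ≤ (X : ℤ) := Int.ceil_le.2 (by exact_mod_cast hrX)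
    omega
  have h3 : K < (a0 : ℝ) ^ 3 := by
    have := cube_lt h1
    linarith
  have hpos : (0 : ℤ) < a0 := by
    have : (0 : ℝ) < a0 := lt_of_le_of_lt hr0 h1
    exact_mod_cast this
  have hX1Z : (1 : ℤ) ≤ X := by exact_mod_cast hX1
  obtain ⟨hQf, hQc⟩ := fibres hσ hK0 m n hm hn a g a0 (X : ℤ) h3
  obtain ⟨A, hA⟩ : ∃ A : ℤ, A = (-a0 - a) / (m : ℤ) := ⟨_, rfl⟩
  obtain ⟨B, hB⟩ : ∃ B : ℤ, B = ((X : ℤ) - a) / (m : ℤ) := ⟨_, rfl⟩
  have hA1 : A * m ≤ -a0 - a := by rw [hA]; exact Int.ediv_mul_le _ hmZ.ne'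
  have hA2 : -a0 - a < (A + 1) * m := by rw [hA]; exact Int.lt_ediv_add_one_mul_self _ hmZ
  have hB1 : B * m ≤ (X : ℤ) - a := by rw [hB]; exact Int.ediv_mul_le _ hmZ.ne'
  have hB2 : (X : ℤ) - a < (B + 1) * m := by rw [hB]; exact Int.lt_ediv_add_one_mul_self _ hmZ
  have hAB : A ≤ B := by
    by_contra hc
    have h5 : B + 1 ≤ A := by omega
    have h6 : (B + 1) * m ≤ A * m := mul_le_mul_of_nonneg_right h5 hmZ.le
    linarith
  have hBA : B - A ≤ 3 * (X : ℤ) := by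
    by_contra hc
    have h5 : 3 * (X : ℤ) + 1 ≤ B - A := by omega
    have h6 : (3 * (X : ℤ) + 1) * m ≤ (B - A) * m := mul_le_mul_of_nonneg_right h5 hmZ.le
    have h7 : (X : ℤ) * 1 ≤ X * m := mul_le_mul_of_nonneg_left (by omega) (by omega)
    have h8 : (1 : ℤ) * m ≤ X * m := mul_le_mul_of_nonneg_right hX1Z hmZ.le
    nlinarith
  rw [← hA, ← hB] at hQc
  have hXX : (((X : ℤ) : ℤ) : ℝ) = (X : ℝ) := by push_cast; rfl
  rw [hXX] at hQf hQc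
  refine ⟨hQf, ?_⟩
  -- the fibres
  have e1 : |(∑ j ∈ Finset.Ioc A B,
        {y : ℤ | (0 < σ * ((y : ℝ) ^ 2 - ((a + m * j : ℤ) : ℝ) ^ 3) ∧
          σ * ((y : ℝ) ^ 2 - ((a + m * j : ℤ) : ℝ) ^ 3) ≤ K) ∧
          (n : ℤ) ∣ y - g (a + m * j)}.ncard : ℕ)
      - ∑ j ∈ Finset.Ioc A B, ln σ K ((a + m * j : ℤ) : ℝ) / n| ≤ 12 * (X : ℝ) := by
    rw [Nat.cast_sum, ← Finset.sum_sub_distrib]
    refine (Finset.abs_sum_le_sum_abs _ _).trans ?_
    refine (Finset.sum_le_sum fun j _ =>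
      (fibq hσ hK0 (a + m * j) n hn (g (a + m * j))).2).trans ?_
    rw [Finset.sum_const, Int.card_Ioc, nsmul_eq_mul]
    have h5 : (((B - A).toNat : ℕ) : ℝ) ≤ 3 * X := by
      have h6 : (((B - A).toNat : ℕ) : ℤ) ≤ 3 * X := by
        rw [Int.toNat_of_nonneg (by omega)]; exact hBA
      exact_mod_cast h6
    linarith
  rw [← hQc, ← Finset.sum_div] at e1
  -- the sum and the integral
  have e2 := sum_ln hσ hK0 m hm a A B hAB
  -- the integral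
  have hA1' : (a : ℝ) + m * A ≤ -a0 := by
    have : ((A * m : ℤ) : ℝ) ≤ ((-a0 - a : ℤ) : ℝ) := by exact_mod_cast hA1
    push_cast at this
    linarith
  have hB1' : (a : ℝ) + m * B ≤ X := by
    have : ((B * m : ℤ) : ℝ) ≤ (((X : ℤ) - a : ℤ) : ℝ) := by exact_mod_cast hB1
    push_cast at this
    linarith
  have hB2' : (X : ℝ) - ((a : ℝ) + m * B) ≤ m := by
    have : (((X : ℤ) - a : ℤ) : ℝ) ≤ (((B + 1) * m : ℤ) : ℝ) := by exact_mod_cast hB2.le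
    push_cast at this
    linarith
  have hAB' : (a : ℝ) + m * A ≤ (a : ℝ) + m * B := by
    have : (A : ℝ) ≤ B := by exact_mod_cast hAB
    nlinarith
  have hN : ((a : ℝ) + m * A) ^ 3 ≤ -K := by
    have h5 := cube_le hA1'
    have h6 : (-(a0 : ℝ)) ^ 3 = -(a0 : ℝ) ^ 3 := by ring
    rw [h6] at h5
    linarith
  have e3 := int_ln hσ hK hN hAB' hB1' hB2' (by linarith) hX
  -- combine
  have hs0 : 0 ≤ √K := Real.sqrt_nonneg K
  have hT0 : 0 ≤ K * (X : ℝ) ^ (-(1 / 2) : ℝ) := by positivity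
  set c : ℝ := ({t : ℤ × ℤ | t ∈ cl σ K m n a g ∧ (t.1 : ℝ) ≤ X}.ncard : ℝ)
  set S : ℝ := ∑ j ∈ Finset.Ioc A B, ln σ K ((a + m * j : ℤ) : ℝ)
  set J : ℝ := ∫ x in ((a : ℝ) + m * A)..((a : ℝ) + m * B), ln σ K x
  set R : ℝ := ar σ * K ^ (5 / 6 : ℝ)
  set T : ℝ := (X : ℝ) ^ (-(1 / 2) : ℝ)
  have f1 : |(m : ℝ)⁻¹ * J - (m : ℝ)⁻¹ * R| ≤ 2 * √K + 4 * K * T := by
    rw [← mul_sub, abs_mul, abs_of_pos (inv_pos.2 hm0)]
    have h5 : (m : ℝ)⁻¹ * |J - R| ≤ (m : ℝ)⁻¹ * (m * (2 * √K) + 4 * K * T) :=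
      mul_le_mul_of_nonneg_left e3 (inv_pos.2 hm0).le
    have h6 : (m : ℝ)⁻¹ * (m * (2 * √K) + 4 * K * T) = 2 * √K + (m : ℝ)⁻¹ * (4 * K * T) := by
      rw [mul_add, ← mul_assoc, inv_mul_cancel₀ hm0.ne', one_mul]
    have h7 : (m : ℝ)⁻¹ * (4 * K * T) ≤ 1 * (4 * K * T) :=
      mul_le_mul_of_nonneg_right (inv_le_one_of_one_le₀ hm1) (by linarith)
    linarith
  have f2 : |S - (m : ℝ)⁻¹ * R| ≤ 6 * √K + 4 * K * T := by
    rw [abs_le] at e2 f1 ⊢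
    constructor <;> linarith [e2.1, e2.2, f1.1, f1.2]
  have f3 : |S / n - (m : ℝ)⁻¹ * R / n| ≤ 6 * √K + 4 * K * T := by
    rw [← sub_div, abs_div, abs_of_pos hn0, div_le_iff₀ hn0]
    have : 0 ≤ 6 * √K + 4 * K * T := by linarith
    nlinarith
  have f4 : (m : ℝ)⁻¹ * R / n = ar σ / (m * n) * K ^ (5 / 6 : ℝ) := by
    simp only [R]
    field_simp
  rw [f4] at f3
  rw [abs_le] at e1 f3 ⊢
  constructor <;> linarith [e1.1, e1.2, f3.1, f3.2]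

end Pool.Agent.Work.MP_f2148a_nt.BM
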