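import Pool.Agent.Work.MP_f2148a_nt.BM.LnA

/-!
# BM/VolSA (size M): the integral of `ln`

* `ln_integrable`: continuous, 0 for `x ≤ -max 1 K`, `≤ 2 K x ^ (-3 / 2)` for `x ≥ max 1 K`.
* `ln_scale`: `ln σ K x = K ^ (1 / 2) ln σ 1 (K ^ (-1 / 3) x)`, `MeasureTheory.Measure.integral_comp_mul_left`.
* `ln_pos`: continuous, nonnegative, `ln 1 1 0 = 2 > 0`, `ln (-1) 1 1 = 2 > 0`.
* `tail_ln`: `ln_tail`, `integral_Ioi_rpow_of_lt`: `∫ x > X, 2 K x ^ (-3 / 2) = 4 K X ^ (-1 / 2)`.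
The file `As/VolA.lean` is a model.
-/

set_option autoImplicit false

namespace Pool.Agent.Work.MP_f2148a_nt.BM

open MeasureTheory

private theorem cube_ge' {x : ℝ} (hx : 1 ≤ x) : x ≤ x ^ 3 := le_self_pow₀ hx (by norm_num)

theorem ln_integrable {σ K : ℝ} (hσ : σ = 1 ∨ σ = -1) (hK : 0 ≤ K) : Integrable (ln σ K) := by
  set M := max 1 K with hM
  have hM1 : 1 ≤ M := le_max_left _ _
  have hMK : K ≤ M := le_max_right _ _
  have h1 : IntegrableOn (ln σ K) (Set.Iic (-M)) := by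
    refine (integrableOn_zero (μ := volume) (s := Set.Iic (-M))).congr_fun ?_ measurableSet_Iic
    intro x hx
    have hx : x ≤ -M := hx
    refine (ln_zero hσ hK ?_).symm
    have h2 : -x ≤ (-x) ^ 3 := cube_ge' (by linarith)
    have h3 : (-x) ^ 3 = -x ^ 3 := by ring
    linarith
  have h2 : IntegrableOn (ln σ K) (Set.Icc (-M) M) := (ln_cont σ K).integrableOn_Icc
  have h3 : IntegrableOn (ln σ K) (Set.Ioi M) := by
    refine Integrable.mono' (g := fun x => 2 * K * x ^ (-(3 / 2) : ℝ)) ?_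
      (ln_cont σ K).aestronglyMeasurable ?_
    · exact (integrableOn_Ioi_rpow_of_lt (by norm_num) (by linarith)).const_mul _
    · filter_upwards [ae_restrict_mem measurableSet_Ioi] with x hx
      have hx : M < x := hx
      rw [Real.norm_eq_abs, abs_of_nonneg (ln_nonneg σ K x)]
      have h4 : x ≤ x ^ 3 := cube_ge' (by linarith)
      exact ln_tail hσ hK (by linarith) (by linarith)
  rw [← integrableOn_univ]
  have h4 : (Set.univ : Set ℝ) = Set.Iic (-M) ∪ (Set.Icc (-M) M ∪ Set.Ioi M) := by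
    ext x
    simp only [Set.mem_univ, Set.mem_union, Set.mem_Iic, Set.mem_Icc, Set.mem_Ioi, true_iff]
    by_cases h5 : x ≤ -M
    · exact Or.inl h5
    · by_cases h6 : x ≤ M
      · exact Or.inr (Or.inl ⟨(not_le.mp h5).le, h6⟩)
      · exact Or.inr (Or.inr (not_le.mp h6))
  rw [h4]
  exact h1.union (h2.union h3)

theorem ln_scale {σ K : ℝ} (hσ : σ = 1 ∨ σ = -1) (hK : 0 < K) :
    ∫ x, ln σ K x = (∫ x, ln σ 1 x) * K ^ (5 / 6 : ℝ) := by
  have h1 : ∀ x, ln σ K x = √K * ln σ 1 (K ^ (-(1 / 3) : ℝ) * x) := by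
    intro x
    unfold ln
    have h2 : K * (K ^ (-(1 / 3) : ℝ) * x) ^ 3 = x ^ 3 := by
      rw [mul_pow, ← Real.rpow_natCast (K ^ (-(1 / 3) : ℝ)) 3, ← Real.rpow_mul hK.le]
      have h3 : (-(1 / 3) : ℝ) * ((3 : ℕ) : ℝ) = -1 := by norm_num
      rw [h3, Real.rpow_neg_one, ← mul_assoc, mul_inv_cancel₀ hK.ne', one_mul]
    have h4 : x ^ 3 + σ * K = K * ((K ^ (-(1 / 3) : ℝ) * x) ^ 3 + σ * 1) := by
      rw [mul_add, h2]
      ring
    have h5 : √(x ^ 3) = √K * √((K ^ (-(1 / 3) : ℝ) * x) ^ 3) := by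
      rw [← Real.sqrt_mul hK.le, h2]
    rw [h4, h5, Real.sqrt_mul hK.le, ← mul_sub, abs_mul, abs_of_nonneg (Real.sqrt_nonneg K)]
    ring
  have h2 : ∫ x, ln σ K x = ∫ x, √K * ln σ 1 (K ^ (-(1 / 3) : ℝ) * x) :=
    integral_congr_ae (Filter.Eventually.of_forall h1)
  rw [h2, integral_const_mul, Measure.integral_comp_mul_left (ln σ 1) (K ^ (-(1 / 3) : ℝ))]
  have h3 : (K ^ (-(1 / 3) : ℝ))⁻¹ = K ^ (1 / 3 : ℝ) := by
    rw [Real.rpow_neg hK.le, inv_inv]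
  rw [h3, abs_of_nonneg (Real.rpow_nonneg hK.le _), smul_eq_mul, Real.sqrt_eq_rpow, ← mul_assoc,
    ← Real.rpow_add hK]
  norm_num
  ring

theorem ln_pos {σ : ℝ} (hσ : σ = 1 ∨ σ = -1) : 0 < ∫ x, ln σ 1 x := by
  rw [integral_pos_iff_support_of_nonneg (fun x => ln_nonneg σ 1 x)
    (ln_integrable hσ zero_le_one)]
  refine (ln_cont σ 1).isOpen_support.measure_pos _ ?_
  rcases hσ with rfl | rfl
  · refine ⟨0, ?_⟩
    rw [Function.mem_support]
    unfold ln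
    norm_num
  · refine ⟨1, ?_⟩
    rw [Function.mem_support]
    unfold ln
    norm_num

theorem tail_ln {σ K X : ℝ} (hσ : σ = 1 ∨ σ = -1) (hK : 0 ≤ K) (hX : 0 < X) (h : K ≤ X ^ 3) :
    ∫ x in Set.Ioi X, ln σ K x ≤ 4 * K * X ^ (-(1 / 2) : ℝ) := by
  have h1 : ∫ x in Set.Ioi X, ln σ K x ≤ ∫ x in Set.Ioi X, 2 * K * x ^ (-(3 / 2) : ℝ) := by
    refine setIntegral_mono_on (ln_integrable hσ hK).integrableOn
      ((integrableOn_Ioi_rpow_of_lt (by norm_num) hX).const_mul _) measurableSet_Ioi ?_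
    intro x hx
    have hx : X < x := hx
    exact ln_tail hσ hK (hX.trans hx) (h.trans (pow_le_pow_left₀ hX.le hx.le 3))
  rw [integral_const_mul, integral_Ioi_rpow_of_lt (by norm_num) hX] at h1
  have h2 : (-(3 / 2) : ℝ) + 1 = -(1 / 2) := by norm_num
  rw [h2] at h1
  calc ∫ x in Set.Ioi X, ln σ K x ≤ _ := h1
    _ = 4 * K * X ^ (-(1 / 2) : ℝ) := by ring

end Pool.Agent.Work.MP_f2148a_nt.BM
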